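import Pool.Agent.Work.MP_215640_nt.Basic

/-!
MODULE ABSORB. Growth of the levels, and absorption of the floors at levels with larger exponents.

`F_ratio`: `F w j n / n ^ cc w j → 1`, induction on `j`.

`absorb`: let `m = pr w j`, `A_l = (F w l n) ^ (cc w j / cc w l)` for `m ≤ l ≤ j - 1`; `A_{j-1} =
xx w j n`, `A_m = (F w m n) ^ gam w j`. For `m ≤ l`, `l + 1 ≤ j - 1`: `cc w (l+1) > cc w j`
(`lt_of_pr_lt`), `γ' = cc w j / cc w (l+1) < 1`, `Y = (F w l n)^(ex (w l))`, `A_l = Y^γ'`,
`A_{l+1} = ⌊Y⌋^γ'`, and `0 ≤ Y^γ' - ⌊Y⌋^γ' ≤ γ' ⌊Y⌋^(γ'-1) → 0`.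
-/

set_option autoImplicit false

namespace Pool.Agent.Work.MP_215640_nt

open Finset Polynomial Filter Topology

theorem F_le (w : ℕ → Bool) (j n : ℕ) : (F w j n : ℝ) ≤ (n : ℝ) ^ cc w j := by
  induction j with
  | zero => simp [F_zero, cc_zero]
  | succ j ih =>
    rw [F_succ, cc_succ]
    have h0 : (0 : ℝ) ≤ (F w j n : ℝ) ^ ex (w j) := by positivity
    refine (Nat.floor_le h0).trans ?_
    rw [Real.rpow_mul (by positivity)]
    exact Real.rpow_le_rpow (by positivity) ih (ex_pos _).le

private theorem F_ratio (w : ℕ → Bool) (j : ℕ) :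
    Tendsto (fun n : ℕ => (F w j n : ℝ) / (n : ℝ) ^ cc w j) atTop (𝓝 1) := by
  induction j with
  | zero =>
    apply Tendsto.congr' (f₁ := fun _ => (1 : ℝ)) _ tendsto_const_nhds
    filter_upwards [eventually_gt_atTop 0] with n hn
    have : (n : ℝ) ≠ 0 := by exact_mod_cast hn.ne'
    simp [F_zero, cc_zero, this]
  | succ j ih =>
    have hc : 0 < cc w (j + 1) := cc_pos _ _
    have h1 : Tendsto (fun n : ℕ => ((F w j n : ℝ) / (n : ℝ) ^ cc w j) ^ ex (w j)) atTop
        (𝓝 1) := by
      have := ih.rpow_const (p := ex (w j)) (Or.inl one_ne_zero)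
      simpa using this
    have hinf : Tendsto (fun n : ℕ => (n : ℝ) ^ cc w (j + 1)) atTop atTop :=
      (tendsto_rpow_atTop hc).comp tendsto_natCast_atTop_atTop
    have h2 : Tendsto (fun n : ℕ => ((F w j n : ℝ) / (n : ℝ) ^ cc w j) ^ ex (w j)
        - ((n : ℝ) ^ cc w (j + 1))⁻¹) atTop (𝓝 1) := by
      have := h1.sub hinf.inv_tendsto_atTop
      simpa using this
    have key : ∀ n : ℕ, 0 < n → ((F w j n : ℝ) / (n : ℝ) ^ cc w j) ^ ex (w j)
        = (F w j n : ℝ) ^ ex (w j) / (n : ℝ) ^ cc w (j + 1) := by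
      intro n hn
      have hn' : (0 : ℝ) < n := by exact_mod_cast hn
      rw [Real.div_rpow (by positivity) (by positivity), ← Real.rpow_mul hn'.le, ← cc_succ]
    apply tendsto_of_tendsto_of_tendsto_of_le_of_le' h2 h1
    · filter_upwards [eventually_gt_atTop 0] with n hn
      rw [key n hn, F_succ]
      have hn' : (0 : ℝ) < n := by exact_mod_cast hn
      have hp : (0 : ℝ) < (n : ℝ) ^ cc w (j + 1) := by positivity
      rw [← one_div, ← sub_div]
      apply div_le_div_of_nonneg_right _ hp.le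
      have := Nat.lt_floor_add_one ((F w j n : ℝ) ^ ex (w j))
      linarith
    · filter_upwards [eventually_gt_atTop 0] with n hn
      rw [key n hn, F_succ]
      have hn' : (0 : ℝ) < n := by exact_mod_cast hn
      have hp : (0 : ℝ) < (n : ℝ) ^ cc w (j + 1) := by positivity
      apply div_le_div_of_nonneg_right _ hp.le
      exact Nat.floor_le (by positivity)

theorem F_ge (w : ℕ → Bool) (j : ℕ) : ∀ᶠ n : ℕ in atTop, (n : ℝ) ^ cc w j / 2 ≤ F w j n := by
  have h := (F_ratio w j).eventually (lt_mem_nhds (show (1 / 2 : ℝ) < 1 by norm_num))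
  filter_upwards [h, eventually_gt_atTop 0] with n hn h0
  have hn' : (0 : ℝ) < n := by exact_mod_cast h0
  have hp : (0 : ℝ) < (n : ℝ) ^ cc w j := by positivity
  rw [lt_div_iff₀ hp] at hn
  linarith

private theorem F_tendsto (w : ℕ → Bool) (j : ℕ) : Tendsto (fun n : ℕ => F w j n) atTop atTop := by
  have hinf : Tendsto (fun n : ℕ => (n : ℝ) ^ cc w j / 2) atTop atTop :=
    ((tendsto_rpow_atTop (cc_pos w j)).comp tendsto_natCast_atTop_atTop).atTop_div_const
      (by norm_num)
  have h := tendsto_atTop_mono' atTop (F_ge w j) hinf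
  exact tendsto_natCast_atTop_iff.1 h

private theorem rpow_diff (γ : ℝ) (h0 : 0 < γ) (h1 : γ < 1) :
    Tendsto (fun k : ℕ => ((k : ℝ) + 1) ^ γ - (k : ℝ) ^ γ) atTop (𝓝 0) := by
  have hz : Tendsto (fun k : ℕ => γ * (k : ℝ) ^ (γ - 1)) atTop (𝓝 0) := by
    have h := (tendsto_rpow_neg_atTop (y := 1 - γ) (by linarith)).comp
      (tendsto_natCast_atTop_atTop (R := ℝ))
    have h2 := h.const_mul γ
    simp only [mul_zero] at h2
    refine h2.congr ?_
    intro k
    simp only [Function.comp]
    rw [neg_sub]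
  apply squeeze_zero' _ _ hz
  · filter_upwards with k
    have := Real.rpow_le_rpow (by positivity) (show (k : ℝ) ≤ k + 1 by linarith) h0.le
    linarith
  · filter_upwards [eventually_gt_atTop 0] with k hk
    have hk' : (0 : ℝ) < k := by exact_mod_cast hk
    have e1 : (k : ℝ) + 1 = k * (1 + 1 / k) := by field_simp
    have e2 := rpow_one_add_le_one_add_mul_self (s := 1 / (k : ℝ)) (p := γ)
      (by have : 0 < 1 / (k : ℝ) := by positivity
          linarith) h0.le h1.le
    rw [e1, Real.mul_rpow hk'.le (by positivity), Real.rpow_sub_one hk'.ne']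
    have e3 : 0 < (k : ℝ) ^ γ := by positivity
    calc (k : ℝ) ^ γ * (1 + 1 / k) ^ γ - (k : ℝ) ^ γ
        ≤ (k : ℝ) ^ γ * (1 + γ * (1 / k)) - (k : ℝ) ^ γ := by gcongr
      _ = γ * ((k : ℝ) ^ γ / k) := by field_simp; ring

theorem absorb (w : ℕ → Bool) (j : ℕ) (hj : 1 ≤ j) : ∀ ε : ℝ, 0 < ε → ∀ᶠ n : ℕ in atTop,
    |xx w j n - (F w (pr w j) n : ℝ) ^ gam w j| ≤ ε := by
  have hm : pr w j < j := pr_lt w j (by omega)
  have key : ∀ t : ℕ, pr w j + t ≤ j - 1 → Tendsto (fun n : ℕ =>
      (F w (pr w j + t) n : ℝ) ^ (cc w j / cc w (pr w j + t)) -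
        (F w (pr w j) n : ℝ) ^ (cc w j / cc w (pr w j))) atTop (𝓝 0) := by
    intro t
    induction t with
    | zero => intro _; simp
    | succ t ih =>
      intro ht
      have ih' := ih (by omega)
      set l := pr w j + t with hl
      have hlt : cc w j < cc w (l + 1) := lt_of_pr_lt w (by omega) (by omega)
      have hcl : 0 < cc w (l + 1) := cc_pos _ _
      have hg0 : 0 < cc w j / cc w (l + 1) := div_pos (cc_pos _ _) hcl
      have hg1 : cc w j / cc w (l + 1) < 1 := (div_lt_one hcl).2 hlt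
      have hstep : Tendsto (fun n : ℕ => (F w l n : ℝ) ^ (cc w j / cc w l) -
          (F w (l + 1) n : ℝ) ^ (cc w j / cc w (l + 1))) atTop (𝓝 0) := by
        have hd := (rpow_diff _ hg0 hg1).comp (F_tendsto w (l + 1))
        apply squeeze_zero _ _ hd
        · intro n
          have e1 : (F w l n : ℝ) ^ (cc w j / cc w l) =
              ((F w l n : ℝ) ^ ex (w l)) ^ (cc w j / cc w (l + 1)) := by
            rw [← Real.rpow_mul (by positivity)]
            congr 1
            rw [cc_succ]
            have h1 := (cc_pos w l).ne'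
            have h2 := (ex_pos (w l)).ne'
            field_simp
          rw [e1, F_succ]
          have := Real.rpow_le_rpow (by positivity)
            (Nat.floor_le (show (0 : ℝ) ≤ (F w l n : ℝ) ^ ex (w l) by positivity)) hg0.le
          linarith
        · intro n
          simp only [Function.comp]
          have e1 : (F w l n : ℝ) ^ (cc w j / cc w l) =
              ((F w l n : ℝ) ^ ex (w l)) ^ (cc w j / cc w (l + 1)) := by
            rw [← Real.rpow_mul (by positivity)]
            congr 1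
            rw [cc_succ]
            have h1 := (cc_pos w l).ne'
            have h2 := (ex_pos (w l)).ne'
            field_simp
          rw [e1, F_succ]
          have := Real.rpow_le_rpow (by positivity)
            (Nat.lt_floor_add_one ((F w l n : ℝ) ^ ex (w l))).le hg0.le
          linarith
      have h3 := ih'.sub hstep
      simp only [sub_zero] at h3
      refine h3.congr ?_
      intro n
      show _ = (F w (l + 1) n : ℝ) ^ (cc w j / cc w (l + 1)) - _
      ring
  have h := key (j - 1 - pr w j) (by omega)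
  have e : pr w j + (j - 1 - pr w j) = j - 1 := by omega
  rw [e] at h
  intro ε hε
  have h2 := (Metric.tendsto_nhds.1 h) ε hε
  filter_upwards [h2] with n hn
  rw [Real.dist_eq, sub_zero] at hn
  have e2 : xx w j n = (F w (j - 1) n : ℝ) ^ (cc w j / cc w (j - 1)) := by
    obtain ⟨i, rfl⟩ : ∃ i, j = i + 1 := ⟨j - 1, by omega⟩
    rw [xx_succ, Nat.add_sub_cancel, cc_succ]
    congr 1
    have h1 := (cc_pos w i).ne'
    field_simp
  rw [e2]
  exact hn.le

end Pool.Agent.Work.MP_215640_nt
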