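import Pool.Agent.Work.MP_215640_nt.Defs

/-!
MODULE BASIC. Elementary facts about `dI`, `Gen`, `ee`, `cc`, `pr`, `trunc`, `Pst`.
-/

set_option autoImplicit false

namespace Pool.Agent.Work.MP_215640_nt

open Finset Polynomial

theorem dI_nonneg (t : ℝ) : 0 ≤ dI t := abs_nonneg _
theorem dI_le_half (t : ℝ) : dI t ≤ 1 / 2 := abs_sub_round t
theorem dI_le (t : ℝ) (z : ℤ) : dI t ≤ |t - z| := round_le t z
theorem dI_le_abs (t : ℝ) : dI t ≤ |t| := by simpa using dI_le t 0
/-- there is an integer at distance `dI t` -/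
theorem exists_int_dI (t : ℝ) : ∃ z : ℤ, |t - z| = dI t := ⟨round t, rfl⟩
theorem dI_add_int (t : ℝ) (z : ℤ) : dI (t + z) = dI t := by
  unfold dI
  rw [round_add_intCast]
  push_cast
  congr 1
  ring
theorem dI_neg (t : ℝ) : dI (-t) = dI t := by
  apply le_antisymm
  · obtain ⟨z, hz⟩ := exists_int_dI t
    have := dI_le (-t) (-z)
    rw [← hz]
    refine this.trans (le_of_eq ?_)
    rw [← abs_neg]
    congr 1
    push_cast
    ring
  · obtain ⟨z, hz⟩ := exists_int_dI (-t)
    have := dI_le t (-z)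
    rw [← hz]
    refine this.trans (le_of_eq ?_)
    rw [← abs_neg]
    congr 1
    push_cast
    ring
theorem dI_add_le (s t : ℝ) : dI (s + t) ≤ dI s + dI t := by
  obtain ⟨z, hz⟩ := exists_int_dI s
  obtain ⟨y, hy⟩ := exists_int_dI t
  have := dI_le (s + t) (z + y)
  rw [← hz, ← hy]
  refine this.trans ?_
  have h : s + t - ((z + y : ℤ) : ℝ) = (s - z) + (t - y) := by push_cast; ring
  rw [h]
  exact abs_add_le _ _
theorem dI_sub_le (s t : ℝ) : dI s ≤ dI t + |s - t| := by
  obtain ⟨y, hy⟩ := exists_int_dI t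
  have := dI_le s y
  rw [← hy]
  refine this.trans ?_
  have h : s - y = (t - y) + (s - t) := by ring
  rw [h]
  exact abs_add_le _ _
theorem dI_int_mul_le (n : ℤ) (t : ℝ) : dI (n * t) ≤ |(n : ℝ)| * dI t := by
  obtain ⟨y, hy⟩ := exists_int_dI t
  have := dI_le (n * t) (n * y)
  rw [← hy, ← abs_mul]
  refine this.trans (le_of_eq ?_)
  congr 1
  push_cast
  ring
theorem dI_nat_mul_le (n : ℕ) (t : ℝ) : dI (n * t) ≤ n * dI t := by
  have := dI_int_mul_le n t
  simpa using this

theorem Gen.mono {B B' : ℕ} {η η' t : ℝ} (h : Gen B η t) (hB : B' ≤ B) (hη : η' ≤ η) :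
    Gen B' η' t := fun l h1 h2 => hη.trans (h l h1 (h2.trans hB))
theorem Gen.nat_mul {B q : ℕ} {η t : ℝ} (h : Gen (B * q) η t) (hq : 1 ≤ q) :
    Gen B η (q * t) := by
  intro l h1 h2
  have h3 := h (l * q) (Nat.one_le_iff_ne_zero.2 (by positivity)) (Nat.mul_le_mul_right q h2)
  push_cast at h3
  rwa [mul_assoc] at h3
theorem Gen.perturb {B : ℕ} {η t s : ℝ} (h : Gen B η t) (hs : B * |s - t| ≤ η / 2) :
    Gen B (η / 2) s := by
  intro l h1 h2
  have h3 := h l h1 h2
  have h4 := dI_sub_le (l * t) (l * s)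
  have h5 : |(l : ℝ) * t - l * s| = l * |s - t| := by
    rw [← mul_sub, abs_mul, abs_sub_comm]; simp
  have h6 : (l : ℝ) * |s - t| ≤ B * |s - t| :=
    mul_le_mul_of_nonneg_right (by exact_mod_cast h2) (abs_nonneg _)
  rw [h5] at h4
  linarith

theorem ee_add (s t : ℝ) : ee (s + t) = ee s * ee t := by
  unfold ee
  rw [← Complex.exp_add]
  congr 1
  push_cast
  ring
theorem ee_int (z : ℤ) : ee z = 1 := by
  unfold ee
  have := Complex.exp_int_mul_two_pi_mul_I z
  rw [← this]
  congr 1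
  push_cast
  ring
theorem ee_zero : ee 0 = 1 := by simpa using ee_int 0
theorem ee_nat_mul (n : ℕ) (t : ℝ) : ee (n * t) = ee t ^ n := by
  unfold ee
  rw [← Complex.exp_nat_mul]
  congr 1
  push_cast
  ring
theorem ee_neg (t : ℝ) : ee (-t) = (starRingEnd ℂ) (ee t) := by
  unfold ee
  rw [← Complex.exp_conj]
  congr 1
  rw [map_mul, map_mul, map_mul, Complex.conj_I, Complex.conj_ofReal, Complex.conj_ofReal,
    map_ofNat]
  push_cast
  ring
theorem norm_ee (t : ℝ) : ‖ee t‖ = 1 := by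
  unfold ee
  have h : (2 * Real.pi * t * Complex.I : ℂ) = ((2 * Real.pi * t : ℝ) : ℂ) * Complex.I := by
    push_cast; ring
  rw [h, Complex.norm_exp_ofReal_mul_I]
theorem norm_one_sub_ee_eq (t : ℝ) : ‖1 - ee t‖ = 2 * |Real.sin (Real.pi * t)| := by
  have h : ‖1 - ee t‖ ^ 2 = (2 * |Real.sin (Real.pi * t)|) ^ 2 := by
    have h1 : ee t = ⟨Real.cos (2 * (Real.pi * t)), Real.sin (2 * (Real.pi * t))⟩ := by
      unfold ee
      have h : (2 * Real.pi * t * Complex.I : ℂ) =
          ((2 * (Real.pi * t) : ℝ) : ℂ) * Complex.I := by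
        push_cast; ring
      rw [h, Complex.exp_mul_I, ← Complex.ofReal_cos, ← Complex.ofReal_sin]
      apply Complex.ext
      · simp only [Complex.add_re, Complex.ofReal_re, Complex.mul_re, Complex.I_re, Complex.I_im,
          Complex.ofReal_im]
        ring
      · simp only [Complex.add_im, Complex.ofReal_re, Complex.mul_im, Complex.I_re, Complex.I_im,
          Complex.ofReal_im]
        ring
    rw [← Complex.normSq_eq_norm_sq, h1, Complex.normSq_apply]
    simp only [Complex.sub_re, Complex.one_re, Complex.sub_im, Complex.one_im]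
    rw [mul_pow, sq_abs, Real.sin_two_mul, Real.cos_two_mul]
    have := Real.sin_sq_add_cos_sq (Real.pi * t)
    nlinarith [this, sq_nonneg (Real.sin (Real.pi * t)), sq_nonneg (Real.cos (Real.pi * t))]
  exact (pow_left_inj₀ (norm_nonneg _) (by positivity) two_ne_zero).1 h
theorem norm_ee_sub_eq (s t : ℝ) : ‖ee s - ee t‖ = ‖1 - ee (s - t)‖ := by
  have h : ee s - ee t = - (ee t * (1 - ee (s - t))) := by
    have : ee s = ee t * ee (s - t) := by rw [← ee_add]; congr 1; ring
    rw [this]; ring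
  rw [h, norm_neg, norm_mul, norm_ee, one_mul]
theorem norm_ee_sub_le (s t : ℝ) : ‖ee s - ee t‖ ≤ 2 * Real.pi * |s - t| := by
  rw [norm_ee_sub_eq, norm_one_sub_ee_eq]
  have h := Real.abs_sin_le_abs (x := Real.pi * (s - t))
  rw [abs_mul, abs_of_pos Real.pi_pos] at h
  linarith
/-- `|1 - e(t)| ≥ 4 dI t` -/
theorem norm_one_sub_ee (t : ℝ) : 4 * dI t ≤ ‖1 - ee t‖ := by
  obtain ⟨z, hz⟩ := exists_int_dI t
  have h1 : ee t = ee (t - z) := by
    have : t = (t - z) + z := by ring
    conv_lhs => rw [this]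
    rw [ee_add, ee_int, mul_one]
  rw [h1, norm_one_sub_ee_eq, ← hz]
  have h2 : |t - z| ≤ 1 / 2 := hz ▸ dI_le_half t
  have h3 : |Real.sin (Real.pi * (t - z))| = Real.sin (Real.pi * |t - z|) := by
    rcases le_total 0 (t - z) with h | h
    · rw [abs_of_nonneg h, abs_of_nonneg]
      apply Real.sin_nonneg_of_nonneg_of_le_pi (by positivity)
      rw [abs_of_nonneg h] at h2
      nlinarith [Real.pi_pos]
    · rw [abs_of_nonpos h]
      rw [abs_of_nonpos h] at h2
      have : Real.sin (Real.pi * (t - z)) = - Real.sin (Real.pi * -(t - z)) := by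
        rw [← Real.sin_neg]; congr 1; ring
      rw [this, abs_neg, abs_of_nonneg]
      apply Real.sin_nonneg_of_nonneg_of_le_pi
      · have := Real.pi_pos
        have : 0 ≤ -(t - z) := by linarith
        positivity
      · nlinarith [Real.pi_pos]
  rw [h3]
  have h4 := Real.mul_le_sin (x := Real.pi * |t - z|) (by positivity)
    (by nlinarith [Real.pi_pos])
  have h5 : 2 / Real.pi * (Real.pi * |t - z|) = 2 * |t - z| := by
    field_simp
  rw [h5] at h4
  linarith
theorem norm_one_sub_ee_le (t : ℝ) : ‖1 - ee t‖ ≤ 2 * Real.pi * dI t := by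
  obtain ⟨z, hz⟩ := exists_int_dI t
  have := norm_ee_sub_le z t
  rw [ee_int, abs_sub_comm, hz] at this
  exact this

theorem ex_pos (b : Bool) : 0 < ex b := by
  unfold ex; split_ifs <;> norm_num
theorem cc_zero (w : ℕ → Bool) : cc w 0 = 1 := by simp [cc]
theorem cc_succ (w : ℕ → Bool) (j : ℕ) : cc w (j + 1) = cc w j * ex (w j) := by
  unfold cc; rw [prod_range_succ]
theorem cc_pos (w : ℕ → Bool) (j : ℕ) : 0 < cc w j := by
  unfold cc; exact prod_pos fun i _ => ex_pos _
theorem cc_eq (w : ℕ → Bool) (j : ℕ) :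
    cc w j = (3 : ℝ) ^ ((range j).filter (fun i => w i = true)).card / 2 ^ j := by
  induction j with
  | zero => simp [cc_zero]
  | succ j ih =>
    rw [cc_succ, ih, range_add_one, filter_insert]
    by_cases h : w j = true
    · rw [if_pos h, card_insert_of_notMem (by simp)]
      simp only [ex, h, if_true]
      rw [pow_succ, pow_succ]
      field_simp
    · rw [if_neg h]
      simp only [ex, h]
      rw [pow_succ]
      simp only [Bool.false_eq_true, if_false]
      field_simp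
theorem three_pow_aux {a b j l : ℕ} (h : (3 : ℝ) ^ a / 2 ^ j = (3 : ℝ) ^ b / 2 ^ l) (hjl : j < l) :
    False := by
  have h2 : (3 : ℝ) ^ a * 2 ^ l = 3 ^ b * 2 ^ j := by
    field_simp at h
    linarith
  have h3 : 3 ^ a * 2 ^ l = 3 ^ b * 2 ^ j := by exact_mod_cast h2
  obtain ⟨c, rfl⟩ := Nat.exists_eq_add_of_lt hjl
  have h4 : 3 ^ a * 2 ^ (c + 1) = 3 ^ b := by
    have : 3 ^ a * 2 ^ (c + 1) * 2 ^ j = 3 ^ b * 2 ^ j := by
      rw [← h3, show j + c + 1 = (c + 1) + j by ring, pow_add 2 (c + 1) j]; ring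
    exact Nat.eq_of_mul_eq_mul_right (by positivity) this
  have h5 : Odd (3 ^ b) := Odd.pow (by decide)
  rw [← h4] at h5
  have h6 : Even (3 ^ a * 2 ^ (c + 1)) := by
    rw [pow_succ]
    exact ((even_two.mul_left _).mul_left _)
  exact (Nat.not_even_iff_odd.2 h5) h6
theorem cc_inj (w : ℕ → Bool) {j l : ℕ} (h : cc w j = cc w l) : j = l := by
  rw [cc_eq, cc_eq] at h
  rcases lt_trichotomy j l with h1 | h1 | h1
  · exact (three_pow_aux h h1).elim
  · exact h1
  · exact (three_pow_aux h.symm h1).elim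
/-- the exponent of a level `j ≥ 1` is not an integer -/
theorem cc_ne_nat (w : ℕ → Bool) {j : ℕ} (hj : 1 ≤ j) (n : ℕ) : cc w j ≠ n := by
  intro h
  rw [cc_eq] at h
  have h2 : (3 : ℝ) ^ ((range j).filter (fun i => w i = true)).card = n * 2 ^ j := by
    field_simp at h
    linarith
  have h3 : 3 ^ ((range j).filter (fun i => w i = true)).card = n * 2 ^ j := by exact_mod_cast h2
  have h5 : Odd (3 ^ ((range j).filter (fun i => w i = true)).card) := Odd.pow (by decide)
  rw [h3] at h5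
  have h6 : Even (n * 2 ^ j) := by
    obtain ⟨c, rfl⟩ := Nat.exists_eq_add_of_le hj
    rw [add_comm, pow_succ]
    exact ((even_two.mul_left _).mul_left _)
  exact (Nat.not_even_iff_odd.2 h5) h6

theorem xx_zero (w : ℕ → Bool) (n : ℕ) : xx w 0 n = n := rfl
theorem xx_succ (w : ℕ → Bool) (j n : ℕ) : xx w (j + 1) n = (F w j n : ℝ) ^ ex (w j) := rfl
theorem F_zero (w : ℕ → Bool) (n : ℕ) : F w 0 n = n := by simp [F, xx_zero]
theorem F_succ (w : ℕ → Bool) (j n : ℕ) : F w (j + 1) n = ⌊(F w j n : ℝ) ^ ex (w j)⌋₊ := rfl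
theorem xx_nonneg (w : ℕ → Bool) (j n : ℕ) : 0 ≤ xx w j n := by
  cases j with
  | zero => rw [xx_zero]; positivity
  | succ j => rw [xx_succ]; positivity

theorem pr_spec (w : ℕ → Bool) (j : ℕ) (_hj : 1 ≤ j) (h0 : pr w j ≠ 0) :
    cc w (pr w j) < cc w j := by
  classical
  unfold pr at h0 ⊢
  exact Nat.findGreatest_of_ne_zero rfl h0
/-- levels strictly between the parent and `j` have larger exponents -/
theorem lt_of_pr_lt (w : ℕ → Bool) {j l : ℕ} (h1 : pr w j < l) (h2 : l < j) :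
    cc w j < cc w l := by
  classical
  unfold pr at h1
  have h3 := Nat.findGreatest_is_greatest h1 (by omega)
  rcases lt_trichotomy (cc w j) (cc w l) with h | h | h
  · exact h
  · exact absurd (cc_inj w h) (by omega)
  · exact absurd h h3
theorem gam_pos (w : ℕ → Bool) (j : ℕ) : 0 < gam w j := div_pos (cc_pos _ _) (cc_pos _ _)
/-- `gam w j = 3 ^ u / 2 ^ t` with `t = j - pr w j` -/
theorem gam_eq (w : ℕ → Bool) (j : ℕ) (hj : 1 ≤ j) :
    ∃ u : ℕ, gam w j = (3 : ℝ) ^ u / 2 ^ (j - pr w j) := by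
  have h1 : pr w j < j := pr_lt w j (by omega)
  have h2 : ((range (pr w j)).filter (fun i => w i = true)).card ≤
      ((range j).filter (fun i => w i = true)).card :=
    card_le_card (filter_subset_filter _ (range_subset_range.2 h1.le))
  refine ⟨((range j).filter (fun i => w i = true)).card -
    ((range (pr w j)).filter (fun i => w i = true)).card, ?_⟩
  unfold gam
  rw [cc_eq, cc_eq]
  obtain ⟨a, ha⟩ := Nat.exists_eq_add_of_le h2
  obtain ⟨b, hb⟩ := Nat.exists_eq_add_of_le h1.le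
  rw [ha]
  have h3 : (j - pr w j) = b := by omega
  have h4 : (2 : ℝ) ^ j = 2 ^ (pr w j) * 2 ^ b := by rw [← pow_add, ← hb]
  rw [h3, h4, Nat.add_sub_cancel_left, pow_add]
  field_simp

theorem trunc_coeff (d : ℕ) (P : ℝ[X]) (r : ℕ) :
    (trunc d P).coeff r = if r ≤ d then P.coeff r else 0 := by
  unfold trunc
  rw [finsetSum_coeff]
  simp only [coeff_monomial]
  rw [sum_ite_eq']
  simp only [mem_range, Nat.lt_succ_iff]
theorem trunc_natDegree (d : ℕ) (P : ℝ[X]) : (trunc d P).natDegree ≤ d := by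
  rw [natDegree_le_iff_coeff_eq_zero]
  intro r hr
  rw [trunc_coeff, if_neg (by omega)]
theorem pow_coeff_eq_zero (P : ℝ[X]) (h0 : P.coeff 0 = 1) {i r : ℕ} (h : r < i) :
    ((P - 1) ^ i).coeff r = 0 := by
  have h1 : X ∣ (P - 1) := by
    rw [X_dvd_iff]; simp [h0]
  have h2 : X ^ i ∣ (P - 1) ^ i := pow_dvd_pow_of_dvd h1 i
  rw [X_pow_dvd_iff] at h2
  exact h2 r h
/-- terms with `i > r` do not contribute to the coefficient of degree `r` -/
theorem bser_coeff_eq (γ : ℝ) (P : ℝ[X]) (h0 : P.coeff 0 = 1) {k k' r : ℕ} (h1 : r ≤ k)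
    (h2 : r ≤ k') : (bser γ k P).coeff r = (bser γ k' P).coeff r := by
  have key : ∀ k : ℕ, r ≤ k → (bser γ k P).coeff r = (bser γ r P).coeff r := by
    intro k hk
    unfold bser
    rw [finsetSum_coeff, finsetSum_coeff]
    symm
    apply sum_subset (range_subset_range.2 (by omega))
    intro i _ hi
    rw [coeff_C_mul, pow_coeff_eq_zero P h0 (by simp at hi; omega), mul_zero]
  rw [key k h1, key k' h2]
theorem bser_coeff_zero (γ : ℝ) (P : ℝ[X]) (h0 : P.coeff 0 = 1) (k : ℕ) :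
    (bser γ k P).coeff 0 = 1 := by
  rw [bser_coeff_eq γ P h0 (Nat.zero_le k) (le_refl 0)]
  simp [bser]
theorem Pst_zero (w : ℕ → Bool) (d : ℕ → ℕ) : Pst w d 0 = 1 + X := by
  rw [Pst]; simp
theorem Pst_succ (w : ℕ → Bool) (d : ℕ → ℕ) {j : ℕ} (hj : 1 ≤ j) :
    Pst w d j = trunc (d j) (bser (gam w j) (d j) (Pst w d (pr w j))) := by
  rw [Pst]
  rw [dif_neg (by omega)]
theorem Pst_coeff_zero (w : ℕ → Bool) (d : ℕ → ℕ) (j : ℕ) : (Pst w d j).coeff 0 = 1 := by
  induction j using Nat.strong_induction_on with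
  | _ j ih =>
    rcases Nat.eq_zero_or_pos j with h | h
    · subst h; rw [Pst_zero]; simp
    · rw [Pst_succ w d h, trunc_coeff, if_pos (Nat.zero_le _)]
      exact bser_coeff_zero _ _ (ih _ (pr_lt w j (by omega))) _
theorem Pst_natDegree (w : ℕ → Bool) (d : ℕ → ℕ) {j : ℕ} (hj : 1 ≤ j) :
    (Pst w d j).natDegree ≤ d j := by
  rw [Pst_succ w d hj]; exact trunc_natDegree _ _

end Pool.Agent.Work.MP_215640_nt
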