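import Mathlib

/-!
Definitions for the parity word theorem for juggler sequences (problem MP_215640_nt).
-/

set_option autoImplicit false

namespace Pool.Agent.Work.MP_215640_nt

open Finset Polynomial

/-- exponent of a step: `true` is the step of odd numbers, `false` that of even numbers -/
noncomputable def ex (b : Bool) : ℝ := if b then 3 / 2 else 1 / 2

/-- the real number of level `j` along the word `w`, before the floor is taken -/
noncomputable def xx (w : ℕ → Bool) : ℕ → ℕ → ℝ
  | 0, n => (n : ℝ)
  | j + 1, n => ((⌊xx w j n⌋₊ : ℕ) : ℝ) ^ ex (w j)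

/-- `F w j n`: apply the steps `w 0, ..., w (j-1)` to `n` -/
noncomputable def F (w : ℕ → Bool) (j n : ℕ) : ℕ := ⌊xx w j n⌋₊

/-- the exponent of level `j`: product of the first `j` step exponents -/
noncomputable def cc (w : ℕ → Bool) (j : ℕ) : ℝ := ∏ i ∈ range j, ex (w i)

/-- distance to the nearest integer -/
noncomputable def dI (t : ℝ) : ℝ := |t - round t|

/-- `t` is not close to a rational number with denominator at most `B` -/
def Gen (B : ℕ) (η t : ℝ) : Prop := ∀ l : ℕ, 1 ≤ l → l ≤ B → η ≤ dI (l * t)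

/-- `exp (2 π i t)` -/
noncomputable def ee (t : ℝ) : ℂ := Complex.exp (2 * Real.pi * t * Complex.I)

open Classical in
/-- the parent level of `j`: the last level `l < j` with a smaller exponent, `0` if there is none -/
noncomputable def pr (w : ℕ → Bool) (j : ℕ) : ℕ :=
  Nat.findGreatest (fun l => cc w l < cc w j) (j - 1)

/-- ratio of the exponent of a level to that of its parent -/
noncomputable def gam (w : ℕ → Bool) (j : ℕ) : ℝ := cc w j / cc w (pr w j)

/-- truncated binomial series of the `γ`-th power of the polynomial `P` (with `P.coeff 0 = 1`) -/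
noncomputable def bser (γ : ℝ) (k : ℕ) (P : ℝ[X]) : ℝ[X] :=
  ∑ i ∈ range (k + 1), Polynomial.C (Ring.choose γ i) * (P - 1) ^ i

/-- truncation of a polynomial to degree at most `d` -/
noncomputable def trunc (d : ℕ) (P : ℝ[X]) : ℝ[X] :=
  ∑ r ∈ range (d + 1), Polynomial.monomial r (P.coeff r)

theorem pr_lt (w : ℕ → Bool) (j : ℕ) (hj : j ≠ 0) : pr w j < j := by
  have := Nat.findGreatest_le (P := fun l => cc w l < cc w j) (j - 1)
  unfold pr
  omega

/-- the limiting normalised polynomial of level `j`, truncated at the degrees `d` -/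
noncomputable def Pst (w : ℕ → Bool) (d : ℕ → ℕ) (j : ℕ) : ℝ[X] :=
  if h : j = 0 then 1 + X else trunc (d j) (bser (gam w j) (d j) (Pst w d (pr w j)))
termination_by j
decreasing_by exact pr_lt w j h

/-- the degree of level `j` along progressions with difference `N ^ (1 - om)` -/
noncomputable def dg (w : ℕ → Bool) (om : ℝ) (j : ℕ) : ℕ := ⌊cc w j / om⌋₊

/-- the difference of the progressions used at scale `N` -/
noncomputable def Tz (om : ℝ) (N : ℕ) : ℕ := ⌊(N : ℝ) ^ (1 - om)⌋₊

/-- the parameters chosen for the analysis of level `i` of the word `w` of length `K + 1` -/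
structure IsCtx (w : ℕ → Bool) (K i : ℕ) (om mu : ℝ) (M : ℕ) : Prop where
  one_le_i : 1 ≤ i
  i_le : i ≤ K
  om_pos : 0 < om
  om_lt : om < 1
  om_lt_c : ∀ j ≤ K, om < cc w j
  dg_i : dg w om i = M
  two_le_M : 2 ≤ M
  c_lt_M : cc w i < M
  fr_pos : 0 < cc w i - om * M
  fr_lt : cc w i - om * M < mu
  mu_le : mu ≤ om
  lower : ∀ j, 1 ≤ j → j ≤ K → cc w j < cc w i → dg w om j < M ∧ mu ≤ cc w j - om * dg w om j

/-- the levels with a smaller exponent than level `i` -/
noncomputable def Sm (w : ℕ → Bool) (K i : ℕ) : Finset ℕ := by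
  classical exact (Icc 1 K).filter (fun j => cc w j < cc w i)

/-- half the top coefficient of level `i` on the progression with base `a` -/
noncomputable def lam (w : ℕ → Bool) (i : ℕ) (om : ℝ) (M N a : ℕ) : ℝ :=
  1 / 2 * (Pst w (dg w om) i).coeff M * (a : ℝ) ^ (cc w i - M) * (Tz om N : ℝ) ^ M

/-- the parities of the levels in `J` are those given by `π` -/
def Pat (w : ℕ → Bool) (π : ℕ → Bool) (J : Finset ℕ) (n : ℕ) : Prop :=
  ∀ j ∈ J, (F w j n % 2 = 1 ↔ π j = true)

open Classical in
/-- indicator of: the fractional part of `x` is in `[α, β)` -/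
noncomputable def arc (α β x : ℝ) : ℝ := if Int.fract x ∈ Set.Ico α β then 1 else 0

open Classical in
/-- indicator of the pattern times centred indicator of an arc for level `i` -/
noncomputable def gf (w : ℕ → Bool) (π : ℕ → Bool) (J : Finset ℕ) (i : ℕ) (α β : ℝ) (n : ℕ) : ℝ :=
  if Pat w π J n then arc α β (xx w i n / 2) - (β - α) else 0

open Classical in
/-- indicator of: some level in `S` is within `ε` of an integer before the floor -/
noncomputable def near (w : ℕ → Bool) (S : Finset ℕ) (ε : ℝ) (n : ℕ) : ℝ :=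
  if ∃ j ∈ S, dI (xx w j n) ≤ ε then 1 else 0

/-- The level `j` is tame on the progression `a + T * (u + q * v)`, `v < V`, at scale `N`: its
parity is constant, and it is a polynomial, with normalised coefficients within `cst * N ^ (-mu)`
of their limits. -/
def Tame (w : ℕ → Bool) (d : ℕ → ℕ) (mu cst : ℝ) (N T a u q V j : ℕ) : Prop :=
  (∃ b : ℕ, ∀ v < V, F w j (a + T * (u + q * v)) % 2 = b) ∧
  ∃ P : ℝ[X], P.natDegree ≤ d j ∧
    (∀ r, |P.coeff r - (Pst w d j).coeff r| ≤ cst * (N : ℝ) ^ (-mu)) ∧
    ∀ v < V, (F w j (a + T * (u + q * v)) : ℝ) =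
      (a : ℝ) ^ cc w j * P.eval ((T : ℝ) * ((u : ℝ) + q * v) / a)

end Pool.Agent.Work.MP_215640_nt
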