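import Pool.Agent.Work.MP_215640_nt.Basic

/-!
MODULE DENSITY. From half to the natural density of all parity patterns.

`pat_density`: `H` is the statement of `half`. Claim: for `S ⊆ Icc 1 K` closed downwards
(`∀ j ∈ S, ∀ l ∈ Icc 1 K, cc w l < cc w j → l ∈ S`) the number of `n ∈ [N, 2N)` with
`Pat w π (insert 0 S) n`, divided by `N`, tends to `(1/2)^(S.card + 1)`. Induction on `S.card`. `S = ∅`:
`F w 0 n = n`, half of the integers. `S` nonempty: `i ∈ S` with maximal `cc w i`
(`exists_max_image`); `S.erase i = Sm w K i` (`cc_inj`), closed downwards. `F w i n = ⌊xx w i n⌋₊` is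
odd iff `Int.fract (xx w i n / 2) ∈ Ico (1/2) 1` (`xx_nonneg`), even iff it is in `Ico 0 (1/2)`. So
`1_{Pat (insert 0 S)} = gf w π (insert 0 (Sm w K i)) i α β + (1/2) 1_{Pat (insert 0 (Sm w K i))}` with
`(α, β) = (1/2, 1)` or `(0, 1/2)`. Finally `insert 0 (Icc 1 K) = range (K + 1)`.

`dyadic`: with `g x = #{n < x : P n}`: `|g x - θ x| ≤ |g(x/2) - θ (x/2)| + ε x + 2` for large `x`
(`x/2` rounded down), so `|g x - θ x| ≤ 3 ε x + C` for all `x` by strong induction.
-/

set_option autoImplicit false

namespace Pool.Agent.Work.MP_215640_nt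

open Finset Polynomial Filter

namespace DensityAux

theorem floor_odd_iff (t : ℝ) (ht : 0 ≤ t) : (⌊t⌋₊ % 2 = 1 ↔ 1 / 2 ≤ Int.fract (t / 2)) := by
  obtain ⟨m, hm⟩ : ∃ m : ℕ, m = ⌊t⌋₊ := ⟨_, rfl⟩
  have h1 : (m : ℝ) ≤ t := hm ▸ Nat.floor_le ht
  have h2 : t < m + 1 := hm ▸ Nat.lt_floor_add_one t
  rw [← hm]
  rcases Nat.even_or_odd' m with ⟨q, hq | hq⟩
  · have hfr : Int.fract (t / 2) = t / 2 - q := by
      rw [Int.fract_eq_iff]
      have : (m : ℝ) = 2 * q := by rw [hq]; push_cast; ring
      refine ⟨by linarith, by linarith, q, by push_cast; ring⟩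
    have : (m : ℝ) = 2 * q := by rw [hq]; push_cast; ring
    rw [hfr]
    constructor
    · intro h; omega
    · intro h; exfalso; linarith
  · have : (m : ℝ) = 2 * q + 1 := by rw [hq]; push_cast; ring
    have hfr : Int.fract (t / 2) = t / 2 - q := by
      rw [Int.fract_eq_iff]
      refine ⟨by linarith, by linarith, q, by push_cast; ring⟩
    rw [hfr]
    constructor
    · intro _; linarith
    · intro _; omega

theorem count_parity (a : ℕ) (b : Prop) [Decidable b] (m : ℕ) :
    |2 * (((Ico a (a + m)).filter (fun n => (n % 2 = 1 ↔ b))).card : ℝ) - m| ≤ 1 := by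
  induction m using Nat.twoStepInduction with
  | zero => simp
  | one =>
    have h : ((Ico a (a + 1)).filter (fun n => (n % 2 = 1 ↔ b))).card ≤ 1 := by
      refine (card_filter_le _ _).trans ?_
      simp
    rw [abs_le]
    have h1 : ((((Ico a (a + 1)).filter (fun n => (n % 2 = 1 ↔ b))).card : ℕ) : ℝ) ≤ 1 := by
      exact_mod_cast h
    have h2 : (0 : ℝ) ≤ ((((Ico a (a + 1)).filter (fun n => (n % 2 = 1 ↔ b))).card : ℕ) : ℝ) :=
      Nat.cast_nonneg _
    push_cast
    constructor <;> linarith
  | more m ih _ =>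
    have h : ((Ico a (a + (m + 2))).filter (fun n => (n % 2 = 1 ↔ b))).card =
        ((Ico a (a + m)).filter (fun n => (n % 2 = 1 ↔ b))).card + 1 := by
      have e1 : Ico a (a + (m + 2)) = insert (a + m + 1) (insert (a + m) (Ico a (a + m))) := by
        ext n; simp only [mem_Ico, mem_insert]; omega
      rw [e1, filter_insert, filter_insert]
      by_cases hb : b
      · rcases Nat.mod_two_eq_zero_or_one (a + m) with h0 | h0
        · rw [if_pos (by simp only [hb, iff_true]; omega), if_neg (by simp only [hb, iff_true]; omega),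
            card_insert_of_notMem (by simp)]
        · rw [if_neg (by simp only [hb, iff_true]; omega), if_pos (by simp only [hb, iff_true]; omega),
            card_insert_of_notMem (by simp)]
      · rcases Nat.mod_two_eq_zero_or_one (a + m) with h0 | h0
        · rw [if_neg (by simp only [hb, iff_false]; omega),
            if_pos (by simp only [hb, iff_false]; omega), card_insert_of_notMem (by simp)]
        · rw [if_pos (by simp only [hb, iff_false]; omega),
            if_neg (by simp only [hb, iff_false]; omega), card_insert_of_notMem (by simp)]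
    rw [h]
    push_cast
    rw [abs_le] at ih ⊢
    constructor <;> linarith [ih.1, ih.2]

theorem half_parity (b : Prop) [Decidable b] :
    Tendsto (fun N : ℕ => (((Ico N (2 * N)).filter (fun n => (n % 2 = 1 ↔ b))).card : ℝ) / N) atTop
      (nhds (1 / 2)) := by
  rw [Metric.tendsto_atTop]
  intro ε hε
  obtain ⟨N0, hN0⟩ := exists_nat_gt (1 / ε)
  refine ⟨N0 + 1, fun N hN => ?_⟩
  have hNpos : (0 : ℝ) < N := by
    have : 0 < N := by omega
    exact_mod_cast this
  have h1 := count_parity N b N
  rw [← two_mul N] at h1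
  have h2 : (N0 : ℝ) < N := by exact_mod_cast hN
  rw [Real.dist_eq]
  have h3 : (((Ico N (2 * N)).filter (fun n => (n % 2 = 1 ↔ b))).card : ℝ) / N - 1 / 2 =
      (2 * (((Ico N (2 * N)).filter (fun n => (n % 2 = 1 ↔ b))).card : ℝ) - N) / (2 * N) := by
    field_simp
  rw [h3, abs_div, abs_of_pos (show (0 : ℝ) < 2 * N by positivity), div_lt_iff₀ (by positivity)]
  have h4 : 1 < ε * N := by
    have := hN0.trans h2
    rw [div_lt_iff₀ hε] at this
    linarith
  linarith

end DensityAux

open Classical in
theorem pat_density (w : ℕ → Bool) (K : ℕ) (π : ℕ → Bool)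
    (H : ∀ i, 1 ≤ i → i ≤ K → ∀ (α β : ℝ), 0 ≤ α → α ≤ β → β ≤ 1 →
      Tendsto (fun N : ℕ => (∑ n ∈ Ico N (2 * N), gf w π (insert 0 (Sm w K i)) i α β n) / N) atTop
        (nhds 0)) :
    Tendsto (fun N : ℕ => (((Ico N (2 * N)).filter (fun n => Pat w π (range (K + 1)) n)).card : ℝ)
      / N) atTop (nhds ((1 / 2) ^ (K + 1))) := by
  have key : ∀ (m : ℕ) (S : Finset ℕ), S.card = m → S ⊆ Icc 1 K →
      (∀ j ∈ S, ∀ l ∈ Icc 1 K, cc w l < cc w j → l ∈ S) →
      Tendsto (fun N : ℕ => (((Ico N (2 * N)).filter (fun n => Pat w π (insert 0 S) n)).card : ℝ)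
        / N) atTop (nhds ((1 / 2) ^ (m + 1))) := by
    intro m
    induction m with
    | zero =>
      intro S hS _ _
      rw [card_eq_zero] at hS
      subst hS
      have h := DensityAux.half_parity (π 0 = true)
      rw [zero_add, pow_one]
      refine h.congr fun N => ?_
      congr 2
      refine congrArg card (filter_congr fun n _ => ?_)
      unfold Pat
      simp only [insert_empty_eq, mem_singleton, forall_eq, F_zero]
    | succ m ih =>
      intro S hS hSK hcl
      have hne : S.Nonempty := by
        rw [← card_pos, hS]; omega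
      obtain ⟨i, hiS, hi⟩ := exists_max_image S (fun j => cc w j) hne
      have hiK := mem_Icc.1 (hSK hiS)
      have hSm : S.erase i = Sm w K i := by
        ext j
        unfold Sm
        rw [mem_erase, mem_filter]
        constructor
        · rintro ⟨hji, hjS⟩
          refine ⟨hSK hjS, lt_of_le_of_ne (hi j hjS) fun h => hji (cc_inj w h)⟩
        · rintro ⟨hjK, hlt⟩
          refine ⟨?_, hcl i hiS j hjK hlt⟩
          rintro rfl
          exact lt_irrefl _ hlt
      have hcard : (Sm w K i).card = m := by
        rw [← hSm, card_erase_of_mem hiS, hS]; rfl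
      have hsub : Sm w K i ⊆ Icc 1 K := by
        rw [← hSm]; exact (erase_subset _ _).trans hSK
      have hcl' : ∀ j ∈ Sm w K i, ∀ l ∈ Icc 1 K, cc w l < cc w j → l ∈ Sm w K i := by
        intro j hj l hl hlt
        unfold Sm at hj ⊢
        rw [mem_filter] at hj ⊢
        exact ⟨hl, hlt.trans hj.2⟩
      have h1 := ih (Sm w K i) hcard hsub hcl'
      obtain ⟨α, β, hα, hαβ, hβ, hlen, harc⟩ : ∃ α β : ℝ, 0 ≤ α ∧ α ≤ β ∧ β ≤ 1 ∧ β - α = 1 / 2 ∧
          ∀ n, (Int.fract (xx w i n / 2) ∈ Set.Ico α β ↔ (F w i n % 2 = 1 ↔ π i = true)) := by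
        by_cases hp : π i = true
        · refine ⟨1 / 2, 1, by norm_num, by norm_num, by norm_num, by norm_num, fun n => ?_⟩
          rw [F, DensityAux.floor_odd_iff _ (xx_nonneg w i n), Set.mem_Ico]
          simp only [hp, iff_true]
          exact ⟨fun h => h.1, fun h => ⟨h, Int.fract_lt_one _⟩⟩
        · refine ⟨0, 1 / 2, by norm_num, by norm_num, by norm_num, by norm_num, fun n => ?_⟩
          rw [F, DensityAux.floor_odd_iff _ (xx_nonneg w i n), Set.mem_Ico]
          have e : (1 / 2 ≤ Int.fract (xx w i n / 2) ↔ π i = true) ↔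
              Int.fract (xx w i n / 2) < 1 / 2 := by
            rw [← not_le]
            tauto
          rw [e]
          exact ⟨fun h => h.2, fun h => ⟨Int.fract_nonneg _, h⟩⟩
      have h2 := H i hiK.1 hiK.2 α β hα hαβ hβ
      have h3 := h2.add (h1.const_mul (1 / 2))
      have e : (0 : ℝ) + 1 / 2 * (1 / 2) ^ (m + 1) = (1 / 2) ^ (m + 1 + 1) := by
        rw [zero_add, pow_succ _ (m + 1)]; ring
      rw [e] at h3
      refine h3.congr fun N => ?_
      have hind : ∀ n, (if Pat w π (insert 0 S) n then (1 : ℝ) else 0) =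
          gf w π (insert 0 (Sm w K i)) i α β n +
            1 / 2 * (if Pat w π (insert 0 (Sm w K i)) n then (1 : ℝ) else 0) := by
        intro n
        have hP : Pat w π (insert 0 S) n ↔
            Pat w π (insert 0 (Sm w K i)) n ∧ (F w i n % 2 = 1 ↔ π i = true) := by
          rw [← hSm]
          unfold Pat
          constructor
          · intro h
            refine ⟨fun j hj => h j ?_, h i (mem_insert_of_mem hiS)⟩
            rcases mem_insert.1 hj with hj | hj
            · rw [hj]; exact mem_insert_self _ _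
            · exact mem_insert_of_mem (mem_of_mem_erase hj)
          · rintro ⟨h, h'⟩ j hj
            by_cases hji : j = i
            · rw [hji]; exact h'
            · refine h j ?_
              rcases mem_insert.1 hj with hj | hj
              · rw [hj]; exact mem_insert_self _ _
              · exact mem_insert_of_mem (mem_erase.2 ⟨hji, hj⟩)
        unfold gf arc
        by_cases hQ : Pat w π (insert 0 (Sm w K i)) n
        · rw [if_pos hQ, if_pos hQ, hlen]
          by_cases hF : (F w i n % 2 = 1 ↔ π i = true)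
          · rw [if_pos (hP.2 ⟨hQ, hF⟩), if_pos ((harc n).2 hF)]; ring
          · rw [if_neg (fun h => hF (hP.1 h).2), if_neg (fun h => hF ((harc n).1 h))]; ring
        · rw [if_neg hQ, if_neg hQ, if_neg (fun h => hQ (hP.1 h).1)]; ring
      have hsum : (((Ico N (2 * N)).filter (fun n => Pat w π (insert 0 S) n)).card : ℝ) =
          ∑ n ∈ Ico N (2 * N), gf w π (insert 0 (Sm w K i)) i α β n +
            1 / 2 * (((Ico N (2 * N)).filter
              (fun n => Pat w π (insert 0 (Sm w K i)) n)).card : ℝ) := by
        rw [← sum_boole, ← sum_boole, mul_sum, ← sum_add_distrib]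
        exact sum_congr rfl fun n _ => hind n
      rw [hsum]
      ring
  have h := key K (Icc 1 K) (by simp) (subset_refl _) (fun j _ l hl _ => hl)
  have e : insert 0 (Icc 1 K) = range (K + 1) := by
    ext n; simp only [mem_insert, mem_Icc, mem_range]; omega
  rw [e] at h
  exact h

open Classical in
theorem dyadic (P : ℕ → Prop) (θ : ℝ)
    (H : Tendsto (fun N : ℕ => (((Ico N (2 * N)).filter (fun n => P n)).card : ℝ) / N) atTop
      (nhds θ)) :
    Tendsto (fun x : ℕ => (((range x).filter (fun n => P n)).card : ℝ) / x) atTop (nhds θ) := by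
  obtain ⟨g, hg⟩ : ∃ g : ℕ → ℝ, g = fun x => (((range x).filter (fun n => P n)).card : ℝ) :=
    ⟨_, rfl⟩
  obtain ⟨D, hD⟩ : ∃ D : ℕ → ℝ, D = fun N => (((Ico N (2 * N)).filter (fun n => P n)).card : ℝ) :=
    ⟨_, rfl⟩
  have hg0 : ∀ x, 0 ≤ g x := fun x => by rw [hg]; exact Nat.cast_nonneg _
  have hg1 : ∀ x : ℕ, g x ≤ x := fun x => by
    rw [hg]
    have : ((range x).filter (fun n => P n)).card ≤ x := by
      refine (card_filter_le _ _).trans ?_
      simp
    simp only
    exact_mod_cast this
  -- the recursion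
  have hrec : ∀ x : ℕ, g (x / 2) + D (x / 2) ≤ g x ∧ g x ≤ g (x / 2) + D (x / 2) + 1 := by
    intro x
    have e1 : ((range (2 * (x / 2))).filter (fun n => P n)).card =
        ((range (x / 2)).filter (fun n => P n)).card +
        ((Ico (x / 2) (2 * (x / 2))).filter (fun n => P n)).card := by
      rw [← card_union_of_disjoint, ← filter_union]
      · congr 2
        ext n; simp only [mem_range, mem_union, mem_Ico]; omega
      · refine disjoint_filter_filter ?_
        rw [disjoint_left]
        intro n hn hn'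
        rw [mem_range] at hn
        rw [mem_Ico] at hn'
        omega
    have e2 : ((range (2 * (x / 2))).filter (fun n => P n)).card ≤
        ((range x).filter (fun n => P n)).card :=
      card_le_card (filter_subset_filter _ (range_subset_range.2 (by omega)))
    have e3 : ((range x).filter (fun n => P n)).card ≤
        ((range (2 * (x / 2))).filter (fun n => P n)).card + 1 := by
      have : (range x).filter (fun n => P n) ⊆
          insert (2 * (x / 2)) ((range (2 * (x / 2))).filter (fun n => P n)) := by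
        intro n hn
        rw [mem_filter, mem_range] at hn
        rw [mem_insert, mem_filter, mem_range]
        by_cases h : n = 2 * (x / 2)
        · exact Or.inl h
        · exact Or.inr ⟨by omega, hn.2⟩
      exact (card_le_card this).trans (card_insert_le _ _)
    rw [hg, hD]
    constructor
    · have : ((range (x / 2)).filter (fun n => P n)).card +
        ((Ico (x / 2) (2 * (x / 2))).filter (fun n => P n)).card ≤
          ((range x).filter (fun n => P n)).card := by omega
      simp only
      exact_mod_cast this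
    · have : ((range x).filter (fun n => P n)).card ≤ ((range (x / 2)).filter (fun n => P n)).card +
        ((Ico (x / 2) (2 * (x / 2))).filter (fun n => P n)).card + 1 := by omega
      simp only
      exact_mod_cast this
  have hmain : ∀ ε : ℝ, 0 < ε → ∃ C : ℝ, ∀ x : ℕ, |g x - θ * x| ≤ ε * x + C := by
    intro ε hε
    rw [Metric.tendsto_atTop] at H
    obtain ⟨N0, hN0⟩ := H (ε / 2) (by positivity)
    obtain ⟨N1, hN1⟩ := exists_nat_gt ((1 + |θ|) / (ε / 4))
    refine ⟨(1 + |θ|) * (2 * (N0 + 1) + N1), fun x => ?_⟩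
    induction x using Nat.strong_induction_on with
    | _ x ih =>
      by_cases hx : x < 2 * (N0 + 1) + N1
      · have h1 : |g x - θ * x| ≤ (1 + |θ|) * x := by
          have h2 : |g x - θ * x| ≤ |g x| + |θ * x| := abs_sub _ _
          rw [abs_of_nonneg (hg0 x), abs_mul, abs_of_nonneg (Nat.cast_nonneg x : (0 : ℝ) ≤ x)] at h2
          have := hg1 x
          linarith
        have h3 : (x : ℝ) ≤ 2 * (N0 + 1) + N1 := by exact_mod_cast hx.le
        have h4 : (1 + |θ|) * (x : ℝ) ≤ (1 + |θ|) * (2 * (N0 + 1) + N1) :=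
          mul_le_mul_of_nonneg_left h3 (by positivity)
        have h5 : 0 ≤ ε * x := by positivity
        linarith
      · push Not at hx
        have hy : x / 2 < x := Nat.div_lt_self (by omega) (by norm_num)
        have h1 := ih (x / 2) hy
        have hyN : N0 ≤ x / 2 := by omega
        have hypos : (0 : ℝ) < ((x / 2 : ℕ) : ℝ) := by
          have : 0 < x / 2 := by omega
          exact_mod_cast this
        have h2 := hN0 (x / 2) hyN
        rw [Real.dist_eq] at h2
        have h3 : |D (x / 2) - θ * ((x / 2 : ℕ) : ℝ)| ≤ ε / 2 * ((x / 2 : ℕ) : ℝ) := by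
          have e : D (x / 2) - θ * ((x / 2 : ℕ) : ℝ) =
              (D (x / 2) / ((x / 2 : ℕ) : ℝ) - θ) * ((x / 2 : ℕ) : ℝ) := by
            field_simp
          rw [e, abs_mul, abs_of_pos hypos]
          refine mul_le_mul_of_nonneg_right ?_ hypos.le
          rw [hD]
          exact h2.le
        obtain ⟨r1, r2⟩ := hrec x
        have hx2 : (x : ℝ) = 2 * ((x / 2 : ℕ) : ℝ) + ((x % 2 : ℕ) : ℝ) := by
          have := Nat.div_add_mod x 2
          exact_mod_cast this.symm
        have hm : ((x % 2 : ℕ) : ℝ) ≤ 1 := by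
          have := Nat.mod_lt x (show 0 < 2 by norm_num)
          have h : x % 2 ≤ 1 := by omega
          exact_mod_cast h
        have hm0 : (0 : ℝ) ≤ ((x % 2 : ℕ) : ℝ) := Nat.cast_nonneg _
        have hxN1 : (N1 : ℝ) ≤ x := by
          have : N1 ≤ x := by omega
          exact_mod_cast this
        have hbig : 1 + |θ| ≤ ε / 4 * x := by
          have := hN1.le.trans hxN1
          rw [div_le_iff₀ (by positivity)] at this
          linarith
        have hθm : |θ * ((x % 2 : ℕ) : ℝ)| ≤ |θ| := by
          rw [abs_mul, abs_of_nonneg hm0]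
          exact mul_le_of_le_one_right (abs_nonneg _) hm
        rw [abs_le] at h1 h3 hθm ⊢
        have e5 : θ * (x : ℝ) = θ * ((x / 2 : ℕ) : ℝ) + θ * ((x / 2 : ℕ) : ℝ) +
            θ * ((x % 2 : ℕ) : ℝ) := by
          rw [hx2]; ring
        have e6 : ε * (x : ℝ) = ε * ((x / 2 : ℕ) : ℝ) + ε * ((x / 2 : ℕ) : ℝ) +
            ε * ((x % 2 : ℕ) : ℝ) := by
          rw [hx2]; ring
        have e7 : 0 ≤ ε * ((x % 2 : ℕ) : ℝ) := by positivity
        have hbig' : 1 + |θ| ≤ (ε * ((x / 2 : ℕ) : ℝ) + ε * ((x / 2 : ℕ) : ℝ) +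
            ε * ((x % 2 : ℕ) : ℝ)) / 4 := by
          rw [← e6]; linarith
        have hmε : ε * ((x % 2 : ℕ) : ℝ) ≤ ε * ((x / 2 : ℕ) : ℝ) := by
          refine mul_le_mul_of_nonneg_left ?_ hε.le
          refine hm.trans ?_
          have : 1 ≤ x / 2 := by omega
          exact_mod_cast this
        constructor
        · rw [e5, e6]
          linarith [h1.1, h3.1, hθm.1, hθm.2, r1]
        · rw [e5, e6]
          linarith [h1.2, h3.2, hθm.1, hθm.2, r2]
  rw [Metric.tendsto_atTop]
  intro ε hε
  obtain ⟨C, hC⟩ := hmain (ε / 2) (by positivity)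
  obtain ⟨N0, hN0⟩ := exists_nat_gt (C / (ε / 2))
  refine ⟨N0 + 1, fun x hx => ?_⟩
  have hxpos : (0 : ℝ) < x := by
    have : 0 < x := by omega
    exact_mod_cast this
  have h1 := hC x
  rw [Real.dist_eq]
  have h2 : (((range x).filter (fun n => P n)).card : ℝ) / x - θ = (g x - θ * x) / x := by
    rw [hg]; field_simp
  rw [h2, abs_div, abs_of_pos hxpos, div_lt_iff₀ hxpos]
  have h3 : (N0 : ℝ) < x := by exact_mod_cast hx
  have h4 : C < ε / 2 * x := by
    have := hN0.trans h3
    rw [div_lt_iff₀ (by positivity)] at this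
    linarith
  linarith

end Pool.Agent.Work.MP_215640_nt
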