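import Pool.Agent.Work.MP_215640_nt.Weyl

/-!
MODULE EQUI. Equidistribution of a polynomial with generic top coefficient in a fixed arc, stable
under small perturbations.
-/

set_option autoImplicit false

namespace Pool.Agent.Work.MP_215640_nt

open Finset Polynomial MeasureTheory

/-- Uniform equidistribution tested against a continuous function on the circle. -/
def EquiFor (M : ℕ) (p : C(AddCircle (1 : ℝ), ℂ)) : Prop :=
  ∀ ε : ℝ, 0 < ε → ∃ ε1 : ℝ, 0 < ε1 ∧ ∃ B : ℕ, 1 ≤ B ∧ ∀ η : ℝ, 0 < η →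
    ∃ V0 : ℕ, ∀ V ≥ V0, ∀ P : ℝ[X], P.natDegree ≤ M → Gen B η (P.coeff M) →
      ∀ y : ℕ → ℝ, (∀ v < V, |y v - P.eval (v : ℝ)| ≤ ε1) →
        ‖∑ v ∈ range V, p (y v : AddCircle (1 : ℝ)) - V * ∫ x, p x‖ ≤ ε * V

theorem equi_integrable (p : C(AddCircle (1 : ℝ), ℂ)) : Integrable (fun x => p x) :=
  p.continuous.integrable_of_hasCompactSupport (HasCompactSupport.of_compactSpace _)

theorem equi_norm_integral_le (p : C(AddCircle (1 : ℝ), ℂ)) : ‖∫ x, p x‖ ≤ ‖p‖ := by
  have h := norm_integral_le_of_norm_le_const (μ := (volume : Measure (AddCircle (1 : ℝ))))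
    (f := fun x => p x) (C := ‖p‖) (Filter.Eventually.of_forall fun x => p.norm_coe_le_norm x)
  simpa [measureReal_def] using h

theorem equiFor_add {M : ℕ} {p q : C(AddCircle (1 : ℝ), ℂ)} (hp : EquiFor M p)
    (hq : EquiFor M q) : EquiFor M (p + q) := by
  intro ε hε
  obtain ⟨a1, ha1, B1, hB1, h1⟩ := hp (ε / 2) (by positivity)
  obtain ⟨a2, ha2, B2, hB2, h2⟩ := hq (ε / 2) (by positivity)
  refine ⟨min a1 a2, lt_min ha1 ha2, max B1 B2, le_max_of_le_left hB1, fun η hη => ?_⟩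
  obtain ⟨V1, hV1⟩ := h1 η hη
  obtain ⟨V2, hV2⟩ := h2 η hη
  refine ⟨max V1 V2, fun V hV P hP hG y hy => ?_⟩
  have e1 := hV1 V (le_trans (le_max_left _ _) hV) P hP (hG.mono (le_max_left _ _) le_rfl) y
    (fun v hv => (hy v hv).trans (min_le_left _ _))
  have e2 := hV2 V (le_trans (le_max_right _ _) hV) P hP (hG.mono (le_max_right _ _) le_rfl) y
    (fun v hv => (hy v hv).trans (min_le_right _ _))
  have h3 : ∑ v ∈ range V, (p + q) (y v : AddCircle (1 : ℝ)) - V * ∫ x, (p + q) x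
      = (∑ v ∈ range V, p (y v : AddCircle (1 : ℝ)) - V * ∫ x, p x)
        + (∑ v ∈ range V, q (y v : AddCircle (1 : ℝ)) - V * ∫ x, q x) := by
    simp only [ContinuousMap.add_apply, Finset.sum_add_distrib]
    rw [integral_add (equi_integrable p) (equi_integrable q)]
    ring
  rw [h3]
  refine (norm_add_le _ _).trans ?_
  linarith

theorem equiFor_smul {M : ℕ} {p : C(AddCircle (1 : ℝ), ℂ)} (hp : EquiFor M p) (c : ℂ) :
    EquiFor M (c • p) := by
  intro ε hε
  obtain ⟨a1, ha1, B1, hB1, h1⟩ := hp (ε / (‖c‖ + 1)) (by positivity)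
  refine ⟨a1, ha1, B1, hB1, fun η hη => ?_⟩
  obtain ⟨V1, hV1⟩ := h1 η hη
  refine ⟨V1, fun V hV P hP hG y hy => ?_⟩
  have e1 := hV1 V hV P hP hG y hy
  have h3 : ∑ v ∈ range V, (c • p) (y v : AddCircle (1 : ℝ)) - V * ∫ x, (c • p) x
      = c * (∑ v ∈ range V, p (y v : AddCircle (1 : ℝ)) - V * ∫ x, p x) := by
    simp only [ContinuousMap.smul_apply, smul_eq_mul]
    rw [integral_const_mul, ← Finset.mul_sum]
    ring
  rw [h3, norm_mul]
  calc ‖c‖ * ‖∑ v ∈ range V, p (y v : AddCircle (1 : ℝ)) - V * ∫ x, p x‖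
      ≤ ‖c‖ * (ε / (‖c‖ + 1) * V) := mul_le_mul_of_nonneg_left e1 (norm_nonneg _)
    _ ≤ (‖c‖ + 1) * (ε / (‖c‖ + 1) * V) := by gcongr; linarith
    _ = ε * V := by field_simp

theorem equiFor_fourier {M : ℕ} (hM : 1 ≤ M) (h : ℤ) :
    EquiFor M (fourier h : C(AddCircle (1 : ℝ), ℂ)) := by
  have hval : ∀ t : ℝ, (fourier h : C(AddCircle (1 : ℝ), ℂ)) (t : AddCircle (1 : ℝ))
      = ee (h * t) := by
    intro t
    rw [fourier_coe_apply]
    unfold ee
    congr 1
    push_cast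
    ring
  intro ε hε
  by_cases hh : h = 0
  · subst hh
    refine ⟨1, one_pos, 1, le_rfl, fun η _ => ⟨0, fun V _ P _ _ y _ => ?_⟩⟩
    have h1 : ∫ x, (fourier (0 : ℤ) : C(AddCircle (1 : ℝ), ℂ)) x = 1 := by
      simp only [fourier_zero, integral_const]
      simp [measureReal_def]
    rw [h1]
    simp only [fourier_zero, sum_const, card_range, nsmul_eq_mul, mul_one, sub_self, norm_zero]
    positivity
  · have hint : ∫ x, (fourier h : C(AddCircle (1 : ℝ), ℂ)) x = 0 :=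
      integral_eq_zero_of_add_right_eq_neg (μ := (volume : Measure (AddCircle (1 : ℝ))))
        (fourier_add_half_inv_index hh one_pos)
    have hn : 1 ≤ h.natAbs := Int.natAbs_pos.2 hh
    have habs : |(h : ℝ)| = (h.natAbs : ℝ) := by
      rw [Nat.cast_natAbs, Int.cast_abs]
    have hpos : 0 < |(h : ℝ)| := by rw [habs]; exact_mod_cast hn
    obtain ⟨B, hB1, hB⟩ := weyl M hM (ε / 2) (by positivity)
    refine ⟨ε / (4 * Real.pi * |(h : ℝ)|), by have := Real.pi_pos; positivity,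
      B * h.natAbs, Nat.one_le_iff_ne_zero.2 (by positivity), fun η hη => ?_⟩
    obtain ⟨V0, hV0⟩ := hB η hη
    refine ⟨V0, fun V hV P hP hG y hy => ?_⟩
    rw [hint, mul_zero, sub_zero]
    simp only [hval]
    have hGen : Gen B η ((C (h : ℝ) * P).coeff M) := by
      rw [coeff_C_mul]
      have h2 := hG.nat_mul hn
      rcases abs_choice (h : ℝ) with h3 | h3
      · have h4 : (h : ℝ) = (h.natAbs : ℝ) := by rw [← habs, h3]
        rw [h4]; exact h2
      · have h4 : (h : ℝ) = -(h.natAbs : ℝ) := by rw [← habs, h3, neg_neg]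
        rw [h4]
        intro l hl1 hl2
        have h5 := h2 l hl1 hl2
        rw [neg_mul, mul_neg, dI_neg]
        exact h5
    have hW := hV0 V hV (C (h : ℝ) * P) ((natDegree_C_mul_le _ _).trans hP) hGen
    have hdiff : ‖∑ v ∈ range V, ee (h * y v) - ∑ v ∈ range V, ee ((C (h : ℝ) * P).eval (v : ℝ))‖
        ≤ ∑ v ∈ range V, ε / 2 := by
      rw [← Finset.sum_sub_distrib]
      refine norm_sum_le_of_le _ fun v hv => ?_
      refine (norm_ee_sub_le _ _).trans ?_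
      rw [eval_mul, eval_C, ← mul_sub, abs_mul]
      have h6 := hy v (mem_range.1 hv)
      have h7 : |(h : ℝ)| * |y v - P.eval (v : ℝ)|
          ≤ |(h : ℝ)| * (ε / (4 * Real.pi * |(h : ℝ)|)) := mul_le_mul_of_nonneg_left h6 hpos.le
      calc 2 * Real.pi * (|(h : ℝ)| * |y v - P.eval (v : ℝ)|)
          ≤ 2 * Real.pi * (|(h : ℝ)| * (ε / (4 * Real.pi * |(h : ℝ)|))) :=
            mul_le_mul_of_nonneg_left h7 (by have := Real.pi_pos; positivity)
        _ = ε / 2 := by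
            have := Real.pi_pos
            field_simp
            ring
    rw [sum_const, card_range, nsmul_eq_mul] at hdiff
    have h8 := norm_add_le
      (∑ v ∈ range V, ee (h * y v) - ∑ v ∈ range V, ee ((C (h : ℝ) * P).eval (v : ℝ)))
      (∑ v ∈ range V, ee ((C (h : ℝ) * P).eval (v : ℝ)))
    rw [sub_add_cancel] at h8
    linarith

theorem equiFor_all {M : ℕ} (hM : 1 ≤ M) (f : C(AddCircle (1 : ℝ), ℂ)) : EquiFor M f := by
  have hspan : ∀ p ∈ Submodule.span ℂ (Set.range (@fourier (1 : ℝ))), EquiFor M p := by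
    intro p hp
    induction hp using Submodule.span_induction with
    | mem x hx =>
      obtain ⟨n, rfl⟩ := hx
      exact equiFor_fourier hM n
    | zero =>
      have h0 := equiFor_smul (equiFor_fourier hM 0) (0 : ℂ)
      convert! h0 using 1
      ext x
      simp
    | add x y _ _ hx hy => exact equiFor_add hx hy
    | smul a x _ hx => exact equiFor_smul hx a
  intro ε hε
  have hf : f ∈ (Submodule.span ℂ (Set.range (@fourier (1 : ℝ)))).topologicalClosure := by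
    rw [span_fourier_closure_eq_top]; trivial
  have hf2 := Metric.mem_closure_iff.1 hf (ε / 4) (by positivity)
  obtain ⟨p, hp, hfp⟩ := hf2
  rw [dist_eq_norm] at hfp
  obtain ⟨a1, ha1, B1, hB1, h1⟩ := hspan p hp (ε / 2) (by positivity)
  refine ⟨a1, ha1, B1, hB1, fun η hη => ?_⟩
  obtain ⟨V1, hV1⟩ := h1 η hη
  refine ⟨V1, fun V hV P hP hG y hy => ?_⟩
  have e1 := hV1 V hV P hP hG y hy
  have e2 : ‖∑ v ∈ range V, (f - p) (y v : AddCircle (1 : ℝ))‖ ≤ ∑ v ∈ range V, ε / 4 := by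
    refine norm_sum_le_of_le _ fun v _ => ?_
    exact ((f - p).norm_coe_le_norm _).trans hfp.le
  rw [sum_const, card_range, nsmul_eq_mul] at e2
  have e3 : ‖(V : ℂ) * ∫ x, (f - p) x‖ ≤ V * (ε / 4) := by
    rw [norm_mul, Complex.norm_natCast]
    exact mul_le_mul_of_nonneg_left ((equi_norm_integral_le _).trans hfp.le) (Nat.cast_nonneg V)
  have h3 : ∑ v ∈ range V, f (y v : AddCircle (1 : ℝ)) - V * ∫ x, f x
      = (∑ v ∈ range V, p (y v : AddCircle (1 : ℝ)) - V * ∫ x, p x)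
        + (∑ v ∈ range V, (f - p) (y v : AddCircle (1 : ℝ)) - V * ∫ x, (f - p) x) := by
    simp only [ContinuousMap.sub_apply, Finset.sum_sub_distrib]
    rw [integral_sub (equi_integrable f) (equi_integrable p)]
    ring
  rw [h3]
  refine (norm_add_le _ _).trans ?_
  have h4 := norm_sub_le (∑ v ∈ range V, (f - p) (y v : AddCircle (1 : ℝ)))
    ((V : ℂ) * ∫ x, (f - p) x)
  linarith

theorem equi_volume_image (α β : ℝ) (h0 : 0 ≤ α) (h2 : β ≤ 1) :
    volume ((fun t : ℝ => (t : AddCircle (1 : ℝ))) '' Set.Icc α β) ≤ ENNReal.ofReal (β - α) := by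
  have hc : IsCompact ((fun t : ℝ => (t : AddCircle (1 : ℝ))) '' Set.Icc α β) :=
    isCompact_Icc.image (AddCircle.continuous_mk' 1)
  rw [AddCircle.add_projection_respects_measure 1 0 hc.isClosed.measurableSet]
  have hsub : (QuotientAddGroup.mk ⁻¹' ((fun t : ℝ => (t : AddCircle (1 : ℝ))) '' Set.Icc α β)
      ∩ Set.Ioc (0 : ℝ) (0 + 1)) ⊆ Set.Icc α β ∪ {1} := by
    rintro t ⟨⟨s, hs, hst⟩, ht⟩
    have h3 : ((t : ℝ) : AddCircle (1 : ℝ)) = (s : AddCircle (1 : ℝ)) := hst.symm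
    rw [← sub_eq_zero, ← AddCircle.coe_sub, AddCircle.coe_eq_zero_iff] at h3
    obtain ⟨n, hn⟩ := h3
    rw [zsmul_eq_mul, mul_one] at hn
    obtain ⟨ht1, ht2⟩ := ht
    rw [zero_add] at ht2
    have hs1 : 0 ≤ s := h0.trans hs.1
    have hs2 : s ≤ 1 := hs.2.trans h2
    have hn1 : (-1 : ℝ) < n := by rw [hn]; linarith
    have hn2 : (n : ℝ) ≤ 1 := by rw [hn]; linarith
    have hn1' : -1 < n := by exact_mod_cast hn1
    have hn2' : n ≤ 1 := by exact_mod_cast hn2
    have hn3 : n = 0 ∨ n = 1 := by omega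
    rcases hn3 with rfl | rfl
    · left
      rw [Int.cast_zero] at hn
      have : t = s := by linarith
      rw [this]; exact hs
    · right
      rw [Int.cast_one] at hn
      rw [Set.mem_singleton_iff]
      linarith
  refine (measure_mono hsub).trans ((measure_union_le _ _).trans ?_)
  simp

theorem equi_upper (M : ℕ) (hM : 1 ≤ M) (α β : ℝ) (h0 : 0 ≤ α) (h1 : α ≤ β) (h2 : β ≤ 1) :
    ∀ ε : ℝ, 0 < ε → ∃ ε1 : ℝ, 0 < ε1 ∧ ∃ B : ℕ, 1 ≤ B ∧ ∀ η : ℝ, 0 < η →
      ∃ V0 : ℕ, ∀ V ≥ V0, ∀ P : ℝ[X], P.natDegree ≤ M → Gen B η (P.coeff M) →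
        ∀ y : ℕ → ℝ, (∀ v < V, |y v - P.eval (v : ℝ)| ≤ ε1) →
          ∑ v ∈ range V, arc α β (y v) ≤ (β - α) * V + ε * V := by
  intro ε hε
  have hc : IsCompact ((fun t : ℝ => (t : AddCircle (1 : ℝ))) '' Set.Icc α β) :=
    isCompact_Icc.image (AddCircle.continuous_mk' 1)
  have hcl := hc.isClosed
  set S := ((fun t : ℝ => (t : AddCircle (1 : ℝ))) '' Set.Icc α β) with hS
  have ht := HasOuterApproxClosed.tendsto_lintegral_apprSeq hcl
    (volume : Measure (AddCircle (1 : ℝ)))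
  have hlt : volume S < ENNReal.ofReal (β - α + ε / 2) := by
    refine lt_of_le_of_lt (equi_volume_image α β h0 h2) ?_
    rw [ENNReal.ofReal_lt_ofReal_iff (by linarith)]
    linarith
  obtain ⟨n, hn⟩ := (ht.eventually (gt_mem_nhds hlt)).exists
  set f : ContinuousMap (AddCircle (1 : ℝ)) ℂ :=
    ⟨fun x => (((hcl.apprSeq n x : NNReal) : ℝ) : ℂ), by fun_prop⟩ with hf
  have hfi : Integrable (fun x => ((hcl.apprSeq n x : NNReal) : ℝ))
      (volume : Measure (AddCircle (1 : ℝ))) := by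
    refine Continuous.integrable_of_hasCompactSupport (by fun_prop)
      (HasCompactSupport.of_compactSpace _)
  have hI : ∫ x, ((hcl.apprSeq n x : NNReal) : ℝ) ∂(volume : Measure (AddCircle (1 : ℝ)))
      ≤ β - α + ε / 2 := by
    rw [lintegral_coe_eq_integral _ hfi] at hn
    exact ((ENNReal.ofReal_lt_ofReal_iff (by linarith)).1 hn).le
  obtain ⟨a1, ha1, B1, hB1, h3⟩ := equiFor_all hM f (ε / 2) (by positivity)
  refine ⟨a1, ha1, B1, hB1, fun η hη => ?_⟩
  obtain ⟨V1, hV1⟩ := h3 η hη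
  refine ⟨V1, fun V hV P hP hG y hy => ?_⟩
  have e1 := hV1 V hV P hP hG y hy
  have e2 : ∑ v ∈ range V, f (y v : AddCircle (1 : ℝ)) - V * ∫ x, f x
      = ((∑ v ∈ range V, ((hcl.apprSeq n (y v : AddCircle (1 : ℝ)) : NNReal) : ℝ)
        - V * ∫ x, ((hcl.apprSeq n x : NNReal) : ℝ) : ℝ) : ℂ) := by
    push_cast
    rw [← integral_complex_ofReal]
    rfl
  rw [e2, Complex.norm_real, Real.norm_eq_abs] at e1
  have e3 := (abs_le.1 e1).2
  have e4 : ∑ v ∈ range V, arc α β (y v)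
      ≤ ∑ v ∈ range V, ((hcl.apprSeq n (y v : AddCircle (1 : ℝ)) : NNReal) : ℝ) := by
    refine Finset.sum_le_sum fun v _ => ?_
    unfold arc
    split_ifs with hv
    · have h5 : ((y v : ℝ) : AddCircle (1 : ℝ)) ∈ S := by
        refine ⟨Int.fract (y v), ⟨hv.1, hv.2.le⟩, ?_⟩
        show ((Int.fract (y v) : ℝ) : AddCircle (1 : ℝ)) = _
        rw [eq_comm, ← sub_eq_zero, ← AddCircle.coe_sub, AddCircle.coe_eq_zero_iff]
        exact ⟨⌊y v⌋, by simp⟩
      rw [HasOuterApproxClosed.apprSeq_apply_eq_one hcl n h5]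
      simp
    · exact NNReal.coe_nonneg _
  have hV0 : (0 : ℝ) ≤ V := Nat.cast_nonneg V
  nlinarith

theorem equi (M : ℕ) (hM : 1 ≤ M) (α β : ℝ) (h0 : 0 ≤ α) (h1 : α ≤ β) (h2 : β ≤ 1) :
    ∀ ε : ℝ, 0 < ε → ∃ ε1 : ℝ, 0 < ε1 ∧ ∃ B : ℕ, 1 ≤ B ∧ ∀ η : ℝ, 0 < η →
      ∃ V0 : ℕ, ∀ V ≥ V0, ∀ P : ℝ[X], P.natDegree ≤ M → Gen B η (P.coeff M) →
        ∀ y : ℕ → ℝ, (∀ v < V, |y v - P.eval (v : ℝ)| ≤ ε1) →
          |∑ v ∈ range V, arc α β (y v) - (β - α) * V| ≤ ε * V := by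
  intro ε hε
  obtain ⟨a1, ha1, B1, hB1, u1⟩ := equi_upper M hM α β h0 h1 h2 (ε / 2) (by positivity)
  obtain ⟨a2, ha2, B2, hB2, u2⟩ := equi_upper M hM 0 α le_rfl h0 (h1.trans h2) (ε / 2)
    (by positivity)
  obtain ⟨a3, ha3, B3, hB3, u3⟩ := equi_upper M hM β 1 (h0.trans h1) h2 le_rfl (ε / 2)
    (by positivity)
  refine ⟨min a1 (min a2 a3), lt_min ha1 (lt_min ha2 ha3), max B1 (max B2 B3),
    le_max_of_le_left hB1, fun η hη => ?_⟩
  obtain ⟨V1, w1⟩ := u1 η hη
  obtain ⟨V2, w2⟩ := u2 η hη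
  obtain ⟨V3, w3⟩ := u3 η hη
  refine ⟨max V1 (max V2 V3), fun V hV P hP hG y hy => ?_⟩
  have hV0 : (0 : ℝ) ≤ V := Nat.cast_nonneg V
  have e1 := w1 V (le_trans (le_max_left _ _) hV) P hP (hG.mono (le_max_left _ _) le_rfl) y
    (fun v hv => (hy v hv).trans (min_le_left _ _))
  have e2 := w2 V (le_trans (le_trans (le_max_left _ _) (le_max_right _ _)) hV) P hP
    (hG.mono (le_trans (le_max_left _ _) (le_max_right _ _)) le_rfl) y
    (fun v hv => (hy v hv).trans ((min_le_right _ _).trans (min_le_left _ _)))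
  have e3 := w3 V (le_trans (le_trans (le_max_right _ _) (le_max_right _ _)) hV) P hP
    (hG.mono (le_trans (le_max_right _ _) (le_max_right _ _)) le_rfl) y
    (fun v hv => (hy v hv).trans ((min_le_right _ _).trans (min_le_right _ _)))
  have hpart : ∀ t : ℝ, arc 0 α t + arc α β t + arc β 1 t = 1 := by
    intro t
    have ht0 := Int.fract_nonneg t
    have ht1 := Int.fract_lt_one t
    unfold arc
    simp only [Set.mem_Ico]
    by_cases c1 : Int.fract t < α
    · rw [if_pos ⟨ht0, c1⟩, if_neg (by intro h; linarith [h.1]), if_neg (by intro h; linarith [h.1])]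
      norm_num
    · by_cases c2 : Int.fract t < β
      · rw [if_neg (by intro h; exact c1 h.2), if_pos ⟨not_lt.1 c1, c2⟩,
          if_neg (by intro h; linarith [h.1])]
        norm_num
      · rw [if_neg (by intro h; exact c1 h.2), if_neg (by intro h; exact c2 h.2),
          if_pos ⟨not_lt.1 c2, ht1⟩]
        norm_num
  have hsum : ∑ v ∈ range V, arc 0 α (y v) + ∑ v ∈ range V, arc α β (y v)
      + ∑ v ∈ range V, arc β 1 (y v) = V := by
    rw [← Finset.sum_add_distrib, ← Finset.sum_add_distrib]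
    simp [hpart]
  rw [abs_le]
  constructor
  · nlinarith
  · nlinarith

end Pool.Agent.Work.MP_215640_nt
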