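import Pool.Agent.Work.MP_215640_nt.Density
import Pool.Agent.Work.MP_215640_nt.Absorb
import Pool.Prelude.Def_F_fb9dd98d

/-!
MODULE WALK. From the parity word theorem to almost all orbits.

`J_iter`: induction on `j`. `word`: the word of `n` of length `k + 1`.
`count_words`: `∑_w (cc w k)^(1/2) = (sqrt(3/2) + sqrt(1/2))^k` over the words of length `k`
(product over coordinates, `Finset.prod_univ_sum` / `Fintype.piFinset`), `(3/2)^(1/2) + (1/2)^(1/2) ≤
1.94`, and Markov: the number of words with `cc ≥ ε` is at most `ε^(-1/2)` times the sum.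
`below_power`: for every `k` the integers `n` (`n ≥ 2`) whose word `v` of length `k` satisfies
`cc v k < ε` have `jugglerStep^[k] n = F v k n ≤ n ^ cc v k < n ^ ε` (`F_le`); their density is
`#{v : cc v k < ε} / 2^k ≥ 1 - ε^(-1/2) (0.97)^k` (the patterns of distinct words are disjoint:
finite sum of limits). So the lower density of the set is `≥ 1 - ε^(-1/2) (0.97)^k` for all `k`.
-/

set_option autoImplicit false

namespace Pool.Agent.Work.MP_215640_nt

open Finset Polynomial Filter N55eda7c2

theorem J_iter (w : ℕ → Bool) (k n : ℕ) (h : ∀ j < k, (F w j n % 2 = 1 ↔ w j = true)) :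
    ∀ j ≤ k, jugglerStep^[j] n = F w j n := by
  intro j
  induction j with
  | zero => intro _; rw [F_zero]; rfl
  | succ j ih =>
    intro hj
    rw [Function.iterate_succ_apply', ih (by omega), F_succ, jugglerStep]
    have h1 := h j (by omega)
    by_cases hw : w j = true
    · have h2 : F w j n % 2 = 1 := h1.2 hw
      rw [if_neg (by rw [Nat.even_iff]; omega), hw]
      simp [ex]
    · have h2 : ¬ F w j n % 2 = 1 := fun h3 => hw (h1.1 h3)
      rw [if_pos (by rw [Nat.even_iff]; omega)]
      have h3 : w j = false := by simpa using hw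
      rw [h3]
      simp [ex]

/-- `n` has the parity word `w` of length `k` iff the levels have the parities given by `w` -/
theorem word_iff (w : ℕ → Bool) (k n : ℕ) :
    (∀ j < k, (jugglerStep^[j] n % 2 = 1 ↔ w j = true)) ↔ Pat w w (range k) n := by
  constructor
  · intro h
    have key : ∀ j ≤ k, jugglerStep^[j] n = F w j n := by
      intro j
      induction j with
      | zero => intro _; rw [F_zero]; rfl
      | succ j ih =>
        intro hj
        have h0 := ih (by omega)
        have h1 := h j (by omega)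
        rw [h0] at h1
        rw [Function.iterate_succ_apply', h0, F_succ, jugglerStep]
        by_cases hw : w j = true
        · have h2 : F w j n % 2 = 1 := h1.2 hw
          rw [if_neg (by rw [Nat.even_iff]; omega), hw]
          simp [ex]
        · have h2 : ¬ F w j n % 2 = 1 := fun h3 => hw (h1.1 h3)
          rw [if_pos (by rw [Nat.even_iff]; omega)]
          have h3 : w j = false := by simpa using hw
          rw [h3]
          simp [ex]
    intro j hj
    rw [mem_range] at hj
    rw [← key j hj.le]
    exact h j hj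
  · intro h j hj
    have h' : ∀ j < k, (F w j n % 2 = 1 ↔ w j = true) := fun j hj => h j (mem_range.2 hj)
    rw [J_iter w k n h' j hj.le]
    exact h' j hj

/-- extension of a word of length `k` by `false` -/
def ext {k : ℕ} (v : Fin k → Bool) (j : ℕ) : Bool := if h : j < k then v ⟨j, h⟩ else false

namespace WalkAux

theorem cc_ext {k : ℕ} (v : Fin k → Bool) : cc (ext v) k = ∏ i : Fin k, ex (v i) := by
  unfold cc
  rw [Finset.prod_range]
  refine prod_congr rfl fun i _ => ?_
  simp [ext, i.2]

theorem sum_sqrt (k : ℕ) : ∑ v : Fin k → Bool, Real.sqrt (cc (ext v) k) =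
    (Real.sqrt (3 / 2) + Real.sqrt (1 / 2)) ^ k := by
  have h1 : ∀ v : Fin k → Bool, Real.sqrt (cc (ext v) k) = ∏ i : Fin k, Real.sqrt (ex (v i)) := by
    intro v
    rw [cc_ext, Real.sqrt_prod _ fun i _ => (ex_pos _).le]
  rw [Finset.sum_congr rfl fun v _ => h1 v]
  have h2 := Finset.prod_univ_sum (fun _ : Fin k => (univ : Finset Bool))
    (fun _ b => Real.sqrt (ex b))
  rw [Fintype.piFinset_univ] at h2
  rw [← h2]
  simp [ex]

theorem base_le : Real.sqrt (3 / 2) + Real.sqrt (1 / 2) ≤ 97 / 100 * 2 := by
  have h1 : Real.sqrt (3 / 2) ≤ 1.23 := by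
    rw [Real.sqrt_le_left (by norm_num)]; norm_num
  have h2 : Real.sqrt (1 / 2) ≤ 0.71 := by
    rw [Real.sqrt_le_left (by norm_num)]; norm_num
  norm_num at h1 h2 ⊢
  linarith

end WalkAux

theorem count_words (k : ℕ) (ε : ℝ) (hε : 0 < ε) :
    ((univ.filter (fun v : Fin k → Bool => ε ≤ cc (ext v) k)).card : ℝ) ≤
      ε ^ (-(1 : ℝ) / 2) * (97 / 100) ^ k * 2 ^ k := by
  have hs : ε ^ (-(1 : ℝ) / 2) = (Real.sqrt ε)⁻¹ := by
    rw [Real.sqrt_eq_rpow, ← Real.rpow_neg hε.le]
    congr 1; ring
  have hsp : 0 < Real.sqrt ε := Real.sqrt_pos.2 hε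
  rw [hs, mul_assoc, ← mul_pow]
  calc ((univ.filter (fun v : Fin k → Bool => ε ≤ cc (ext v) k)).card : ℝ)
      = ∑ v ∈ univ.filter (fun v : Fin k → Bool => ε ≤ cc (ext v) k), (1 : ℝ) := by simp
    _ ≤ ∑ v ∈ univ.filter (fun v : Fin k → Bool => ε ≤ cc (ext v) k),
        (Real.sqrt ε)⁻¹ * Real.sqrt (cc (ext v) k) := by
        refine sum_le_sum fun v hv => ?_
        rw [mem_filter] at hv
        have := Real.sqrt_le_sqrt hv.2
        rw [inv_mul_eq_div, le_div_iff₀ hsp, one_mul]
        exact this
    _ ≤ ∑ v : Fin k → Bool, (Real.sqrt ε)⁻¹ * Real.sqrt (cc (ext v) k) := by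
        refine sum_le_sum_of_subset_of_nonneg (filter_subset _ _) fun v _ _ => by positivity
    _ = (Real.sqrt ε)⁻¹ * (Real.sqrt (3 / 2) + Real.sqrt (1 / 2)) ^ k := by
        rw [← mul_sum, WalkAux.sum_sqrt]
    _ ≤ (Real.sqrt ε)⁻¹ * (97 / 100 * 2) ^ k := by
        refine mul_le_mul_of_nonneg_left ?_ (by positivity)
        exact pow_le_pow_left₀ (by positivity) WalkAux.base_le k

open Classical in
theorem below_power
    (H : ∀ (w : ℕ → Bool) (K : ℕ),
      Tendsto (fun x : ℕ => (((range x).filter (fun n => Pat w w (range (K + 1)) n)).card : ℝ) / x)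
        atTop (nhds ((1 / 2) ^ (K + 1)))) (ε : ℝ) (hε : 0 < ε) :
    Tendsto (fun x : ℕ => (((range x).filter
      (fun n : ℕ => ∃ k : ℕ, (jugglerStep^[k] n : ℝ) < (n : ℝ) ^ ε)).card : ℝ) / x) atTop (nhds 1) := by
  obtain ⟨S, hS⟩ : ∃ S : ℕ → Prop, S = fun n : ℕ => ∃ k : ℕ, (jugglerStep^[k] n : ℝ) < (n : ℝ) ^ ε :=
    ⟨_, rfl⟩
  have hgoal : Tendsto (fun x : ℕ => (((range x).filter (fun n : ℕ => S n)).card : ℝ) / x) atTop
      (nhds 1) := by
    rw [tendsto_order]
    refine ⟨fun a ha => ?_, fun b hb => ?_⟩
    · obtain ⟨δ, hδ⟩ : ∃ δ : ℝ, δ = 1 - a := ⟨_, rfl⟩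
      have hδ0 : 0 < δ := by rw [hδ]; linarith
      have hsp : 0 < ε ^ (-(1 : ℝ) / 2) := Real.rpow_pos_of_pos hε _
      obtain ⟨K, hK⟩ := exists_pow_lt_of_lt_one (show 0 < δ / 2 / ε ^ (-(1 : ℝ) / 2) by positivity)
        (show (97 : ℝ) / 100 < 1 by norm_num)
      have hK' : ε ^ (-(1 : ℝ) / 2) * (97 / 100) ^ (K + 1) < δ / 2 := by
        have h1 : (97 / 100 : ℝ) ^ (K + 1) ≤ (97 / 100) ^ K :=
          pow_le_pow_of_le_one (by norm_num) (by norm_num) (by omega)
        have h2 := h1.trans_lt hK
        rw [lt_div_iff₀ hsp] at h2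
        linarith
      obtain ⟨B, hB⟩ : ∃ B : Finset (Fin (K + 1) → Bool),
        B = univ.filter (fun v : Fin (K + 1) → Bool => ε ≤ cc (ext v) (K + 1)) := ⟨_, rfl⟩
      have hBcard : (B.card : ℝ) * (1 / 2) ^ (K + 1) < δ / 2 := by
        have h1 := count_words (K + 1) ε hε
        rw [← hB] at h1
        have h2 : (B.card : ℝ) * (1 / 2) ^ (K + 1) ≤
            (ε ^ (-(1 : ℝ) / 2) * (97 / 100) ^ (K + 1) * 2 ^ (K + 1)) * (1 / 2) ^ (K + 1) :=
          mul_le_mul_of_nonneg_right h1 (by positivity)
        have h3 : (ε ^ (-(1 : ℝ) / 2) * (97 / 100) ^ (K + 1) * 2 ^ (K + 1)) * (1 / 2) ^ (K + 1) =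
            ε ^ (-(1 : ℝ) / 2) * (97 / 100) ^ (K + 1) := by
          rw [mul_assoc, ← mul_pow]; norm_num
        rw [h3] at h2
        exact h2.trans_lt hK'
      -- the bad set
      have hlim : Tendsto (fun x : ℕ => ∑ v ∈ B, (((range x).filter
          (fun n => Pat (ext v) (ext v) (range (K + 1)) n)).card : ℝ) / x) atTop
          (nhds (∑ v ∈ B, (1 / 2) ^ (K + 1))) :=
        tendsto_finsetSum _ fun v _ => H (ext v) K
      rw [sum_const, nsmul_eq_mul] at hlim
      have h2lim : Tendsto (fun x : ℕ => (2 : ℝ) / x) atTop (nhds 0) :=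
        tendsto_const_div_atTop_nhds_zero_nat 2
      have h3lim := hlim.add h2lim
      rw [add_zero] at h3lim
      have hev := (tendsto_order.1 h3lim).2 δ (by linarith)
      filter_upwards [hev, eventually_gt_atTop 0] with x hx hx0
      have hxpos : (0 : ℝ) < x := by exact_mod_cast hx0
      have hcover : range x ⊆ (range x).filter (fun n => S n) ∪ ({0, 1} ∪
          B.biUnion (fun v => (range x).filter
            (fun n => Pat (ext v) (ext v) (range (K + 1)) n))) := by
        intro n hn
        rw [mem_union, mem_union, mem_filter, mem_biUnion]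
        by_cases hn2 : n < 2
        · right; left
          rw [mem_insert, mem_singleton]
          omega
        · push Not at hn2
          obtain ⟨v, hv⟩ : ∃ v : Fin (K + 1) → Bool,
            v = fun j => decide (jugglerStep^[j.1] n % 2 = 1) := ⟨_, rfl⟩
          have hpat : Pat (ext v) (ext v) (range (K + 1)) n := by
            rw [← word_iff]
            intro j hj
            simp only [ext, hj, hv, dif_pos, decide_eq_true_eq]
          by_cases hvB : v ∈ B
          · right; right
            exact ⟨v, hvB, mem_filter.2 ⟨hn, hpat⟩⟩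
          · left
            refine ⟨hn, ?_⟩
            rw [hS]
            refine ⟨K + 1, ?_⟩
            rw [J_iter (ext v) (K + 1) n (fun j hj => hpat j (mem_range.2 hj)) (K + 1) le_rfl]
            refine (F_le (ext v) (K + 1) n).trans_lt ?_
            refine Real.rpow_lt_rpow_of_exponent_lt ?_ ?_
            · exact_mod_cast (show 1 < n by omega)
            · rw [hB, mem_filter] at hvB
              push Not at hvB
              exact hvB (mem_univ _)
      have hcard := card_le_card hcover
      rw [card_range] at hcard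
      have h5 : ((range x).filter (fun n => S n) ∪ ({0, 1} ∪
          B.biUnion (fun v => (range x).filter
            (fun n => Pat (ext v) (ext v) (range (K + 1)) n)))).card ≤
            ((range x).filter (fun n => S n)).card + (2 + ∑ v ∈ B, ((range x).filter
            (fun n => Pat (ext v) (ext v) (range (K + 1)) n)).card) := by
        refine (card_union_le _ _).trans (Nat.add_le_add_left ?_ _)
        refine (card_union_le _ _).trans (Nat.add_le_add ?_ card_biUnion_le)
        exact card_le_two
      have h6 : (x : ℝ) ≤ (((range x).filter (fun n => S n)).card : ℝ) + (2 + ∑ v ∈ B, (((range x).filter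
            (fun n => Pat (ext v) (ext v) (range (K + 1)) n)).card : ℝ)) := by
        exact_mod_cast hcard.trans h5
      rw [← sum_div, ← add_div, div_lt_iff₀ hxpos] at hx
      rw [lt_div_iff₀ hxpos]
      have h7 : a = 1 - δ := by rw [hδ]; ring
      rw [h7, sub_mul, one_mul]
      linarith
    · filter_upwards [eventually_gt_atTop 0] with x hx0
      have hxpos : (0 : ℝ) < x := by exact_mod_cast hx0
      rw [div_lt_iff₀ hxpos]
      have h1 : ((range x).filter (fun n : ℕ => S n)).card ≤ x := by
        refine (card_filter_le _ _).trans ?_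
        simp
      have h2 : (((range x).filter (fun n : ℕ => S n)).card : ℝ) ≤ x := by exact_mod_cast h1
      nlinarith
  subst hS
  exact hgoal

end Pool.Agent.Work.MP_215640_nt
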