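import Pool.Agent.Work.MP_215640_nt.Basic

set_option autoImplicit false

namespace Pool.Agent.Work.MP_215640_nt

open Finset Polynomial Filter

private theorem fz_comp_coeff (d : ℕ) (E : ℝ[X]) (K α β B : ℝ) (hE : E.natDegree ≤ d)
    (hK : ∀ s, |E.coeff s| ≤ K) (hα : 0 ≤ α) (hB : 1 ≤ B) (hβ : |β| ≤ B) (r : ℕ) :
    |(E.comp (C α * X + C β)).coeff r| ≤ K * (d + 1) * 2 ^ d * B ^ d * α ^ r := by
  have hK0 : 0 ≤ K := (abs_nonneg _).trans (hK 0)
  have h1 : E.comp (C α * X + C β) = (E.comp (X + C β)).comp (C α * X) := by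
    rw [Polynomial.comp_assoc]; congr 1; simp
  rw [h1, Polynomial.comp_C_mul_X_coeff, abs_mul, abs_of_nonneg (pow_nonneg hα r)]
  apply mul_le_mul_of_nonneg_right _ (pow_nonneg hα r)
  have h2 : E.comp (X + C β) = ∑ s ∈ range (d + 1), C (E.coeff s) * (X + C β) ^ s := by
    rw [Polynomial.comp, Polynomial.eval₂_eq_sum_range' C (Nat.lt_succ_of_le hE)]
  rw [h2, Polynomial.finsetSum_coeff]
  refine (abs_sum_le_sum_abs _ _).trans ?_
  have h3 : ∀ s ∈ range (d + 1), |(C (E.coeff s) * (X + C β) ^ s).coeff r| ≤ K * (2 ^ d * B ^ d) := by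
    intro s hs
    have hsd : s ≤ d := Nat.lt_succ_iff.mp (mem_range.mp hs)
    rw [Polynomial.coeff_C_mul, Polynomial.coeff_X_add_C_pow, abs_mul, abs_mul]
    apply mul_le_mul (hK s) _ (by positivity) hK0
    rw [mul_comm]
    apply mul_le_mul
    · rw [Nat.abs_cast]
      calc ((s.choose r : ℕ) : ℝ) ≤ ((2 ^ s : ℕ) : ℝ) := by
            exact_mod_cast Nat.choose_le_two_pow s r
        _ ≤ 2 ^ d := by
            push_cast
            exact pow_le_pow_right₀ (by norm_num) hsd
    · rw [abs_pow]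
      calc |β| ^ (s - r) ≤ B ^ (s - r) := pow_le_pow_left₀ (abs_nonneg _) hβ _
        _ ≤ B ^ d := pow_le_pow_right₀ hB (by omega)
    · positivity
    · positivity
  refine (sum_le_sum h3).trans ?_
  rw [sum_const, card_range, nsmul_eq_mul]
  push_cast
  apply le_of_eq
  ring

private theorem fz_diff (p : ℝ[X]) (d : ℕ) (hp : p.natDegree ≤ d) (j : ℕ) :
    ∑ k ∈ range (d + 2), ((-1 : ℝ) ^ (d + 1 - k) * ((d + 1).choose k : ℝ)) * p.eval ((j + k : ℕ) : ℝ) = 0 := by
  have h1 := congr_fun (Polynomial.fwdDiff_iter_eq_zero_of_degree_lt (P := p) (n := d + 1)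
    (Nat.lt_succ_of_le hp)) (j : ℝ)
  rw [fwdDiff_iter_eq_sum_shift] at h1
  simp only [Pi.zero_apply] at h1
  rw [← h1]
  apply sum_congr rfl
  intro k _
  rw [zsmul_eq_mul]
  push_cast
  simp

/-- integer values close to a polynomial of degree `≤ d` form a polynomial of degree `≤ d` -/
private theorem fz_poly (d : ℕ) (V : ℕ) (hV : d + 1 ≤ V) (f : ℕ → ℝ) (hf : ∀ v < V, ∃ z : ℤ, f v = z)
    (S : ℝ[X]) (hS : S.natDegree ≤ d) (ε : ℝ) (hε : 0 ≤ ε) (hε2 : 2 ^ (d + 2) * ε < 1)
    (hc : ∀ v < V, |f v - S.eval (v : ℝ)| ≤ 2 * ε) :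
    ∃ P0 : ℝ[X], P0.natDegree ≤ d ∧ (∀ v < V, f v = P0.eval (v : ℝ)) ∧
      ∀ s, |(P0 - S).coeff s| ≤ 2 * ε * ∑ i ∈ range (d + 1), ∑ r ∈ range (d + 1),
        |(Lagrange.basis (range (d + 1)) (fun i : ℕ => (i : ℝ)) i).coeff r| := by
  have hinj : Set.InjOn (fun i : ℕ => (i : ℝ)) (range (d + 1) : Finset ℕ) := by
    intro a _ b _ h
    have h' : (a : ℝ) = (b : ℝ) := h
    exact_mod_cast h'
  set P0 : ℝ[X] := Lagrange.interpolate (range (d + 1)) (fun i : ℕ => (i : ℝ)) f with hP0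
  have hdeg : P0.degree < ((d + 1 : ℕ) : WithBot ℕ) := by
    have := Lagrange.degree_interpolate_lt (r := f) hinj
    rwa [card_range] at this
  have hnd : P0.natDegree ≤ d := by
    by_cases h0 : P0 = 0
    · rw [h0]; simp
    · exact Nat.lt_succ_iff.mp ((Polynomial.natDegree_lt_iff_degree_lt h0).mpr hdeg)
  have hnode : ∀ i ∈ range (d + 1), P0.eval (i : ℝ) = f i := by
    intro i hi
    exact Lagrange.eval_interpolate_at_node f hinj hi
  refine ⟨P0, hnd, ?_, ?_⟩
  · intro v
    induction v using Nat.strong_induction_on with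
    | _ v ih =>
      intro hv
      by_cases hvd : v < d + 1
      · exact (hnode v (mem_range.mpr hvd)).symm
      · push Not at hvd
        obtain ⟨j, rfl⟩ : ∃ j, v = j + (d + 1) := ⟨v - (d + 1), by omega⟩
        -- the difference of f is an integer
        have hint : ∃ z : ℤ, ∑ k ∈ range (d + 2), ((-1 : ℝ) ^ (d + 1 - k) * ((d + 1).choose k : ℝ)) * f (j + k) = z := by
          choose! g hg using hf
          refine ⟨∑ k ∈ range (d + 2), ((-1 : ℤ) ^ (d + 1 - k) * ((d + 1).choose k : ℤ)) * g (j + k), ?_⟩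
          push_cast
          apply sum_congr rfl
          intro k hk
          rw [hg (j + k) (by have := mem_range.mp hk; omega)]
        have hsmall : |∑ k ∈ range (d + 2), ((-1 : ℝ) ^ (d + 1 - k) * ((d + 1).choose k : ℝ)) * f (j + k)| < 1 := by
          have h1 : ∑ k ∈ range (d + 2), ((-1 : ℝ) ^ (d + 1 - k) * ((d + 1).choose k : ℝ)) * f (j + k)
              = ∑ k ∈ range (d + 2), ((-1 : ℝ) ^ (d + 1 - k) * ((d + 1).choose k : ℝ)) *
                (f (j + k) - S.eval ((j + k : ℕ) : ℝ)) := by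
            have h2 := fz_diff S d hS j
            simp only [mul_sub, sum_sub_distrib]
            rw [h2]; ring
          rw [h1]
          refine lt_of_le_of_lt (abs_sum_le_sum_abs _ _) ?_
          have h3 : ∀ k ∈ range (d + 2), |((-1 : ℝ) ^ (d + 1 - k) * ((d + 1).choose k : ℝ)) *
                (f (j + k) - S.eval ((j + k : ℕ) : ℝ))| ≤ ((d + 1).choose k : ℝ) * (2 * ε) := by
            intro k hk
            rw [abs_mul, abs_mul, abs_pow, abs_neg, abs_one, one_pow, one_mul, Nat.abs_cast]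
            exact mul_le_mul_of_nonneg_left (hc (j + k) (by have := mem_range.mp hk; omega))
              (Nat.cast_nonneg _)
          refine lt_of_le_of_lt (sum_le_sum h3) ?_
          rw [← sum_mul]
          have h4 : (∑ k ∈ range (d + 2), ((d + 1).choose k : ℝ)) = 2 ^ (d + 1) := by
            have := Nat.sum_range_choose (d + 1)
            exact_mod_cast this
          rw [h4]
          calc (2 : ℝ) ^ (d + 1) * (2 * ε) = 2 ^ (d + 2) * ε := by ring
            _ < 1 := hε2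
        have hzero : ∑ k ∈ range (d + 2), ((-1 : ℝ) ^ (d + 1 - k) * ((d + 1).choose k : ℝ)) * f (j + k) = 0 := by
          obtain ⟨z, hz⟩ := hint
          rw [hz] at hsmall ⊢
          have : |z| < 1 := by exact_mod_cast hsmall
          have : z = 0 := Int.abs_lt_one_iff.mp this
          rw [this]; simp
        have hP := fz_diff P0 d hnd j
        rw [sum_range_succ] at hzero hP
        have heq : ∑ k ∈ range (d + 1), ((-1 : ℝ) ^ (d + 1 - k) * ((d + 1).choose k : ℝ)) * f (j + k)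
            = ∑ k ∈ range (d + 1), ((-1 : ℝ) ^ (d + 1 - k) * ((d + 1).choose k : ℝ)) * P0.eval ((j + k : ℕ) : ℝ) := by
          apply sum_congr rfl
          intro k hk
          have hk' := mem_range.mp hk
          rw [ih (j + k) (by omega) (by omega)]
        rw [heq] at hzero
        have h5 := hzero.trans hP.symm
        have h6 := add_left_cancel h5
        simp only [Nat.sub_self, pow_zero, Nat.choose_self, Nat.cast_one, mul_one, one_mul] at h6
        exact h6
  · intro s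
    have hSi : S = Lagrange.interpolate (range (d + 1)) (fun i : ℕ => (i : ℝ)) (fun i => S.eval (i : ℝ)) := by
      apply Lagrange.eq_interpolate hinj
      rw [card_range]
      exact lt_of_le_of_lt Polynomial.degree_le_natDegree (by exact_mod_cast Nat.lt_succ_of_le hS)
    have hsub : P0 - S = ∑ i ∈ range (d + 1), C (f i - S.eval (i : ℝ)) *
        Lagrange.basis (range (d + 1)) (fun i : ℕ => (i : ℝ)) i := by
      rw [hSi]
      rw [hP0, ← map_sub, Lagrange.interpolate_apply]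
      apply sum_congr rfl
      intro i hi
      simp only [Pi.sub_apply]
      rw [← hSi]
    rw [hsub, Polynomial.finsetSum_coeff, mul_sum]
    refine (abs_sum_le_sum_abs _ _).trans (sum_le_sum ?_)
    intro i hi
    rw [Polynomial.coeff_C_mul, abs_mul]
    apply mul_le_mul _ _ (abs_nonneg _) (by positivity)
    · exact hc i (by have := mem_range.mp hi; omega)
    · by_cases hs : s ∈ range (d + 1)
      · exact single_le_sum (f := fun r => |(Lagrange.basis (range (d + 1)) (fun i : ℕ => (i : ℝ)) i).coeff r|)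
          (fun _ _ => abs_nonneg _) hs
      · have : (Lagrange.basis (range (d + 1)) (fun i : ℕ => (i : ℝ)) i).coeff s = 0 := by
          apply Polynomial.coeff_eq_zero_of_natDegree_lt
          rw [Lagrange.natDegree_basis hinj hi, card_range]
          have : ¬ s < d + 1 := fun h => hs (mem_range.mpr h)
          omega
        rw [this, abs_zero]
        exact sum_nonneg fun _ _ => abs_nonneg _


theorem freeze (d : ℕ) : ∃ C1 : ℝ, 0 < C1 ∧ ∀ (V T q u L : ℕ) (a A : ℝ) (R : ℝ[X]) (y : ℕ → ℝ)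
    (κ ε : ℝ), d + 1 ≤ V → 1 ≤ T → 1 ≤ q → u ≤ L → 0 < a → 0 < A → R.natDegree ≤ d →
    0 ≤ ε → 2 ^ (d + 3) * ε < 1 → (∀ v < V, 0 ≤ y v) →
    (∀ v < V, |y v - A * R.eval ((T : ℝ) * ((u : ℝ) + q * v) / a)| ≤ ε) →
    (∀ v < V, ∃ g : ℤ, |y v - κ - 2 * g| ≤ ε) → ε < dI κ →
    (∃ b : ℕ, ∀ v < V, ⌊y v⌋₊ % 2 = b) ∧
    ∃ P : ℝ[X], P.natDegree ≤ d ∧
      (∀ v < V, (⌊y v⌋₊ : ℝ) = A * P.eval ((T : ℝ) * ((u : ℝ) + q * v) / a)) ∧
      ∀ r ≤ d, |P.coeff r - R.coeff r| ≤ C1 * ((L : ℝ) + 1) ^ d * A⁻¹ * (a / T) ^ r := by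
  set KK : ℝ := ∑ i ∈ range (d + 1), ∑ r ∈ range (d + 1),
        |(Lagrange.basis (range (d + 1)) (fun i : ℕ => (i : ℝ)) i).coeff r| with hKK
  have hKK0 : 0 ≤ KK := sum_nonneg fun _ _ => sum_nonneg fun _ _ => abs_nonneg _
  refine ⟨(KK + 1) * (d + 1) * 2 ^ d, by positivity, ?_⟩
  intro V T q u L a A R y κ ε hV hT hq hu ha hA hR hε hε3 hy0 hyR hyκ hκ
  have hTr : (0 : ℝ) < T := by exact_mod_cast hT
  have hqr : (0 : ℝ) < q := by exact_mod_cast hq
  have hq1 : (1 : ℝ) ≤ q := by exact_mod_cast hq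
  -- the floors
  set k : ℤ := ⌊κ⌋ with hk
  have hk1 : ε < κ - k := by
    have := dI_le κ k
    have h0 : (0 : ℝ) ≤ κ - k := by rw [hk]; exact sub_nonneg.mpr (Int.floor_le κ)
    rw [abs_of_nonneg h0] at this
    linarith
  have hk2 : ε < k + 1 - κ := by
    have := dI_le κ (k + 1)
    have h0 : κ - ((k + 1 : ℤ) : ℝ) ≤ 0 := by
      push_cast; rw [hk]; linarith [(Int.lt_floor_add_one κ).le]
    rw [abs_of_nonpos h0] at this
    push_cast at this
    linarith
  have hfl : ∀ v < V, ∃ g : ℤ, ((⌊y v⌋₊ : ℕ) : ℤ) = k + 2 * g ∧ |y v - κ - 2 * g| ≤ ε := by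
    intro v hv
    obtain ⟨g, hg⟩ := hyκ v hv
    refine ⟨g, ?_, hg⟩
    rw [Int.natCast_floor_eq_floor (hy0 v hv)]
    rw [Int.floor_eq_iff]
    have := abs_le.mp hg
    push_cast
    constructor <;> linarith [this.1, this.2]
  refine ⟨⟨(k % 2).toNat, ?_⟩, ?_⟩
  · intro v hv
    obtain ⟨g, hg, _⟩ := hfl v hv
    omega
  -- the polynomial
  set S : ℝ[X] := C A * R.comp (C ((T : ℝ) * q / a) * X + C ((T : ℝ) * u / a)) - C (κ - k) with hS
  have hSdeg : S.natDegree ≤ d := by
    rw [hS]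
    apply (Polynomial.natDegree_sub_le _ _).trans
    apply max_le
    · apply (Polynomial.natDegree_C_mul_le _ _).trans
      apply Polynomial.natDegree_comp_le.trans
      have : (C ((T : ℝ) * q / a) * X + C ((T : ℝ) * u / a)).natDegree ≤ 1 :=
        Polynomial.natDegree_linear_le
      calc R.natDegree * _ ≤ d * 1 := Nat.mul_le_mul hR this
        _ = d := by ring
    · rw [Polynomial.natDegree_C]; omega
  have hSev : ∀ v : ℕ, S.eval (v : ℝ) = A * R.eval ((T : ℝ) * ((u : ℝ) + q * v) / a) - (κ - k) := by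
    intro v
    rw [hS]
    simp only [eval_sub, eval_mul, eval_C, eval_comp, eval_add, eval_X]
    congr 3
    ring
  obtain ⟨P0, hP0d, hP0e, hP0c⟩ := fz_poly d V hV (fun v => ((⌊y v⌋₊ : ℕ) : ℝ)) (by
      intro v hv
      exact ⟨((⌊y v⌋₊ : ℕ) : ℤ), by push_cast; rfl⟩) S hSdeg ε hε (by
      have : (2 : ℝ) ^ (d + 3) = 2 * 2 ^ (d + 2) := by ring
      rw [this] at hε3
      have h0 : 0 ≤ (2 : ℝ) ^ (d + 2) * ε := by positivity
      linarith) (by
      intro v hv
      obtain ⟨g, hg, hge⟩ := hfl v hv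
      have hgr : ((⌊y v⌋₊ : ℕ) : ℝ) = k + 2 * g := by exact_mod_cast hg
      rw [hSev v, hgr]
      have h1 := abs_le.mp hge
      have h2 := abs_le.mp (hyR v hv)
      rw [abs_le]
      constructor <;> linarith [h1.1, h1.2, h2.1, h2.2])
  set E : ℝ[X] := P0 - S - C (κ - k) with hE
  have hEd : E.natDegree ≤ d := by
    rw [hE]
    apply (Polynomial.natDegree_sub_le _ _).trans
    apply max_le
    · exact (Polynomial.natDegree_sub_le _ _).trans (max_le hP0d hSdeg)
    · rw [Polynomial.natDegree_C]; omega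
  have hε1 : 2 * ε ≤ 1 := by
    have : (1 : ℝ) ≤ 2 ^ (d + 2) := one_le_pow₀ (by norm_num)
    have h2 : (2 : ℝ) ^ (d + 3) = 2 * 2 ^ (d + 2) := by ring
    rw [h2] at hε3
    nlinarith
  have hEc : ∀ s, |E.coeff s| ≤ KK + 1 := by
    intro s
    rw [hE, Polynomial.coeff_sub]
    refine (abs_sub _ _).trans ?_
    apply add_le_add
    · refine (hP0c s).trans ?_
      rw [← hKK]
      nlinarith
    · rw [Polynomial.coeff_C]
      split_ifs
      · rw [abs_le]; constructor <;> linarith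
      · simp
  have hEev : ∀ v < V, E.eval (v : ℝ) = (⌊y v⌋₊ : ℝ) - A * R.eval ((T : ℝ) * ((u : ℝ) + q * v) / a) := by
    intro v hv
    rw [hE]
    simp only [eval_sub, eval_C]
    rw [← hP0e v hv, hSev v]
    ring
  refine ⟨R + C A⁻¹ * E.comp (C (a / (T * q)) * X + C (-(u : ℝ) / q)), ?_, ?_, ?_⟩
  · apply (Polynomial.natDegree_add_le _ _).trans
    apply max_le hR
    apply (Polynomial.natDegree_C_mul_le _ _).trans
    apply Polynomial.natDegree_comp_le.trans
    have : (C (a / ((T : ℝ) * q)) * X + C (-(u : ℝ) / q)).natDegree ≤ 1 :=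
      Polynomial.natDegree_linear_le
    calc E.natDegree * _ ≤ d * 1 := Nat.mul_le_mul hEd this
      _ = d := by ring
  · intro v hv
    simp only [eval_add, eval_mul, eval_C, eval_comp, eval_X]
    have h1 : a / ((T : ℝ) * q) * ((T : ℝ) * ((u : ℝ) + q * v) / a) + -(u : ℝ) / q = (v : ℝ) := by
      field_simp
      ring
    rw [h1, hEev v hv]
    field_simp
    ring
  · intro r hr
    rw [Polynomial.coeff_add, Polynomial.coeff_C_mul, add_sub_cancel_left, abs_mul,
      abs_of_pos (inv_pos.mpr hA)]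
    have hL1 : (1 : ℝ) ≤ (L : ℝ) + 1 := by
      have : (0 : ℝ) ≤ L := Nat.cast_nonneg L
      linarith
    have h1 := fz_comp_coeff d E (KK + 1) (a / (T * q)) (-(u : ℝ) / q) ((L : ℝ) + 1) hEd hEc
      (by positivity) hL1 (by
        rw [abs_div, abs_neg, Nat.abs_cast, Nat.abs_cast]
        have h3 : (u : ℝ) ≤ L := by exact_mod_cast hu
        rw [div_le_iff₀ hqr]
        nlinarith [Nat.cast_nonneg (α := ℝ) u]) r
    have h2 : (a / ((T : ℝ) * q)) ^ r ≤ (a / T) ^ r := by
      apply pow_le_pow_left₀ (by positivity)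
      apply div_le_div_of_nonneg_left ha.le hTr
      nlinarith
    calc A⁻¹ * |(E.comp (C (a / (T * q)) * X + C (-(u : ℝ) / q))).coeff r|
        ≤ A⁻¹ * ((KK + 1) * (d + 1) * 2 ^ d * ((L : ℝ) + 1) ^ d * (a / (T * q)) ^ r) :=
          mul_le_mul_of_nonneg_left h1 (inv_pos.mpr hA).le
      _ ≤ A⁻¹ * ((KK + 1) * (d + 1) * 2 ^ d * ((L : ℝ) + 1) ^ d * (a / T) ^ r) := by
          apply mul_le_mul_of_nonneg_left _ (inv_pos.mpr hA).le
          apply mul_le_mul_of_nonneg_left h2
          positivity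
      _ = _ := by ring

end Pool.Agent.Work.MP_215640_nt
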