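import Pool.Agent.Work.MP_215640_nt.Basic

/-!
MODULE GENMOST. A slowly varying monotone function is generic at most integers.
-/

set_option autoImplicit false

namespace Pool.Agent.Work.MP_215640_nt

open Finset Polynomial Filter Topology

open Classical in
private theorem gm_count (N : ℕ) (g : ℕ → ℝ) (G κ η : ℝ) (hκ : 0 < κ) (hη : 0 < η)
    (hη2 : η ≤ 1 / 2)
    (hg0 : ∀ a ∈ Ico N (2 * N), 0 ≤ g a) (hgG : ∀ a ∈ Ico N (2 * N), g a ≤ G)
    (hG : 0 ≤ G)
    (hd : ∀ a ∈ Ico N (2 * N), ∀ b ∈ Ico N (2 * N), a < b →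
      κ * ((b : ℝ) - a) ≤ g a - g b) :
    (((Ico N (2 * N)).filter (fun a : ℕ => dI (g a) < η)).card : ℝ) ≤
      (2 * η / κ + 1) * (G + 2) := by
  set s := (Ico N (2 * N)).filter (fun a : ℕ => dI (g a) < η) with hs
  have hx0 : 0 ≤ 2 * η / κ := by positivity
  have h1 : s.card ≤ (⌊2 * η / κ⌋₊ + 1) * (s.image (fun a => round (g a))).card := by
    apply card_le_mul_card_image
    intro k hk
    set t := s.filter (fun a => round (g a) = k) with ht
    rcases t.eq_empty_or_nonempty with h | h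
    · rw [h]; simp
    · have hsub : t ⊆ Icc (t.min' h) (t.min' h + ⌊2 * η / κ⌋₊) := by
        intro b hb
        rw [mem_Icc]
        refine ⟨t.min'_le b hb, ?_⟩
        set a := t.min' h with ha
        have hat : a ∈ t := t.min'_mem h
        have hab : a ≤ b := t.min'_le b hb
        rcases hab.eq_or_lt with e | hlt
        · omega
        · rw [ht, mem_filter, hs, mem_filter] at hat hb
          obtain ⟨⟨ha1, ha2⟩, ha3⟩ := hat
          obtain ⟨⟨hb1, hb2⟩, hb3⟩ := hb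
          unfold dI at ha2 hb2
          rw [ha3] at ha2
          rw [hb3] at hb2
          have h5 := hd a ha1 b hb1 hlt
          rw [abs_lt] at ha2 hb2
          have h6 : κ * ((b : ℝ) - a) ≤ 2 * η := by linarith [ha2.2, hb2.1]
          have h7 : (b : ℝ) - a ≤ 2 * η / κ := by
            rw [le_div_iff₀ hκ]; linarith
          have h8 : ((b - a : ℕ) : ℝ) ≤ 2 * η / κ := by
            rw [Nat.cast_sub hab]; exact h7
          have h9 := Nat.le_floor h8
          omega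
      refine (card_le_card hsub).trans ?_
      rw [Nat.card_Icc]
      omega
  have h2 : (s.image (fun a => round (g a))) ⊆ Icc (0 : ℤ) ⌊G + 1⌋ := by
    intro k hk
    rw [mem_image] at hk
    obtain ⟨a, ha, rfl⟩ := hk
    rw [hs, mem_filter] at ha
    obtain ⟨ha1, _⟩ := ha
    have h3 := hg0 a ha1
    have h4 := hgG a ha1
    rw [mem_Icc]
    constructor
    · rw [round_eq]
      apply Int.floor_nonneg.2
      linarith
    · rw [round_eq]
      apply Int.floor_le_floor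
      linarith
  have h3 : ((s.image (fun a => round (g a))).card : ℝ) ≤ G + 2 := by
    have h4 := card_le_card h2
    rw [Int.card_Icc] at h4
    have h5 : 0 ≤ ⌊G + 1⌋ := Int.floor_nonneg.2 (by linarith)
    have h6 : (((⌊G + 1⌋ + 1 - 0).toNat : ℕ) : ℝ) = (⌊G + 1⌋ : ℝ) + 1 := by
      have : (((⌊G + 1⌋ + 1 - 0).toNat : ℕ) : ℤ) = ⌊G + 1⌋ + 1 := by
        rw [Int.toNat_of_nonneg (by omega)]; ring
      exact_mod_cast this
    have h7 : ((s.image (fun a => round (g a))).card : ℝ) ≤ (⌊G + 1⌋ : ℝ) + 1 := by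
      rw [← h6]; exact_mod_cast h4
    have h8 := Int.floor_le (G + 1)
    linarith
  calc (s.card : ℝ) ≤ ((⌊2 * η / κ⌋₊ : ℝ) + 1) * ((s.image (fun a => round (g a))).card : ℝ) := by
        exact_mod_cast h1
    _ ≤ (2 * η / κ + 1) * (G + 2) := by
        apply mul_le_mul _ h3 (by positivity) (by positivity)
        have := Nat.floor_le hx0
        linarith

private theorem gm_conv (β x y : ℝ) (hβ : 0 < β) (hx : 0 < x) (hxy : x < y) :
    β * (y - x) * (y ^ (-β) / y) ≤ x ^ (-β) - y ^ (-β) := by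
  have hy : 0 < y := hx.trans hxy
  have h1 : x ^ (-β) = y ^ (-β) * (y / x) ^ β := by
    rw [Real.div_rpow hy.le hx.le, Real.rpow_neg hx.le, Real.rpow_neg hy.le]
    have : 0 < y ^ β := by positivity
    field_simp
  have h2 : 1 + β * (1 - x / y) ≤ (y / x) ^ β := by
    have h3 : 1 - (y / x)⁻¹ ≤ Real.log (y / x) := Real.one_sub_inv_le_log_of_pos (by positivity)
    rw [inv_div] at h3
    rw [Real.rpow_def_of_pos (by positivity)]
    have h4 := Real.add_one_le_exp (Real.log (y / x) * β)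
    have h5 : β * (1 - x / y) ≤ Real.log (y / x) * β := by
      rw [mul_comm]; exact mul_le_mul_of_nonneg_right h3 hβ.le
    linarith
  have h3 : 0 < y ^ (-β) := by positivity
  rw [h1]
  calc β * (y - x) * (y ^ (-β) / y) = y ^ (-β) * (1 + β * (1 - x / y)) - y ^ (-β) := by
        field_simp
        ring
    _ ≤ y ^ (-β) * (y / x) ^ β - y ^ (-β) := by
        have := mul_le_mul_of_nonneg_left h2 h3.le
        linarith

private theorem gm_G (M : ℕ) (ci om ρ : ℝ) (hρ : ρ ≠ 0) (h0 : 0 < om) (h1 : om < 1)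
    (h2 : 0 < ci - om * M) (h3 : ci - om * M < 1) :
    (∀ δ : ℝ, 0 < δ → ∀ᶠ N : ℕ in atTop,
      |ρ| * (N : ℝ) ^ (ci - M) * (Tz om N : ℝ) ^ M ≤ δ * N) ∧
    (∀ᶠ N : ℕ in atTop, 2 ≤ |ρ| * (N : ℝ) ^ (ci - M) * (Tz om N : ℝ) ^ M) := by
  have hρ' : 0 < |ρ| := abs_pos.2 hρ
  have hpow : ∀ N : ℕ, 0 < N → (N : ℝ) ^ (ci - M) * ((N : ℝ) ^ (1 - om)) ^ M =
      (N : ℝ) ^ (ci - om * M) := by
    intro N hN
    have hN' : (0 : ℝ) < N := by exact_mod_cast hN
    rw [← Real.rpow_natCast, ← Real.rpow_mul hN'.le, ← Real.rpow_add hN']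
    congr 1
    ring
  constructor
  · intro δ hδ
    have hlim : Tendsto (fun N : ℕ => (N : ℝ) ^ (ci - om * M - 1)) atTop (𝓝 0) := by
      have h := (tendsto_rpow_neg_atTop (y := 1 - (ci - om * M)) (by linarith)).comp
        (tendsto_natCast_atTop_atTop (R := ℝ))
      refine h.congr ?_
      intro N
      simp only [Function.comp]
      congr 1
      ring
    have hlim2 := hlim.const_mul |ρ|
    rw [mul_zero] at hlim2
    filter_upwards [hlim2.eventually (gt_mem_nhds hδ), eventually_gt_atTop 0] with N hN hN0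
    have hN' : (0 : ℝ) < N := by exact_mod_cast hN0
    have hT : (Tz om N : ℝ) ≤ (N : ℝ) ^ (1 - om) := Nat.floor_le (by positivity)
    calc |ρ| * (N : ℝ) ^ (ci - M) * (Tz om N : ℝ) ^ M
        ≤ |ρ| * (N : ℝ) ^ (ci - M) * ((N : ℝ) ^ (1 - om)) ^ M := by gcongr
      _ = |ρ| * (N : ℝ) ^ (ci - om * M) := by rw [mul_assoc, hpow N hN0]
      _ = |ρ| * (N : ℝ) ^ (ci - om * M - 1) * N := by
          rw [Real.rpow_sub_one hN'.ne']
          field_simp
      _ ≤ δ * N := by gcongr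
  · have hlim : Tendsto (fun N : ℕ => |ρ| * (1 / 2) ^ M * (N : ℝ) ^ (ci - om * M)) atTop atTop :=
      (((tendsto_rpow_atTop h2).comp tendsto_natCast_atTop_atTop)).const_mul_atTop
        (by positivity)
    have hlimT : Tendsto (fun N : ℕ => (N : ℝ) ^ (1 - om)) atTop atTop :=
      ((tendsto_rpow_atTop (by linarith)).comp tendsto_natCast_atTop_atTop)
    filter_upwards [hlim.eventually_ge_atTop 2, hlimT.eventually_ge_atTop 2,
      eventually_gt_atTop 0] with N hN hT2 hN0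
    have hN' : (0 : ℝ) < N := by exact_mod_cast hN0
    have hT : (N : ℝ) ^ (1 - om) / 2 ≤ (Tz om N : ℝ) := by
      have := Nat.lt_floor_add_one ((N : ℝ) ^ (1 - om))
      unfold Tz
      linarith
    refine hN.trans ?_
    calc |ρ| * (1 / 2) ^ M * (N : ℝ) ^ (ci - om * M)
        = |ρ| * (N : ℝ) ^ (ci - M) * ((N : ℝ) ^ (1 - om) / 2) ^ M := by
          rw [← hpow N hN0, div_pow, one_pow, div_pow]
          ring
      _ ≤ |ρ| * (N : ℝ) ^ (ci - M) * (Tz om N : ℝ) ^ M := by gcongr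

private theorem dI_abs_mul (l : ℕ) (ρ x : ℝ) : dI (l * (ρ * x)) = dI (l * (|ρ| * x)) := by
  rcases abs_cases ρ with h | h
  · rw [h.1]
  · rw [h.1, show (l : ℝ) * (-ρ * x) = -(l * (ρ * x)) by ring, dI_neg]

open Classical in
theorem gen_most (M : ℕ) (ci om ρ : ℝ) (hρ : ρ ≠ 0) (h0 : 0 < om) (h1 : om < 1)
    (hci : 0 < ci) (h2 : 0 < ci - om * M) (h3 : ci - om * M < 1) (h4 : ci < M) :
    ∀ B : ℕ, ∀ ε : ℝ, 0 < ε → ∃ η : ℝ, 0 < η ∧ ∀ᶠ N : ℕ in atTop,
      (((Ico N (2 * N)).filter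
        (fun a : ℕ => ¬ Gen B η (ρ * (a : ℝ) ^ (ci - M) * (Tz om N : ℝ) ^ M))).card : ℝ) ≤ ε * N := by
  intro B ε hε
  set β : ℝ := M - ci with hβdef
  have hβ : 0 < β := by rw [hβdef]; linarith
  have hβ' : ci - M = -β := by rw [hβdef]; ring
  have hP : (0 : ℝ) < 2 ^ β := by positivity
  obtain ⟨hG1, hG2⟩ := gm_G M ci om ρ hρ h0 h1 h2 h3
  set η : ℝ := min (1 / 2) (ε * β / (16 * ((B : ℝ) + 1) * 2 ^ β)) with hη
  have hη0 : 0 < η := by
    rw [hη]
    apply lt_min (by norm_num)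
    positivity
  have hη1 : η ≤ 1 / 2 := min_le_left _ _
  have hη2 : η ≤ ε * β / (16 * ((B : ℝ) + 1) * 2 ^ β) := min_le_right _ _
  refine ⟨η, hη0, ?_⟩
  have hδ : 0 < ε / (4 * ((B : ℝ) + 1) ^ 2) := by positivity
  filter_upwards [hG1 _ hδ, hG2, eventually_gt_atTop 0] with N hN1 hN2 hN0
  have hN' : (0 : ℝ) < N := by exact_mod_cast hN0
  set Q : ℝ := (Tz om N : ℝ) ^ M with hQ
  set G : ℝ := |ρ| * (N : ℝ) ^ (ci - M) * Q with hGdef
  have hQ0 : 0 ≤ Q := by rw [hQ]; positivity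
  -- bound for each l
  have hl : ∀ l ∈ Icc 1 B, (((Ico N (2 * N)).filter
      (fun a : ℕ => dI (l * (|ρ| * (a : ℝ) ^ (ci - M) * Q)) < η)).card : ℝ) ≤
      8 * η * N * 2 ^ β / β + 2 * B * G := by
    intro l hl
    rw [mem_Icc] at hl
    have hl1 : (1 : ℝ) ≤ l := by exact_mod_cast hl.1
    have hlB : (l : ℝ) ≤ B := by exact_mod_cast hl.2
    have hG0 : 0 < G := by linarith
    have hlG : 2 ≤ l * G := by nlinarith
    have hκ : 0 < β * (l * G) / (2 ^ β * (2 * N)) := by positivity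
    have hc := gm_count N (fun a => l * (|ρ| * (a : ℝ) ^ (ci - M) * Q)) (l * G)
      (β * (l * G) / (2 ^ β * (2 * N))) η hκ hη0 hη1 (fun a _ => by positivity)
      (fun a ha => by
        rw [mem_Ico] at ha
        have ha' : (N : ℝ) ≤ a := by exact_mod_cast ha.1
        rw [hGdef]
        have : (a : ℝ) ^ (ci - M) ≤ (N : ℝ) ^ (ci - M) :=
          Real.rpow_le_rpow_of_nonpos hN' ha' (by linarith)
        gcongr)
      (by positivity)
      (fun a ha b hb hab => by
        rw [mem_Ico] at ha hb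
        have ha' : (N : ℝ) ≤ a := by exact_mod_cast ha.1
        have ha0 : (0 : ℝ) < a := by linarith
        have hab' : (a : ℝ) < b := by exact_mod_cast hab
        have hb' : (b : ℝ) ≤ 2 * N := by exact_mod_cast hb.2.le
        have hb0 : (0 : ℝ) < b := by linarith
        have e1 := gm_conv β a b hβ ha0 hab'
        have e2 : (2 * (N : ℝ)) ^ (-β) / (2 * N) ≤ (b : ℝ) ^ (-β) / b := by
          have : (2 * (N : ℝ)) ^ (-β) ≤ (b : ℝ) ^ (-β) :=
            Real.rpow_le_rpow_of_nonpos hb0 hb' (by linarith)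
          apply div_le_div₀ (by positivity) this hb0 hb'
        have e3 : (2 * (N : ℝ)) ^ (-β) = (N : ℝ) ^ (-β) / 2 ^ β := by
          rw [Real.mul_rpow (by norm_num) hN'.le, Real.rpow_neg (by norm_num)]
          field_simp
        have e4 : β * ((b : ℝ) - a) * ((N : ℝ) ^ (-β) / 2 ^ β / (2 * N)) ≤
            (a : ℝ) ^ (-β) - (b : ℝ) ^ (-β) := by
          refine le_trans ?_ e1
          rw [← e3]
          apply mul_le_mul_of_nonneg_left e2
          have : 0 ≤ (b : ℝ) - a := by linarith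
          positivity
        rw [hGdef, hβ']
        have e5 : 0 ≤ (l : ℝ) * (|ρ| * Q) := by positivity
        have e6 := mul_le_mul_of_nonneg_left e4 e5
        calc β * (l * (|ρ| * (N : ℝ) ^ (-β) * Q)) / (2 ^ β * (2 * N)) * ((b : ℝ) - a)
            = l * (|ρ| * Q) * (β * ((b : ℝ) - a) * ((N : ℝ) ^ (-β) / 2 ^ β / (2 * N))) := by
              field_simp
          _ ≤ l * (|ρ| * Q) * ((a : ℝ) ^ (-β) - (b : ℝ) ^ (-β)) := e6
          _ = l * (|ρ| * (a : ℝ) ^ (-β) * Q) - l * (|ρ| * (b : ℝ) ^ (-β) * Q) := by ring)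
    refine hc.trans ?_
    have e7 : 2 * η / (β * (l * G) / (2 ^ β * (2 * N))) = 4 * η * N * 2 ^ β / (β * (l * G)) := by
      field_simp
      ring
    rw [e7]
    have e8 : l * G + 2 ≤ 2 * (l * G) := by linarith
    calc (4 * η * N * 2 ^ β / (β * (l * G)) + 1) * (l * G + 2)
        ≤ (4 * η * N * 2 ^ β / (β * (l * G)) + 1) * (2 * (l * G)) := by gcongr
      _ = 8 * η * N * 2 ^ β / β + 2 * l * G := by
          field_simp
          ring
      _ ≤ 8 * η * N * 2 ^ β / β + 2 * B * G := by gcongr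
  have hsub : (Ico N (2 * N)).filter
      (fun a : ℕ => ¬ Gen B η (ρ * (a : ℝ) ^ (ci - M) * Q)) ⊆
      (Icc 1 B).biUnion (fun l => (Ico N (2 * N)).filter
        (fun a : ℕ => dI (l * (|ρ| * (a : ℝ) ^ (ci - M) * Q)) < η)) := by
    intro a ha
    rw [mem_filter] at ha
    obtain ⟨ha1, ha2⟩ := ha
    unfold Gen at ha2
    push Not at ha2
    obtain ⟨l, hl1, hl2, hl3⟩ := ha2
    rw [mem_biUnion]
    refine ⟨l, mem_Icc.2 ⟨hl1, hl2⟩, mem_filter.2 ⟨ha1, ?_⟩⟩
    rw [mul_assoc, dI_abs_mul] at hl3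
    rw [mul_assoc |ρ|]
    exact hl3
  have hcard : (((Ico N (2 * N)).filter
      (fun a : ℕ => ¬ Gen B η (ρ * (a : ℝ) ^ (ci - M) * Q))).card : ℝ) ≤
      B * (8 * η * N * 2 ^ β / β + 2 * B * G) := by
    have e1 := (card_le_card hsub).trans card_biUnion_le
    have e2 : (((Ico N (2 * N)).filter
      (fun a : ℕ => ¬ Gen B η (ρ * (a : ℝ) ^ (ci - M) * Q))).card : ℝ) ≤
      ∑ l ∈ Icc 1 B, (((Ico N (2 * N)).filter
        (fun a : ℕ => dI (l * (|ρ| * (a : ℝ) ^ (ci - M) * Q)) < η)).card : ℝ) := by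
      exact_mod_cast e1
    refine e2.trans ((sum_le_sum hl).trans (le_of_eq ?_))
    rw [sum_const, Nat.card_Icc, nsmul_eq_mul]
    simp
  refine hcard.trans ?_
  have hB0 : (0 : ℝ) ≤ B := by positivity
  have hB1 : (0 : ℝ) < (B : ℝ) + 1 := by positivity
  have f1 : B * (8 * η * N * 2 ^ β / β) ≤ ε / 2 * N := by
    calc B * (8 * η * N * 2 ^ β / β)
        ≤ ((B : ℝ) + 1) * (8 * (ε * β / (16 * ((B : ℝ) + 1) * 2 ^ β)) * N * 2 ^ β / β) := by
          gcongr
          linarith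
      _ = ε / 2 * N := by
          field_simp
          ring
  have f2 : B * (2 * B * G) ≤ ε / 2 * N := by
    have hG0 : 0 ≤ G := by linarith
    calc B * (2 * B * G) ≤ ((B : ℝ) + 1) * (2 * ((B : ℝ) + 1) * G) := by
          gcongr <;> linarith
      _ ≤ ((B : ℝ) + 1) * (2 * ((B : ℝ) + 1) * (ε / (4 * ((B : ℝ) + 1) ^ 2) * N)) := by
          gcongr
      _ = ε / 2 * N := by
          field_simp
          ring
  have f3 : B * (8 * η * N * 2 ^ β / β + 2 * B * G) =
      B * (8 * η * N * 2 ^ β / β) + B * (2 * B * G) := by ring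
  rw [f3]
  linarith

end Pool.Agent.Work.MP_215640_nt
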