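import Pool.Agent.Work.MP_215640_nt.Basic

/-!
MODULE PARAM. Choice of the parameters.

`c = cc w i`; `cc w j / c = 3^(a_j - a_i) 2^(i-j)` (integers exponents, `|a_j - a_i| ≤ K`,
`|i - j| ≤ K`). Take `M ≡ 1 mod 6` large, `δ > 0` tiny, `om = c / (M + δ)`, `mu = 2 δ om`.
`dg w om i = ⌊M + δ⌋ = M`, `c - om M = δ om < mu`. For `1 ≤ j ≤ K`, `cc w j < c`:
`cc w j / om = (M + δ) ρ`, `ρ = 3^x 2^y` (`x, y ∈ ℤ`, `ρ < 1`). If `x = 0` then `ρ = 2^y`, `y = i - j`,
and `ρ < 1` forces `y < 0`, i.e. `i < j`: `M 2^y` has fractional part in `[2^y, 1 - 2^y]` (`M` odd).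
In general `M ρ` is not an integer (`M` is prime to 6 and `ρ < 1` is not an integer), it is a fraction
with denominator `D = 2^(-y)` or `3^(-x)` or product `≤ 6^K`, so its fractional part is in
`[6^(-K), 1 - 6^(-K)]`; with `δ ρ < δ ≤ 6^(-K)/4` the fractional part of `(M+δ) ρ` is
`≥ 6^(-K) ≥ 2 δ`: `cc w j - om * dg = om * fract ≥ mu`. `dg w om j ≤ (M+δ) ρ < M` if
`δ < M (1-ρ)/ρ`, fine since `1 - ρ ≥ 6^(-K)`. (`M` so large that `om < cc w j` for `j ≤ K`,
`M > c`, `M ≥ 2`, `mu ≤ om` from `2 δ ≤ 1`.)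
-/

set_option autoImplicit false

namespace Pool.Agent.Work.MP_215640_nt

open Finset Polynomial Filter

theorem exists_ctx (w : ℕ → Bool) (K i : ℕ) (hi : 1 ≤ i) (hK : i ≤ K) :
    ∃ (om mu : ℝ) (M : ℕ), IsCtx w K i om mu M := by
  have hc : 0 < cc w i := cc_pos w i
  obtain ⟨c, hcdef⟩ : ∃ c, c = cc w i := ⟨_, rfl⟩
  rw [← hcdef] at hc
  have hterm : ∀ j, 0 < c / cc w j := fun j => div_pos hc (cc_pos w j)
  have hsum0 : 0 < ∑ j ∈ range (K + 1), c / cc w j :=
    sum_pos (fun j _ => hterm j) ⟨0, by simp⟩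
  obtain ⟨Q, hQ⟩ := exists_nat_gt (c + ∑ j ∈ range (K + 1), c / cc w j)
  have hQ0 : 0 < Q := by
    have : (0 : ℝ) < Q := by linarith
    exact_mod_cast this
  obtain ⟨M, hM⟩ : ∃ M : ℕ, M = 6 * Q + 1 := ⟨_, rfl⟩
  have hQM : (Q : ℝ) ≤ M := by
    have : Q ≤ M := by omega
    exact_mod_cast this
  have hM0 : (0 : ℝ) < M := by
    have : (0 : ℝ) < Q := by exact_mod_cast hQ0
    linarith
  obtain ⟨δ, hδ⟩ : ∃ δ : ℝ, δ = 1 / (4 * 6 ^ K) := ⟨_, rfl⟩
  have h6 : (1 : ℝ) ≤ 6 ^ K := one_le_pow₀ (by norm_num)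
  have hδ0 : 0 < δ := by rw [hδ]; positivity
  have hδ6 : 4 * δ * 6 ^ K = 1 := by rw [hδ]; field_simp
  have hδ1 : 2 * δ ≤ 1 := by nlinarith
  have hMδ : 0 < M + δ := by linarith
  obtain ⟨om, hom⟩ : ∃ om : ℝ, om = c / (M + δ) := ⟨_, rfl⟩
  have hom0 : 0 < om := by rw [hom]; positivity
  have homc : om * (M + δ) = c := by rw [hom]; field_simp
  have hcM : c < M := by linarith
  have hlt : ∀ j ≤ K, om < cc w j := by
    intro j hj
    have h1 : c / cc w j ≤ ∑ j ∈ range (K + 1), c / cc w j :=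
      single_le_sum (f := fun j => c / cc w j) (fun j _ => (hterm j).le)
        (mem_range.2 (by omega))
    have h2 : c / cc w j < M + δ := by linarith
    rw [div_lt_iff₀ (cc_pos w j)] at h2
    rw [hom, div_lt_iff₀ hMδ]
    linarith
  have hdiv : ∀ j, cc w j / om = (M + δ) * (cc w j / c) := by
    intro j
    rw [hom]
    field_simp
  refine ⟨om, 2 * δ * om, M, ?_⟩
  refine
    { one_le_i := hi
      i_le := hK
      om_pos := hom0
      om_lt := ?_
      om_lt_c := hlt
      dg_i := ?_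
      two_le_M := by omega
      c_lt_M := by rw [← hcdef]; exact hcM
      fr_pos := ?_
      fr_lt := ?_
      mu_le := ?_
      lower := ?_ }
  · rw [hom, div_lt_one hMδ]
    linarith
  · unfold dg
    rw [hdiv, ← hcdef, div_self hc.ne', mul_one]
    rw [Nat.floor_eq_iff hMδ.le]
    constructor
    · linarith
    · linarith
  · rw [← hcdef]
    have : c - om * M = om * δ := by rw [← homc]; ring
    rw [this]
    positivity
  · rw [← hcdef]
    have : c - om * M = om * δ := by rw [← homc]; ring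
    rw [this]
    nlinarith
  · nlinarith
  · intro j hj1 hjK hjc
    obtain ⟨Aj, hAj⟩ : ∃ Aj, Aj = ((range j).filter (fun i => w i = true)).card := ⟨_, rfl⟩
    obtain ⟨Ai, hAi⟩ : ∃ Ai, Ai = ((range i).filter (fun i => w i = true)).card := ⟨_, rfl⟩
    have e1 : cc w j = (3 : ℝ) ^ Aj / 2 ^ j := by rw [cc_eq, hAj]
    have e2 : c = (3 : ℝ) ^ Ai / 2 ^ i := by rw [hcdef, cc_eq, hAi]
    have hAiK : Ai ≤ K := by
      rw [hAi]
      have := card_filter_le (range i) (fun i => w i = true)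
      rw [card_range] at this
      omega
    obtain ⟨p, hp⟩ : ∃ p : ℕ, p = 3 ^ Aj * 2 ^ i := ⟨_, rfl⟩
    obtain ⟨q, hq⟩ : ∃ q : ℕ, q = 3 ^ Ai * 2 ^ j := ⟨_, rfl⟩
    have hp0 : 0 < p := by rw [hp]; positivity
    have hq0 : 0 < q := by rw [hq]; positivity
    have hρ : cc w j / c = (p : ℝ) / q := by
      rw [e1, e2, hp, hq]
      push_cast
      field_simp
    have hq6 : (q : ℝ) ≤ 6 ^ K := by
      rw [hq]
      push_cast
      have h1 : (3 : ℝ) ^ Ai ≤ 3 ^ K := pow_le_pow_right₀ (by norm_num) hAiK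
      have h2 : (2 : ℝ) ^ j ≤ 2 ^ K := pow_le_pow_right₀ (by norm_num) hjK
      calc (3 : ℝ) ^ Ai * 2 ^ j ≤ 3 ^ K * 2 ^ K := mul_le_mul h1 h2 (by positivity) (by positivity)
        _ = 6 ^ K := by rw [← mul_pow]; norm_num
    have hqR : (0 : ℝ) < q := by exact_mod_cast hq0
    have hpR : (0 : ℝ) < p := by exact_mod_cast hp0
    have hρ1 : cc w j / c < 1 := by
      rw [div_lt_one hc, hcdef]; exact hjc
    have hpq : p < q := by
      rw [hρ, div_lt_one hqR] at hρ1
      exact_mod_cast hρ1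
    have hcop : Nat.Coprime q M := by
      rw [hq]
      apply Nat.Coprime.mul_left
      · apply Nat.Coprime.pow_left
        rw [hM]
        rw [Nat.coprime_comm]
        rw [show 6 * Q + 1 = 1 + (2 * Q) * 3 by ring]
        simp
      · apply Nat.Coprime.pow_left
        rw [hM]
        rw [Nat.coprime_comm]
        rw [show 6 * Q + 1 = 1 + (3 * Q) * 2 by ring]
        simp
    have hr : M * p % q ≠ 0 := by
      intro h0
      have h1 : q ∣ M * p := Nat.dvd_of_mod_eq_zero h0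
      have h2 : q ∣ p := hcop.dvd_of_dvd_mul_left h1
      have := Nat.le_of_dvd hp0 h2
      omega
    obtain ⟨m, hm⟩ : ∃ m, m = M * p / q := ⟨_, rfl⟩
    obtain ⟨r, hrdef⟩ : ∃ r, r = M * p % q := ⟨_, rfl⟩
    have hr1 : 1 ≤ r := by omega
    have hrq : r < q := by rw [hrdef]; exact Nat.mod_lt _ hq0
    have hdm : q * m + r = M * p := by rw [hm, hrdef]; exact Nat.div_add_mod _ _
    have hdmR : (q : ℝ) * m + r = M * p := by exact_mod_cast hdm
    have hMp : (M : ℝ) * ((p : ℝ) / q) = m + r / q := by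
      field_simp
      linarith
    have hval : cc w j / om = m + (r / q + δ * (p / q)) := by
      rw [hdiv, hρ, add_mul, hMp]
      ring
    have hδq : 4 * δ * q ≤ 1 := by
      calc 4 * δ * q ≤ 4 * δ * 6 ^ K := by gcongr
        _ = 1 := hδ6
    have hr1R : (1 : ℝ) ≤ r := by exact_mod_cast hr1
    have hrqR : (r : ℝ) + 1 ≤ q := by exact_mod_cast hrq
    have hfr0 : 2 * δ ≤ r / q + δ * (p / q) := by
      have h1 : 2 * δ ≤ (r : ℝ) / q := by
        rw [le_div_iff₀ hqR]
        linarith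
      have h2 : 0 ≤ δ * ((p : ℝ) / q) := by positivity
      linarith
    have hfr1 : (r : ℝ) / q + δ * (p / q) < 1 := by
      have h1 : (p : ℝ) / q < 1 := by rw [← hρ]; exact hρ1
      have h2 : δ * ((p : ℝ) / q) < δ := by nlinarith
      have h3 : (r : ℝ) / q ≤ 1 - 1 / q := by
        rw [div_le_iff₀ hqR]
        have : (1 - 1 / (q : ℝ)) * q = q - 1 := by field_simp
        rw [this]
        linarith
      have h4 : δ ≤ 1 / q := by
        rw [le_div_iff₀ hqR]
        nlinarith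
      linarith
    have hdg : dg w om j = m := by
      unfold dg
      rw [Nat.floor_eq_iff (div_nonneg (cc_pos w j).le hom0.le), hval]
      constructor
      · linarith
      · linarith
    rw [hdg]
    constructor
    · have h1 : (m : ℝ) < M := by
        have h2 : (M : ℝ) * ((p : ℝ) / q) < M := by
          have : (p : ℝ) / q < 1 := by rw [← hρ]; exact hρ1
          nlinarith
        rw [hMp] at h2
        have : (0 : ℝ) ≤ r / q := by positivity
        linarith
      exact_mod_cast h1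
    · have h1 : cc w j = om * (m + (r / q + δ * (p / q))) := by
        rw [← hval]
        field_simp
      rw [h1]
      have : om * (m + (r / q + δ * (p / q))) - om * m = om * (r / q + δ * (p / q)) := by ring
      rw [this]
      nlinarith

end Pool.Agent.Work.MP_215640_nt
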