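import Pool.Agent.Work.MP_215640_nt.Basic

/-!
MODULE PARITY. The top coefficient of level `i` is not zero: 2-adic argument.

`bser_odd`: with `h_r = 2^(m r) r! P_r` (integers, `h_0 = 1`, `h_1` odd) and `G = P - 1`:
`b_{k,r} := 2^(m r) r! [X^r] (G^k / k!)` is an integer for all `k, r`: `b_{0,r} = [r = 0]`, and from
the derivative `(G^(k+1)/(k+1)!)' = (G^k/k!) G'`:
`b_{k+1,r+1} = ∑_{j ≤ r} (r choose j) b_{k,j} h_{r-j+1}`, `b_{k+1,0} = 0`; also `b_{k,r} = 0` for
`r < k` and `b_{k,k} = h_1^k`. Since `k! * Ring.choose γ k = γ (γ-1) ... (γ-k+1)` and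
`2^t (γ - i) = 3^u - i 2^t` is odd (`t ≥ 1`), `2^(t k) k! Ring.choose γ k` is an odd integer `o_k`, so
`2^((m+t) D) D! [X^D] bser = ∑_{k ≤ D} o_k 2^(t (D-k)) b_{k,D}`, where the term `k = D` is odd and the
others are even.

`Pst_odd`: strong induction on `j` with `bser_odd` for `m = pr w j`, `t = j - pr w j` (`gam_eq`),
`m + t = j`.
-/

set_option autoImplicit false

namespace Pool.Agent.Work.MP_215640_nt

open Finset Polynomial

private theorem par_fact_choose (γ : ℝ) (n : ℕ) :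
    (n.factorial : ℝ) * Ring.choose γ n = ∏ j ∈ range n, (γ - j) := by
  have h1 : (descPochhammer ℤ n).smeval γ = ∏ j ∈ range n, (γ - j) := by
    induction n with
    | zero => simp
    | succ n ih =>
      rw [descPochhammer_succ_right, smeval_mul, ih, prod_range_succ, smeval_sub, smeval_X,
        smeval_natCast]
      simp
  rw [← h1, Ring.descPochhammer_eq_factorial_smul_choose, nsmul_eq_mul]

private theorem par_odd_fact (t u : ℕ) (ht : 1 ≤ t) (i : ℕ) :
    ∃ o : ℤ, Odd o ∧ (2 : ℝ) ^ (t * i) * ((i.factorial : ℝ) *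
      Ring.choose ((3 : ℝ) ^ u / 2 ^ t) i) = o := by
  rw [par_fact_choose]
  induction i with
  | zero => exact ⟨1, odd_one, by simp⟩
  | succ i ih =>
    obtain ⟨o, ho, h⟩ := ih
    refine ⟨o * (3 ^ u - i * 2 ^ t), ?_, ?_⟩
    · refine ho.mul ?_
      have h1 : Odd ((3 : ℤ) ^ u) := Odd.pow (by decide)
      have h2 : Even ((i : ℤ) * 2 ^ t) := by
        obtain ⟨c, rfl⟩ := Nat.exists_eq_add_of_le ht
        rw [add_comm, pow_succ]
        exact ((even_two.mul_left _).mul_left _)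
      exact h1.sub_even h2
    · rw [prod_range_succ, mul_add, mul_one, pow_add]
      push_cast
      rw [← h]
      have h3 : (2 : ℝ) ^ t * ((3 : ℝ) ^ u / 2 ^ t - i) = 3 ^ u - i * 2 ^ t := by
        field_simp
      calc (2 : ℝ) ^ (t * i) * 2 ^ t * ((∏ j ∈ range i, ((3 : ℝ) ^ u / 2 ^ t - j)) *
            ((3 : ℝ) ^ u / 2 ^ t - i))
          = (2 : ℝ) ^ (t * i) * (∏ j ∈ range i, ((3 : ℝ) ^ u / 2 ^ t - j)) *
            ((2 : ℝ) ^ t * ((3 : ℝ) ^ u / 2 ^ t - i)) := by ring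
        _ = _ := by rw [h3]

private theorem par_int (m : ℕ) (G : ℝ[X]) (h0 : G.coeff 0 = 0)
    (hint : ∀ r : ℕ, ∃ o : ℤ, (2 : ℝ) ^ (m * r) * (r.factorial : ℝ) * G.coeff r = o) (k : ℕ) :
    ∀ r : ℕ, ∃ o : ℤ,
      (2 : ℝ) ^ (m * r) * (r.factorial : ℝ) * ((G ^ k).coeff r / (k.factorial : ℝ)) = o := by
  induction k with
  | zero =>
    intro r
    rcases Nat.eq_zero_or_pos r with h | h
    · subst h; exact ⟨1, by simp⟩
    · refine ⟨0, ?_⟩
      rw [pow_zero, coeff_one, if_neg (by omega)]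
      simp
  | succ k ih =>
    intro r
    rcases r with _ | r
    · refine ⟨0, ?_⟩
      have h1 : (G ^ (k + 1)).coeff 0 = 0 := by
        rw [coeff_zero_eq_eval_zero, eval_pow, ← coeff_zero_eq_eval_zero, h0]
        simp
      rw [h1]
      simp
    · choose a ha using ih
      choose b hb using hint
      refine ⟨∑ x ∈ antidiagonal r, (r.choose x.1 : ℤ) * a x.1 * b (x.2 + 1), ?_⟩
      have h1 : derivative (G ^ (k + 1)) = C ((k : ℝ) + 1) * G ^ k * derivative G := by
        rw [derivative_pow]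
        simp
      have h2 : (derivative (G ^ (k + 1))).coeff r = (G ^ (k + 1)).coeff (r + 1) * (r + 1) :=
        coeff_derivative _ _
      rw [h1, mul_assoc, coeff_C_mul, coeff_mul] at h2
      simp only [coeff_derivative] at h2
      have h3 : (G ^ (k + 1)).coeff (r + 1) = (((k : ℝ) + 1) *
          ∑ x ∈ antidiagonal r, (G ^ k).coeff x.1 * (G.coeff (x.2 + 1) * (x.2 + 1))) / (r + 1) := by
        rw [h2]
        have : (r : ℝ) + 1 ≠ 0 := by positivity
        field_simp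
      rw [h3]
      push_cast
      rw [Nat.factorial_succ, Nat.factorial_succ]
      push_cast
      have hk : (k : ℝ) + 1 ≠ 0 := by positivity
      have hr : (r : ℝ) + 1 ≠ 0 := by positivity
      have hkf : (k.factorial : ℝ) ≠ 0 := by positivity
      have h4 : (2 : ℝ) ^ (m * (r + 1)) * (((r : ℝ) + 1) * r.factorial) *
          ((((k : ℝ) + 1) * ∑ x ∈ antidiagonal r, (G ^ k).coeff x.1 *
            (G.coeff (x.2 + 1) * (x.2 + 1))) / (r + 1) / (((k : ℝ) + 1) * k.factorial)) =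
          ∑ x ∈ antidiagonal r, (2 : ℝ) ^ (m * (r + 1)) * r.factorial *
            ((G ^ k).coeff x.1 / k.factorial * (G.coeff (x.2 + 1) * (x.2 + 1))) := by
        rw [← mul_sum]
        have h5 : ∑ x ∈ antidiagonal r, ((G ^ k).coeff x.1 / (k.factorial : ℝ) *
            (G.coeff (x.2 + 1) * (x.2 + 1))) = (∑ x ∈ antidiagonal r, (G ^ k).coeff x.1 *
            (G.coeff (x.2 + 1) * (x.2 + 1))) / k.factorial := by
          rw [sum_div]
          refine sum_congr rfl fun x _ => ?_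
          ring
        rw [h5]
        field_simp
      rw [h4]
      refine sum_congr rfl fun x hx => ?_
      rw [HasAntidiagonal.mem_antidiagonal] at hx
      rw [← ha, ← hb]
      have h6 : (r.factorial : ℝ) = (r.choose x.1 : ℝ) * x.1.factorial * x.2.factorial := by
        rw [← hx]
        have := Nat.add_choose_mul_factorial_mul_factorial x.1 x.2
        rw [Nat.choose_symm_add]
        exact_mod_cast this.symm
      rw [h6, Nat.factorial_succ]
      push_cast
      have h7 : (2 : ℝ) ^ (m * (r + 1)) = 2 ^ (m * x.1) * 2 ^ (m * (x.2 + 1)) := by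
        rw [← pow_add, ← mul_add, ← hx, add_assoc]
      rw [h7]
      ring

private theorem par_diag (G : ℝ[X]) (h0 : G.coeff 0 = 0) (k : ℕ) :
    (G ^ k).coeff k = G.coeff 1 ^ k := by
  obtain ⟨Q, hQ⟩ : X ∣ G := by rw [X_dvd_iff]; exact h0
  have h1 : G.coeff 1 = Q.coeff 0 := by
    rw [hQ, show (1 : ℕ) = 0 + 1 by rfl, coeff_X_mul]
  have h2 : (G ^ k).coeff k = (Q ^ k).coeff 0 := by
    rw [hQ, mul_pow]
    have := coeff_X_pow_mul (Q ^ k) k 0
    rwa [zero_add] at this
  rw [h2, h1, coeff_zero_eq_eval_zero, eval_pow, ← coeff_zero_eq_eval_zero]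

theorem bser_odd (m t u : ℕ) (ht : 1 ≤ t) (P : ℝ[X]) (h0 : P.coeff 0 = 1)
    (hint : ∀ r : ℕ, ∃ o : ℤ, (2 : ℝ) ^ (m * r) * (r.factorial : ℝ) * P.coeff r = o)
    (h1 : ∃ o : ℤ, Odd o ∧ (2 : ℝ) ^ m * P.coeff 1 = o) (D k : ℕ) (hk : D ≤ k) :
    ∃ o : ℤ, Odd o ∧ (2 : ℝ) ^ ((m + t) * D) * (D.factorial : ℝ) *
      (bser ((3 : ℝ) ^ u / 2 ^ t) k P).coeff D = o := by
  rw [bser_coeff_eq _ P h0 hk (le_refl D)]
  have hG0 : (P - 1).coeff 0 = 0 := by simp [h0]
  have hGr : ∀ r, 1 ≤ r → (P - 1).coeff r = P.coeff r := by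
    intro r hr
    rw [coeff_sub, coeff_one, if_neg (by omega), sub_zero]
  have hGint : ∀ r : ℕ, ∃ o : ℤ,
      (2 : ℝ) ^ (m * r) * (r.factorial : ℝ) * (P - 1).coeff r = o := by
    intro r
    rcases Nat.eq_zero_or_pos r with h | h
    · subst h; exact ⟨0, by rw [hG0]; simp⟩
    · rw [hGr r h]; exact hint r
  have hb := fun i => par_int m (P - 1) hG0 hGint i D
  choose b hb using hb
  have ho := fun i => par_odd_fact t u ht i
  choose o ho1 ho2 using ho
  have hterm : ∀ i ∈ range (D + 1), (2 : ℝ) ^ ((m + t) * D) * (D.factorial : ℝ) *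
      (Ring.choose ((3 : ℝ) ^ u / 2 ^ t) i * ((P - 1) ^ i).coeff D) =
      ((o i * 2 ^ (t * (D - i)) * b i : ℤ) : ℝ) := by
    intro i hi
    have hi' : i ≤ D := Nat.lt_succ_iff.1 (mem_range.1 hi)
    push_cast
    rw [← ho2, ← hb]
    have h2 : (2 : ℝ) ^ ((m + t) * D) = 2 ^ (m * D) * (2 ^ (t * i) * 2 ^ (t * (D - i))) := by
      rw [← pow_add, ← pow_add, ← mul_add, Nat.add_sub_cancel' hi', add_mul]
    rw [h2]
    have h3 : (i.factorial : ℝ) ≠ 0 := by positivity
    field_simp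
  have hsum : (2 : ℝ) ^ ((m + t) * D) * (D.factorial : ℝ) *
      (bser ((3 : ℝ) ^ u / 2 ^ t) D P).coeff D =
      ((∑ i ∈ range (D + 1), (o i * 2 ^ (t * (D - i)) * b i) : ℤ) : ℝ) := by
    unfold bser
    rw [finsetSum_coeff, mul_sum, Int.cast_sum]
    refine sum_congr rfl fun i hi => ?_
    rw [coeff_C_mul]
    exact hterm i hi
  refine ⟨_, ?_, hsum⟩
  rw [sum_range_succ]
  apply Even.add_odd
  · refine even_sum _ fun i hi => ?_
    have hi' := mem_range.1 hi
    have : Even ((2 : ℤ) ^ (t * (D - i))) := by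
      have h4 : 1 ≤ t * (D - i) := Nat.mul_pos ht (by omega)
      obtain ⟨c, hc⟩ := Nat.exists_eq_add_of_le h4
      rw [hc, add_comm, pow_succ]
      exact even_two.mul_left _
    exact (this.mul_left _).mul_right _
  · rw [Nat.sub_self, mul_zero, pow_zero, mul_one]
    refine (ho1 D).mul ?_
    obtain ⟨c, hc1, hc2⟩ := h1
    have h5 : b D = c ^ D := by
      have h6 := hb D
      rw [par_diag _ hG0, hGr 1 (le_refl 1)] at h6
      have h7 : (2 : ℝ) ^ (m * D) * (D.factorial : ℝ) *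
          (P.coeff 1 ^ D / (D.factorial : ℝ)) = ((c : ℝ)) ^ D := by
        rw [← hc2, mul_pow, ← pow_mul]
        have h3 : (D.factorial : ℝ) ≠ 0 := by positivity
        field_simp
      rw [h7] at h6
      exact_mod_cast h6.symm
    rw [h5]
    exact hc1.pow

theorem Pst_odd (w : ℕ → Bool) (d : ℕ → ℕ) (K : ℕ) (hd : ∀ j ≤ K, 1 ≤ d j) (j : ℕ) (hj : j ≤ K) :
    (∀ r : ℕ, ∃ o : ℤ, (2 : ℝ) ^ (j * r) * (r.factorial : ℝ) * (Pst w d j).coeff r = o) ∧
    (∀ r : ℕ, 1 ≤ j → r ≤ d j → ∃ o : ℤ, Odd o ∧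
      (2 : ℝ) ^ (j * r) * (r.factorial : ℝ) * (Pst w d j).coeff r = o) ∧
    (∃ o : ℤ, Odd o ∧ (2 : ℝ) ^ j * (Pst w d j).coeff 1 = o) := by
  induction j using Nat.strong_induction_on with
  | _ j ih =>
    rcases Nat.eq_zero_or_pos j with h | h
    · subst h
      refine ⟨?_, ?_, ?_⟩
      · intro r
        rw [Pst_zero, coeff_add, coeff_one, coeff_X]
        rcases r with _ | _ | r
        · exact ⟨1, by simp⟩
        · exact ⟨1, by simp⟩
        · refine ⟨0, ?_⟩
          rw [if_neg (by omega), if_neg (by omega)]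
          simp
      · intro r h1; omega
      · exact ⟨1, odd_one, by rw [Pst_zero]; simp [coeff_one]⟩
    · obtain ⟨i1, -, i3⟩ := ih (pr w j) (pr_lt w j (by omega)) ((pr_lt w j (by omega)).le.trans hj)
      obtain ⟨u, hu⟩ := gam_eq w j h
      have hpr := pr_lt w j (by omega)
      have key : ∀ r ≤ d j, ∃ o : ℤ, Odd o ∧
          (2 : ℝ) ^ (j * r) * (r.factorial : ℝ) * (Pst w d j).coeff r = o := by
        intro r hr
        obtain ⟨o, ho1, ho2⟩ := bser_odd (pr w j) (j - pr w j) u (by omega) (Pst w d (pr w j))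
          (Pst_coeff_zero w d _) i1 i3 r (d j) hr
        refine ⟨o, ho1, ?_⟩
        rw [Nat.add_sub_cancel' hpr.le, ← hu] at ho2
        rw [Pst_succ w d h, trunc_coeff, if_pos hr]
        exact ho2
      refine ⟨?_, fun r _ hr => key r hr, ?_⟩
      · intro r
        by_cases hr : r ≤ d j
        · obtain ⟨o, -, ho⟩ := key r hr
          exact ⟨o, ho⟩
        · refine ⟨0, ?_⟩
          rw [Pst_succ w d h, trunc_coeff, if_neg hr]
          simp
      · obtain ⟨o, ho1, ho2⟩ := key 1 (hd j hj)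
        exact ⟨o, ho1, by simpa using ho2⟩

theorem Pst_top_ne_zero {w : ℕ → Bool} {K i : ℕ} {om mu : ℝ} {M : ℕ}
    (h : IsCtx w K i om mu M) : (Pst w (dg w om) i).coeff M ≠ 0 := by
  have hd : ∀ j ≤ K, 1 ≤ dg w om j := by
    intro j hj
    unfold dg
    rw [Nat.one_le_floor_iff, le_div_iff₀ h.om_pos, one_mul]
    exact (h.om_lt_c j hj).le
  obtain ⟨o, ho1, ho2⟩ := (Pst_odd w (dg w om) K hd i h.i_le).2.1 M h.one_le_i h.dg_i.ge
  intro h0
  rw [h0, mul_zero] at ho2
  have : o = 0 := by exact_mod_cast ho2.symm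
  rw [this] at ho1
  exact absurd ho1 (by decide)

end Pool.Agent.Work.MP_215640_nt
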