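import Pool.Agent.Work.MP_215640_nt.Recur
import Pool.Agent.Work.MP_215640_nt.Parity
import Pool.Agent.Work.MP_215640_nt.Param
import Pool.Agent.Work.MP_215640_nt.GenMost

/-!
MODULE HALF. Each level is equidistributed given the parities of the levels with smaller exponents.

`avg_shift`: `∑_{n ∈ [N,2N)} f n` and `∑_{n ∈ [N,2N)} f (n + s)` differ by at most `2 s`; sum over
the shifts `s = T q v`, `v < V`.

`arc_of_half`: sum the hypothesis over all patterns: `∑_{A ∈ J.powerset} gf w (fun j => decide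
(j ∈ A)) J i α β n = 1_{fract(x_i/2) ∈ [α,β)} - (β - α)` (exactly one `A` fits `n`).

`near_small`: `dI x ≤ ε` implies `fract(x/2) ∈ [0, ε) ∪ [1/2 - ε, 1/2 + ε) ∪ [1 - ε, 1)`
(`0 < ε ≤ 1/4`), and `near w S ε n ≤ ∑_{j ∈ S} 1_{dI (x_j n) ≤ ε}`.

`half`: strong induction on `(Sm w K i).card`. For `j ∈ S = Sm w K i`: `Sm w K j ⊂ S` (strictly, `j`
is not in it), so the levels in `S` satisfy the claim (for all `π α β`), hence `near_small`.
Given `ε0 > 0`: choose `ε` (small w.r.t. `S.card`) with `ε + 4 ε S.card + ... ≤ ε0`; `exists_ctx` gives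
`om mu M`; `recur` gives `B`; `gen_most` with `ρ = (1/2) (Pst w (dg w om) i).coeff M * 2^M ≠ 0`
(`Pst_top_ne_zero`) gives `η`; `recur` gives `V0` (take `V = V0 + 1`), `L = 2 V`. For large `N`:
`avg_shift` with `q = 2`, `T = Tz om N` (`T = o(N)`), `u = 0`: `V |∑_{n ∈ [N,2N)} gf n| ≤
∑_{a ∈ [N,2N)} |∑_{v<V} gf (a + T (0 + 2 v))| + 4 T V^2`; for generic `a` use `recur`, for the others
the trivial bound `V`; and `∑_a ∑_v near (a + T (2 v)) ≤ V ∑_n near n + 4 T V^2`.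
-/

set_option autoImplicit false

namespace Pool.Agent.Work.MP_215640_nt

open Finset Polynomial Filter

private theorem hf_arc_le (α β x : ℝ) : 0 ≤ arc α β x ∧ arc α β x ≤ 1 := by
  unfold arc; split_ifs <;> norm_num

private theorem hf_near (w : ℕ → Bool) (S : Finset ℕ) (ε : ℝ) (n : ℕ) :
    0 ≤ near w S ε n ∧ near w S ε n ≤ 1 := by
  unfold near; split_ifs <;> norm_num

theorem abs_gf_le (w : ℕ → Bool) (π : ℕ → Bool) (J : Finset ℕ) (i : ℕ) (α β : ℝ) (n : ℕ)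
    (h0 : 0 ≤ α) (h1 : α ≤ β) (h2 : β ≤ 1) : |gf w π J i α β n| ≤ 1 := by
  unfold gf
  split_ifs
  · have := hf_arc_le α β (xx w i n / 2)
    rw [abs_le]
    constructor <;> linarith
  · simp

private theorem hf_shift (f : ℕ → ℝ) (hf : ∀ n, |f n| ≤ 1) (N s : ℕ) :
    |∑ n ∈ Ico N (2 * N), f n - ∑ a ∈ Ico N (2 * N), f (a + s)| ≤ 2 * s := by
  rcases Nat.eq_zero_or_pos N with hN | hN
  · subst hN; simp
  · induction s with
    | zero => simp
    | succ s ih =>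
      have h1 : ∑ a ∈ Ico N (2 * N), f (a + (s + 1)) =
          ∑ a ∈ Ico N (2 * N), f (a + s) - f (N + s) + f (2 * N + s) := by
        have e1 : ∑ a ∈ Ico N (2 * N), f (a + (s + 1)) = ∑ a ∈ Ico (N + 1) (2 * N + 1), f (a + s) := by
          rw [← Finset.sum_Ico_add' (fun a => f (a + s)) N (2 * N) 1]
          refine sum_congr rfl fun a _ => ?_
          congr 1
          ring
        have e2 : ∑ a ∈ Ico N (2 * N + 1), f (a + s) =
            ∑ a ∈ Ico N (2 * N), f (a + s) + f (2 * N + s) :=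
          Finset.sum_Ico_succ_top (by omega) _
        have e3 : ∑ a ∈ Ico N (2 * N + 1), f (a + s) =
            f (N + s) + ∑ a ∈ Ico (N + 1) (2 * N + 1), f (a + s) :=
          Finset.sum_eq_sum_Ico_succ_bot (by omega) _
        linarith
      have h2 := hf (N + s)
      have h3 := hf (2 * N + s)
      rw [abs_le] at ih h2 h3 ⊢
      rw [h1]
      push_cast
      constructor <;> linarith [ih.1, ih.2, h2.1, h2.2, h3.1, h3.2]

theorem avg_shift (f : ℕ → ℝ) (hf : ∀ n, |f n| ≤ 1) (N T q V : ℕ) :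
    |V * ∑ n ∈ Ico N (2 * N), f n - ∑ a ∈ Ico N (2 * N), ∑ v ∈ range V, f (a + T * (0 + q * v))|
      ≤ 2 * T * q * V ^ 2 := by
  rw [sum_comm]
  have h1 : (V : ℝ) * ∑ n ∈ Ico N (2 * N), f n = ∑ _v ∈ range V, ∑ n ∈ Ico N (2 * N), f n := by
    rw [sum_const, card_range, nsmul_eq_mul]
  rw [h1, ← sum_sub_distrib]
  calc |∑ v ∈ range V, (∑ n ∈ Ico N (2 * N), f n - ∑ a ∈ Ico N (2 * N), f (a + T * (0 + q * v)))|
      ≤ ∑ v ∈ range V, |∑ n ∈ Ico N (2 * N), f n - ∑ a ∈ Ico N (2 * N), f (a + T * (0 + q * v))| :=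
        abs_sum_le_sum_abs _ _
    _ ≤ ∑ _v ∈ range V, 2 * ((T : ℝ) * (q * V)) := by
        refine sum_le_sum fun v hv => ?_
        refine (hf_shift f hf N (T * (0 + q * v))).trans ?_
        have hvV : (v : ℝ) ≤ V := by exact_mod_cast (mem_range.1 hv).le
        push_cast
        rw [zero_add]
        gcongr
    _ = 2 * T * q * V ^ 2 := by
        rw [sum_const, card_range, nsmul_eq_mul]
        ring

theorem arc_of_half (w : ℕ → Bool) (J : Finset ℕ) (j : ℕ)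
    (H : ∀ (π : ℕ → Bool) (α β : ℝ), 0 ≤ α → α ≤ β → β ≤ 1 →
      Tendsto (fun N : ℕ => (∑ n ∈ Ico N (2 * N), gf w π J j α β n) / N) atTop (nhds 0))
    (α β : ℝ) (h0 : 0 ≤ α) (h1 : α ≤ β) (h2 : β ≤ 1) :
    Tendsto (fun N : ℕ => (∑ n ∈ Ico N (2 * N), arc α β (xx w j n / 2)) / N) atTop
      (nhds (β - α)) := by
  classical
  have key : ∀ n, ∑ A ∈ J.powerset, gf w (fun j => decide (j ∈ A)) J j α β n =
      arc α β (xx w j n / 2) - (β - α) := by
    intro n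
    rw [sum_eq_single (J.filter fun j => F w j n % 2 = 1)]
    · unfold gf
      rw [if_pos]
      intro l hl
      simp [hl]
    · intro A hA hne
      unfold gf
      rw [if_neg]
      intro hp
      apply hne
      ext l
      rw [mem_powerset] at hA
      rw [mem_filter]
      constructor
      · intro hl
        refine ⟨hA hl, ?_⟩
        rw [hp l (hA hl)]
        simpa using hl
      · rintro ⟨hl, hl2⟩
        rw [hp l hl] at hl2
        simpa using hl2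
    · intro hn
      exact absurd (mem_powerset.2 (filter_subset _ _)) hn
  have hT : Tendsto (fun N : ℕ => (∑ A ∈ J.powerset, (∑ n ∈ Ico N (2 * N),
      gf w (fun j => decide (j ∈ A)) J j α β n) / (N : ℝ)) + (β - α)) atTop (nhds (β - α)) := by
    have h3 := tendsto_finsetSum J.powerset (fun A _ => H (fun j => decide (j ∈ A)) α β h0 h1 h2)
    have h4 := h3.add_const (β - α)
    simpa using h4
  refine hT.congr' ?_
  filter_upwards [eventually_ge_atTop 1] with N hN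
  have hNR : (0 : ℝ) < N := by exact_mod_cast hN
  rw [← sum_div, sum_comm, sum_congr rfl (fun n _ => key n), sum_sub_distrib, sum_const,
    Nat.card_Ico, nsmul_eq_mul]
  have : ((2 * N - N : ℕ) : ℝ) = N := by
    rw [show 2 * N - N = N by omega]
  rw [this]
  field_simp
  ring

private theorem hf_cover (x ε : ℝ) (h0 : 0 < ε) (h1 : ε ≤ 1 / 4) (hx : dI x ≤ ε) :
    1 ≤ arc 0 ε (x / 2) + arc (1 / 2 - ε) (1 / 2 + ε) (x / 2) + arc (1 - ε) 1 (x / 2) := by
  obtain ⟨z, hz⟩ := exists_int_dI x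
  rw [← hz] at hx
  have hf0 := Int.fract_nonneg (x / 2)
  have hf1 := Int.fract_lt_one (x / 2)
  have hfx : x = 2 * ⌊x / 2⌋ + 2 * Int.fract (x / 2) := by
    have := Int.floor_add_fract (x / 2)
    linarith
  obtain ⟨y, hy⟩ : ∃ y : ℤ, y = z - 2 * ⌊x / 2⌋ := ⟨_, rfl⟩
  have hy' : x - z = 2 * Int.fract (x / 2) - y := by
    rw [hy]; push_cast; linarith
  rw [hy', abs_le] at hx
  have hy0 : 0 ≤ y := by
    by_contra hcon
    have : y ≤ -1 := by omega
    have : (y : ℝ) ≤ -1 := by exact_mod_cast this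
    linarith [hx.2]
  have hy2 : y ≤ 2 := by
    by_contra hcon
    have : 3 ≤ y := by omega
    have : (3 : ℝ) ≤ y := by exact_mod_cast this
    linarith [hx.1]
  have a1 := hf_arc_le 0 ε (x / 2)
  have a2 := hf_arc_le (1 / 2 - ε) (1 / 2 + ε) (x / 2)
  have a3 := hf_arc_le (1 - ε) 1 (x / 2)
  interval_cases y
  · have : arc 0 ε (x / 2) = 1 := by
      unfold arc
      rw [if_pos]
      push_cast at hx
      exact ⟨hf0, by linarith [hx.2]⟩
    linarith
  · have : arc (1 / 2 - ε) (1 / 2 + ε) (x / 2) = 1 := by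
      unfold arc
      rw [if_pos]
      push_cast at hx
      exact ⟨by linarith [hx.1], by linarith [hx.2]⟩
    linarith
  · have : arc (1 - ε) 1 (x / 2) = 1 := by
      unfold arc
      rw [if_pos]
      push_cast at hx
      exact ⟨by linarith [hx.1], hf1⟩
    linarith

theorem near_small (w : ℕ → Bool) (S : Finset ℕ)
    (H : ∀ j ∈ S, ∀ (α β : ℝ), 0 ≤ α → α ≤ β → β ≤ 1 →
      Tendsto (fun N : ℕ => (∑ n ∈ Ico N (2 * N), arc α β (xx w j n / 2)) / N) atTop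
        (nhds (β - α))) (ε : ℝ) (h0 : 0 < ε) (h1 : ε ≤ 1 / 4) :
    ∀ᶠ N : ℕ in atTop, (∑ n ∈ Ico N (2 * N), near w S ε n) ≤ 5 * ε * S.card * N := by
  classical
  have hpt : ∀ n, near w S ε n ≤ ∑ j ∈ S, (arc 0 ε (xx w j n / 2) +
      arc (1 / 2 - ε) (1 / 2 + ε) (xx w j n / 2) + arc (1 - ε) 1 (xx w j n / 2)) := by
    intro n
    have hnn : ∀ j, 0 ≤ arc 0 ε (xx w j n / 2) +
        arc (1 / 2 - ε) (1 / 2 + ε) (xx w j n / 2) + arc (1 - ε) 1 (xx w j n / 2) := by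
      intro j
      have a1 := hf_arc_le 0 ε (xx w j n / 2)
      have a2 := hf_arc_le (1 / 2 - ε) (1 / 2 + ε) (xx w j n / 2)
      have a3 := hf_arc_le (1 - ε) 1 (xx w j n / 2)
      linarith
    unfold near
    split_ifs with h
    · obtain ⟨j, hj, hd⟩ := h
      exact (hf_cover _ ε h0 h1 hd).trans (single_le_sum (fun j _ => hnn j) hj)
    · exact sum_nonneg fun j _ => hnn j
  have hj : ∀ j ∈ S, ∀ᶠ N : ℕ in atTop, ∑ n ∈ Ico N (2 * N), (arc 0 ε (xx w j n / 2) +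
      arc (1 / 2 - ε) (1 / 2 + ε) (xx w j n / 2) + arc (1 - ε) 1 (xx w j n / 2)) ≤
      5 * ε * N := by
    intro j hj
    have t1 := H j hj 0 ε le_rfl h0.le (by linarith)
    have t2 := H j hj (1 / 2 - ε) (1 / 2 + ε) (by linarith) (by linarith) (by linarith)
    have t3 := H j hj (1 - ε) 1 (by linarith) (by linarith) le_rfl
    have t4 := (t1.add t2).add t3
    have hlim : ε - 0 + (1 / 2 + ε - (1 / 2 - ε)) + (1 - (1 - ε)) = 4 * ε := by ring
    rw [hlim] at t4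
    have h5 := t4.eventually (gt_mem_nhds (show 4 * ε < 5 * ε by linarith))
    filter_upwards [h5, eventually_ge_atTop 1] with N hN hN1
    have hNR : (0 : ℝ) < N := by exact_mod_cast hN1
    rw [← add_div, ← add_div, ← sum_add_distrib, ← sum_add_distrib, div_lt_iff₀ hNR] at hN
    exact hN.le
  have hall := (Filter.eventually_all_finset S).2 hj
  filter_upwards [hall] with N hN
  calc ∑ n ∈ Ico N (2 * N), near w S ε n
      ≤ ∑ n ∈ Ico N (2 * N), ∑ j ∈ S, (arc 0 ε (xx w j n / 2) +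
        arc (1 / 2 - ε) (1 / 2 + ε) (xx w j n / 2) + arc (1 - ε) 1 (xx w j n / 2)) :=
        sum_le_sum fun n _ => hpt n
    _ = ∑ j ∈ S, ∑ n ∈ Ico N (2 * N), (arc 0 ε (xx w j n / 2) +
        arc (1 / 2 - ε) (1 / 2 + ε) (xx w j n / 2) + arc (1 - ε) 1 (xx w j n / 2)) := sum_comm
    _ ≤ ∑ _j ∈ S, 5 * ε * N := sum_le_sum fun j hj => hN j hj
    _ = 5 * ε * S.card * N := by rw [sum_const, nsmul_eq_mul]; ring

private theorem hf_mem_Sm {w : ℕ → Bool} {K i j : ℕ} :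
    j ∈ Sm w K i ↔ (1 ≤ j ∧ j ≤ K) ∧ cc w j < cc w i := by
  classical
  unfold Sm
  rw [mem_filter, mem_Icc]

private theorem hf_Tz {om : ℝ} (h0 : 0 < om) (C ε : ℝ) (hC : 0 ≤ C) (hε : 0 < ε) :
    ∀ᶠ N : ℕ in atTop, C * (Tz om N : ℝ) ≤ ε * N := by
  have h1 := (tendsto_rpow_neg_atTop h0).comp (tendsto_natCast_atTop_atTop (R := ℝ))
  have h2 := h1.const_mul C
  rw [mul_zero] at h2
  have h3 := h2.eventually (gt_mem_nhds hε)
  filter_upwards [h3, eventually_ge_atTop 1] with N hN hN1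
  have hNR : (0 : ℝ) < N := by exact_mod_cast hN1
  have hT : (Tz om N : ℝ) ≤ (N : ℝ) ^ (1 - om) := by
    unfold Tz
    exact Nat.floor_le (by positivity)
  have h4 : (N : ℝ) ^ (1 - om) = (N : ℝ) ^ (-om) * N := by
    rw [show (1 - om) = -om + 1 by ring, Real.rpow_add hNR, Real.rpow_one]
  simp only [Function.comp_apply] at hN
  calc C * (Tz om N : ℝ) ≤ C * ((N : ℝ) ^ (-om) * N) := by
        rw [← h4]
        exact mul_le_mul_of_nonneg_left hT hC
    _ = (C * (N : ℝ) ^ (-om)) * N := by ring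
    _ ≤ ε * N := mul_le_mul_of_nonneg_right hN.le hNR.le

private theorem hf_core (w : ℕ → Bool) (K i : ℕ) (hi : 1 ≤ i) (hK : i ≤ K) (π : ℕ → Bool)
    (α β : ℝ) (h0 : 0 ≤ α) (h1 : α ≤ β) (h2 : β ≤ 1)
    (hnear : ∀ ε : ℝ, 0 < ε → ε ≤ 1 / 4 → ∀ᶠ N : ℕ in atTop,
      (∑ n ∈ Ico N (2 * N), near w (Sm w K i) ε n) ≤ 5 * ε * (Sm w K i).card * N)
    (ε0 : ℝ) (hε0 : 0 < ε0) :
    ∀ᶠ N : ℕ in atTop, |∑ n ∈ Ico N (2 * N), gf w π (insert 0 (Sm w K i)) i α β n| ≤ ε0 * N := by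
  classical
  obtain ⟨s, hs⟩ : ∃ s : ℝ, s = ((Sm w K i).card : ℝ) := ⟨_, rfl⟩
  have hs0 : 0 ≤ s := by rw [hs]; positivity
  obtain ⟨ε, hεdef⟩ : ∃ ε : ℝ, ε = min (1 / 4) (ε0 / (3 + 5 * s)) := ⟨_, rfl⟩
  have hε : 0 < ε := by
    rw [hεdef]
    exact lt_min (by norm_num) (by positivity)
  have hε4 : ε ≤ 1 / 4 := by rw [hεdef]; exact min_le_left _ _
  have hεs : (3 + 5 * s) * ε ≤ ε0 := by
    have : ε ≤ ε0 / (3 + 5 * s) := by rw [hεdef]; exact min_le_right _ _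
    rw [le_div_iff₀ (by positivity)] at this
    linarith
  obtain ⟨om, mu, M, h⟩ := exists_ctx w K i hi hK
  obtain ⟨B, hB, hrec⟩ := recur h π α β h0 h1 h2 ε hε
  have hρ : (1 / 2 * (Pst w (dg w om) i).coeff M * (2 : ℝ) ^ M) ≠ 0 := by
    have := Pst_top_ne_zero h
    positivity
  obtain ⟨η, hη, hgm⟩ := gen_most M (cc w i) om _ hρ h.om_pos h.om_lt (cc_pos w i) h.fr_pos
    (by have h3 := h.fr_lt; have h4 := h.mu_le; have h5 := h.om_lt; linarith) h.c_lt_M B ε hε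
  obtain ⟨V0, hV0⟩ := hrec η hη
  obtain ⟨V, hV⟩ : ∃ V, V = V0 + 1 := ⟨_, rfl⟩
  have hVR : (0 : ℝ) < V := by
    have : 0 < V := by omega
    exact_mod_cast this
  have hrecL := hV0 (2 * V)
  have hTz := hf_Tz h.om_pos (8 * (V : ℝ)) ε (by positivity) hε
  filter_upwards [hrecL, hgm, hnear ε hε hε4, hTz] with N hN1 hN2 hN3 hN4
  obtain ⟨T, hT⟩ : ∃ T, T = Tz om N := ⟨_, rfl⟩
  obtain ⟨g, hg⟩ : ∃ g : ℕ → ℝ, g = gf w π (insert 0 (Sm w K i)) i α β := ⟨_, rfl⟩
  obtain ⟨nr, hnr⟩ : ∃ nr : ℕ → ℝ, nr = near w (Sm w K i) ε := ⟨_, rfl⟩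
  rw [← hT] at hN1 hN2 hN4
  rw [← hg] at hN1 ⊢
  rw [← hnr] at hN1 hN3
  rw [← hs] at hN3
  have hgl : ∀ n, |g n| ≤ 1 := fun n => by rw [hg]; exact abs_gf_le w π _ i α β n h0 h1 h2
  have hnn : ∀ n, 0 ≤ nr n ∧ nr n ≤ 1 := fun n => by rw [hnr]; exact hf_near w _ ε n
  have hnl : ∀ n, |nr n| ≤ 1 := fun n => by rw [abs_of_nonneg (hnn n).1]; exact (hnn n).2
  have s1 := avg_shift g hgl N T 2 V
  have s2 := avg_shift nr hnl N T 2 V
  -- single progressions
  have hsingle : ∀ a ∈ Ico N (2 * N), |∑ v ∈ range V, g (a + T * (0 + 2 * v))| ≤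
      ε * V + ∑ v ∈ range V, nr (a + T * (0 + 2 * v)) +
      (if Gen B η (1 / 2 * (Pst w (dg w om) i).coeff M * (2 : ℝ) ^ M * (a : ℝ) ^ (cc w i - M) *
        (T : ℝ) ^ M) then 0 else (V : ℝ)) := by
    intro a ha
    rw [mem_Ico] at ha
    have hnsum : 0 ≤ ∑ v ∈ range V, nr (a + T * (0 + 2 * v)) :=
      sum_nonneg fun v _ => (hnn _).1
    split_ifs with hgen
    · rw [add_zero]
      have h3 := hN1 a 0 2 V ha.1 ha.2 (by norm_num) (by decide) (by omega)
        (by intro v hv; omega) (by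
          have e1 : lam w i om M N a * ((2 : ℕ) : ℝ) ^ M = 1 / 2 * (Pst w (dg w om) i).coeff M *
              (2 : ℝ) ^ M * (a : ℝ) ^ (cc w i - M) * (T : ℝ) ^ M := by
            unfold lam
            rw [← hT]
            push_cast
            ring
          rw [e1]
          exact hgen)
      exact h3
    · have h3 : |∑ v ∈ range V, g (a + T * (0 + 2 * v))| ≤ V := by
        calc |∑ v ∈ range V, g (a + T * (0 + 2 * v))| ≤ ∑ v ∈ range V, |g (a + T * (0 + 2 * v))| :=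
              abs_sum_le_sum_abs _ _
          _ ≤ ∑ _v ∈ range V, (1 : ℝ) := sum_le_sum fun v _ => hgl _
          _ = V := by simp
      have : 0 ≤ ε * V := by positivity
      linarith
  have hcardN : ((Ico N (2 * N)).card : ℝ) = N := by
    rw [Nat.card_Ico, show 2 * N - N = N by omega]
  have hsum : |∑ a ∈ Ico N (2 * N), ∑ v ∈ range V, g (a + T * (0 + 2 * v))| ≤
      ε * V * N + ∑ a ∈ Ico N (2 * N), ∑ v ∈ range V, nr (a + T * (0 + 2 * v)) +
        V * (ε * N) := by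
    calc |∑ a ∈ Ico N (2 * N), ∑ v ∈ range V, g (a + T * (0 + 2 * v))|
        ≤ ∑ a ∈ Ico N (2 * N), |∑ v ∈ range V, g (a + T * (0 + 2 * v))| :=
          abs_sum_le_sum_abs _ _
      _ ≤ ∑ a ∈ Ico N (2 * N), (ε * V + ∑ v ∈ range V, nr (a + T * (0 + 2 * v)) +
          (if Gen B η (1 / 2 * (Pst w (dg w om) i).coeff M * (2 : ℝ) ^ M *
            (a : ℝ) ^ (cc w i - M) * (T : ℝ) ^ M) then 0 else (V : ℝ))) := sum_le_sum hsingle
      _ = ε * V * N + ∑ a ∈ Ico N (2 * N), ∑ v ∈ range V, nr (a + T * (0 + 2 * v)) +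
          V * (((Ico N (2 * N)).filter (fun a : ℕ => ¬ Gen B η
            (1 / 2 * (Pst w (dg w om) i).coeff M * (2 : ℝ) ^ M * (a : ℝ) ^ (cc w i - M) *
              (T : ℝ) ^ M))).card : ℝ) := by
          rw [sum_add_distrib, sum_add_distrib, sum_const, nsmul_eq_mul, hcardN]
          congr 1
          · ring
          · rw [sum_ite, sum_const_zero, zero_add, sum_const, nsmul_eq_mul]
            ring
      _ ≤ _ := by
          gcongr
  have hA : (V : ℝ) * |∑ n ∈ Ico N (2 * N), g n| ≤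
      V * ((2 * ε + 5 * ε * s) * N + 8 * V * T) := by
    have e1 : (V : ℝ) * |∑ n ∈ Ico N (2 * N), g n| = |V * ∑ n ∈ Ico N (2 * N), g n| := by
      rw [abs_mul, abs_of_pos hVR]
    rw [e1]
    rw [abs_le] at s1 s2 hsum
    have e2 : (V : ℝ) * ∑ n ∈ Ico N (2 * N), nr n ≤ V * (5 * ε * s * N) :=
      mul_le_mul_of_nonneg_left hN3 hVR.le
    push_cast at s1 s2
    rw [abs_le]
    constructor
    · nlinarith [s1.1, s1.2, s2.1, s2.2, hsum.1, hsum.2]
    · nlinarith [s1.1, s1.2, s2.1, s2.2, hsum.1, hsum.2]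
  have hA' := le_of_mul_le_mul_left hA hVR
  have hN0 : (0 : ℝ) ≤ N := by positivity
  calc |∑ n ∈ Ico N (2 * N), g n| ≤ (2 * ε + 5 * ε * s) * N + 8 * V * T := hA'
    _ ≤ (2 * ε + 5 * ε * s) * N + ε * N := by linarith
    _ = ((3 + 5 * s) * ε) * N := by ring
    _ ≤ ε0 * N := mul_le_mul_of_nonneg_right hεs hN0

private theorem hf_tendsto (f : ℕ → ℝ)
    (h : ∀ ε0 : ℝ, 0 < ε0 → ∀ᶠ N : ℕ in atTop, |f N| ≤ ε0 * N) :
    Tendsto (fun N : ℕ => f N / N) atTop (nhds 0) := by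
  rw [Metric.tendsto_atTop']
  intro ε hε
  have h1 := h (ε / 2) (by positivity)
  have h2 := (h1.and (eventually_ge_atTop 1))
  rw [eventually_atTop] at h2
  obtain ⟨N0, hN0⟩ := h2
  refine ⟨N0, fun N hN => ?_⟩
  obtain ⟨h3, h4⟩ := hN0 N hN.le
  have hNR : (0 : ℝ) < N := by exact_mod_cast h4
  rw [Real.dist_eq, sub_zero, abs_div, abs_of_pos hNR, div_lt_iff₀ hNR]
  nlinarith

theorem half (w : ℕ → Bool) (K i : ℕ) (hi : 1 ≤ i) (hK : i ≤ K) (π : ℕ → Bool) (α β : ℝ)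
    (h0 : 0 ≤ α) (h1 : α ≤ β) (h2 : β ≤ 1) :
    Tendsto (fun N : ℕ => (∑ n ∈ Ico N (2 * N), gf w π (insert 0 (Sm w K i)) i α β n) / N) atTop
      (nhds 0) := by
  classical
  suffices hmain : ∀ m : ℕ, ∀ i, 1 ≤ i → i ≤ K → (Sm w K i).card = m →
      ∀ (π : ℕ → Bool) (α β : ℝ), 0 ≤ α → α ≤ β → β ≤ 1 →
      Tendsto (fun N : ℕ => (∑ n ∈ Ico N (2 * N), gf w π (insert 0 (Sm w K i)) i α β n) / N)
        atTop (nhds 0) from hmain _ i hi hK rfl π α β h0 h1 h2
  intro m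
  induction m using Nat.strong_induction_on with
  | _ m ihm =>
    intro i hi hK hm π α β h0 h1 h2
    apply hf_tendsto
    apply hf_core w K i hi hK π α β h0 h1 h2
    intro ε hε hε4
    apply near_small w (Sm w K i) _ ε hε hε4
    intro j hj
    have hj' := hf_mem_Sm.1 hj
    have hlt : (Sm w K j).card < m := by
      rw [← hm]
      apply card_lt_card
      refine ⟨?_, ?_⟩
      · intro l hl
        rw [hf_mem_Sm] at hl ⊢
        exact ⟨hl.1, hl.2.trans hj'.2⟩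
      · intro hsub
        have := hf_mem_Sm.1 (hsub hj)
        exact lt_irrefl _ this.2
    exact arc_of_half w (insert 0 (Sm w K j)) j
      (fun π α β h0 h1 h2 => ihm _ hlt j hj'.1.1 hj'.1.2 rfl π α β h0 h1 h2)

end Pool.Agent.Work.MP_215640_nt
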