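import Pool.Agent.Work.MP_215640_nt.PowerExp
import Pool.Agent.Work.MP_215640_nt.Absorb

/-!
MODULE LEVELEXPAND. A level whose parent is tame is, before the floor, close to a polynomial.
-/

set_option autoImplicit false

namespace Pool.Agent.Work.MP_215640_nt

open Finset Polynomial Filter

theorem level_expand {w : ℕ → Bool} {K i : ℕ} {om mu : ℝ} {M : ℕ} (h : IsCtx w K i om mu M)
    (j : ℕ) (hj : 1 ≤ j) (hjK : j ≤ K) :
    ∀ cst : ℝ, 0 ≤ cst → ∀ L : ℕ, ∃ C' : ℝ, 0 < C' ∧ ∀ ε : ℝ, 0 < ε → ∀ᶠ N : ℕ in atTop,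
      ∀ a u q V : ℕ, N ≤ a → a < 2 * N → (∀ v < V, u + q * v ≤ L) →
        (pr w j = 0 ∨ Tame w (dg w om) mu cst N (Tz om N) a u q V (pr w j)) →
        ∃ R : ℝ[X], R.natDegree ≤ dg w om j ∧
          (∀ r, |R.coeff r - (Pst w (dg w om) j).coeff r| ≤ C' * (N : ℝ) ^ (-mu)) ∧
          ∀ v < V, |xx w j (a + Tz om N * (u + q * v)) -
            (a : ℝ) ^ cc w j * R.eval ((Tz om N : ℝ) * ((u : ℝ) + q * v) / a)| ≤ ε := by
  intro cst hcst L
  have hom := h.om_pos
  have hmu : 0 < mu := by linarith [h.fr_pos, h.fr_lt]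
  have hcc : gam w j * cc w (pr w j) = cc w j := by
    unfold gam
    field_simp [(cc_pos w (pr w j)).ne']
  have hd : (Pst w (dg w om) (pr w j)).natDegree ≤ dg w om (pr w j) := by
    rcases Nat.eq_zero_or_pos (pr w j) with h0 | h0
    · rw [h0, Pst_zero]
      have h1 : (1 + X : ℝ[X]).natDegree ≤ 1 := by
        refine (natDegree_add_le _ _).trans ?_
        simp
      refine h1.trans ?_
      unfold dg
      rw [cc_zero]
      apply Nat.le_floor
      rw [le_div_iff₀ hom]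
      push_cast
      linarith [h.om_lt]
    · exact Pst_natDegree w _ h0
  have hD : gam w j * cc w (pr w j) < om * (dg w om j + 1) := by
    rw [hcc]
    have := Nat.lt_floor_add_one (cc w j / om)
    rw [div_lt_iff₀ hom] at this
    unfold dg
    linarith
  obtain ⟨C', hC', H⟩ := power_expand (gam w j) (cc w (pr w j)) om mu (dg w om (pr w j))
    (dg w om j) (Pst w (dg w om) (pr w j)) cst L (gam_pos w j) (cc_pos w _) hom hmu h.mu_le
    (Pst_coeff_zero w _ _) hd hD (Nat.cast_nonneg L) hcst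
  refine ⟨C', hC', fun ε hε => ?_⟩
  have H1 := H (ε / 2) (by positivity)
  obtain ⟨n0, H2⟩ := eventually_atTop.1 (absorb w j hj (ε / 2) (by positivity))
  filter_upwards [H1, eventually_ge_atTop n0, eventually_gt_atTop 0] with N hN1 hN2 hN3
  intro a u q V ha1 ha2 hL htame
  have hN0 : (0 : ℝ) < N := by exact_mod_cast hN3
  have haN : (N : ℝ) ≤ a := by exact_mod_cast ha1
  have ha0 : (0 : ℝ) < a := lt_of_lt_of_le hN0 haN
  obtain ⟨P, hP1, hP2, hP3⟩ : ∃ P : ℝ[X], P.natDegree ≤ dg w om (pr w j) ∧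
      (∀ r, |P.coeff r - (Pst w (dg w om) (pr w j)).coeff r| ≤ cst * (N : ℝ) ^ (-mu)) ∧
      ∀ v < V, (F w (pr w j) (a + Tz om N * (u + q * v)) : ℝ) =
        (a : ℝ) ^ cc w (pr w j) * P.eval ((Tz om N : ℝ) * ((u : ℝ) + q * v) / a) := by
    rcases htame with h0 | h0
    · refine ⟨Pst w (dg w om) (pr w j), hd, fun r => ?_, fun v _ => ?_⟩
      · rw [sub_self, abs_zero]; positivity
      · rw [h0, Pst_zero, F_zero, cc_zero, Real.rpow_one]
        simp only [eval_add, eval_one, eval_X]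
        push_cast
        field_simp
    · exact h0.2
  obtain ⟨R, hR1, hR2, hR3⟩ := hN1 a haN (by exact_mod_cast ha2.le) P hP1 hP2
  refine ⟨R, hR1, fun r => ?_, fun v hv => ?_⟩
  · rw [Pst_succ w _ hj, trunc_coeff]
    by_cases hr : r ≤ dg w om j
    · rw [if_pos hr]; exact hR2 r hr
    · rw [if_neg hr, coeff_eq_zero_of_natDegree_lt (by omega), sub_zero, abs_zero]
      positivity
  · have hz0 : 0 ≤ (Tz om N : ℝ) * ((u : ℝ) + q * v) / a := by positivity
    have hz1 : (Tz om N : ℝ) * ((u : ℝ) + q * v) / a ≤ L * (N : ℝ) ^ (-om) := by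
      have h1 : (Tz om N : ℝ) ≤ (N : ℝ) ^ (1 - om) := Nat.floor_le (by positivity)
      have h2 : ((u : ℝ) + q * v) ≤ L := by exact_mod_cast hL v hv
      have h3 : (N : ℝ) ^ (1 - om) = N * (N : ℝ) ^ (-om) := by
        rw [← Real.rpow_one_add' hN0.le (by linarith [h.om_lt])]
        congr 1
      rw [div_le_iff₀ ha0]
      calc (Tz om N : ℝ) * ((u : ℝ) + q * v) ≤ (N : ℝ) ^ (1 - om) * L :=
            mul_le_mul h1 h2 (by positivity) (by positivity)
        _ = L * (N : ℝ) ^ (-om) * N := by rw [h3]; ring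
        _ ≤ L * (N : ℝ) ^ (-om) * a := mul_le_mul_of_nonneg_left haN (by positivity)
    have h4 := H2 (a + Tz om N * (u + q * v)) (by omega)
    have h5 := hR3 _ hz0 hz1
    rw [hcc] at h5
    rw [hP3 v hv] at h4
    calc |xx w j (a + Tz om N * (u + q * v)) -
            (a : ℝ) ^ cc w j * R.eval ((Tz om N : ℝ) * ((u : ℝ) + q * v) / a)|
        = |(xx w j (a + Tz om N * (u + q * v)) -
            ((a : ℝ) ^ cc w (pr w j) * P.eval ((Tz om N : ℝ) * ((u : ℝ) + q * v) / a)) ^ gam w j) +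
          (((a : ℝ) ^ cc w (pr w j) * P.eval ((Tz om N : ℝ) * ((u : ℝ) + q * v) / a)) ^ gam w j -
            (a : ℝ) ^ cc w j * R.eval ((Tz om N : ℝ) * ((u : ℝ) + q * v) / a))| := by
          congr 1; ring
      _ ≤ _ := abs_add_le _ _
      _ ≤ ε / 2 + ε / 2 := add_le_add h4 h5
      _ = ε := by ring

end Pool.Agent.Work.MP_215640_nt
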