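import Pool.Agent.Work.MP_215640_nt.Basic

/-!
MODULE POWEREXP. Expansion of a power of a polynomial close to a fixed one.
-/

set_option autoImplicit false

namespace Pool.Agent.Work.MP_215640_nt

open Finset Polynomial Filter

theorem binom_taylor (γ : ℝ) (k : ℕ) : ∃ C δ : ℝ, 0 < C ∧ 0 < δ ∧ ∀ y : ℝ, |y - 1| ≤ δ →
    |y ^ γ - ∑ i ∈ range (k + 1), Ring.choose γ i * (y - 1) ^ i| ≤ C * |y - 1| ^ (k + 1) := by
  have h := (Real.one_add_rpow_hasFPowerSeriesAt_zero (a := γ)).isBigO_sub_partialSum_pow (k + 1)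
  obtain ⟨C, hC, h1⟩ := h.exists_pos
  rw [Asymptotics.isBigOWith_iff, Metric.eventually_nhds_iff] at h1
  obtain ⟨e, he, h2⟩ := h1
  refine ⟨C, e / 2, hC, by positivity, fun y hy => ?_⟩
  have h3 := h2 (y := y - 1) (by rw [dist_zero_right, Real.norm_eq_abs]; linarith)
  have h4 : (binomialSeries ℝ γ).partialSum (k + 1) (y - 1)
      = ∑ i ∈ range (k + 1), Ring.choose γ i * (y - 1) ^ i := by
    unfold FormalMultilinearSeries.partialSum
    refine Finset.sum_congr rfl fun i _ => ?_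
    simp [binomialSeries, FormalMultilinearSeries.ofScalars_apply_eq', smul_eq_mul, mul_comm]
  rw [h4] at h3
  simp only [zero_add, add_sub_cancel, norm_pow, Real.norm_eq_abs, abs_abs] at h3
  exact h3

/-- coefficients of a product, second factor of bounded degree -/
theorem pe_mul_bd (F A : ℝ[X]) (d : ℕ) (hA : A.natDegree ≤ d) (M m : ℝ)
    (hF : ∀ s, |F.coeff s| ≤ M) (hm : ∀ s, |A.coeff s| ≤ m) (r : ℕ) :
    |(F * A).coeff r| ≤ (d + 1) * (M * m) := by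
  have hM : 0 ≤ M := (abs_nonneg _).trans (hF 0)
  have hm0 : 0 ≤ m := (abs_nonneg _).trans (hm 0)
  have h1 : (F * A).coeff r = ∑ b ∈ range (d + 1), A.coeff b * (F * X ^ b).coeff r := by
    conv_lhs => rw [A.as_sum_range_C_mul_X_pow' (Nat.lt_succ_of_le hA)]
    rw [Finset.mul_sum, finsetSum_coeff]
    refine Finset.sum_congr rfl fun b _ => ?_
    rw [mul_left_comm, coeff_C_mul]
  rw [h1]
  refine (Finset.abs_sum_le_sum_abs _ _).trans ?_
  have h2 : ∀ b ∈ range (d + 1), |A.coeff b * (F * X ^ b).coeff r| ≤ M * m := by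
    intro b _
    rw [abs_mul, coeff_mul_X_pow', mul_comm]
    refine mul_le_mul ?_ (hm b) (abs_nonneg _) hM
    split_ifs
    · exact hF _
    · simpa using hM
  refine (Finset.sum_le_sum h2).trans ?_
  simp

theorem pe_coeff_bound (P : ℝ[X]) : ∃ m : ℝ, 0 ≤ m ∧ ∀ s, |P.coeff s| ≤ m := by
  refine ⟨∑ s ∈ P.support, |P.coeff s|, Finset.sum_nonneg fun _ _ => abs_nonneg _, fun s => ?_⟩
  by_cases hs : s ∈ P.support
  · exact Finset.single_le_sum (f := fun s => |P.coeff s|) (fun _ _ => abs_nonneg _) hs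
  · rw [notMem_support_iff.1 hs, abs_zero]
    exact Finset.sum_nonneg fun _ _ => abs_nonneg _

theorem pe_pow_lip (d : ℕ) (P0 : ℝ[X]) (i : ℕ) : ∃ D C : ℝ, 0 ≤ D ∧ 0 ≤ C ∧ ∀ (P : ℝ[X]) (ρ : ℝ),
    P.natDegree ≤ d → P0.natDegree ≤ d → ρ ≤ 1 → (∀ r, |P.coeff r - P0.coeff r| ≤ ρ) →
      ∀ r, |((P - 1) ^ i).coeff r| ≤ D ∧
        |((P - 1) ^ i).coeff r - ((P0 - 1) ^ i).coeff r| ≤ C * ρ := by
  obtain ⟨m, hm0, hm⟩ := pe_coeff_bound (P0 - 1)
  induction i with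
  | zero =>
    refine ⟨1, 0, zero_le_one, le_rfl, fun P ρ _ _ _ _ r => ?_⟩
    simp only [pow_zero, sub_self, abs_zero, zero_mul, le_refl, and_true]
    rw [coeff_one]
    split_ifs <;> simp
  | succ i ih =>
    obtain ⟨D, C, hD, hC, h1⟩ := ih
    refine ⟨(d + 1) * (D * (m + 1)), (d + 1) * (D * 1) + (d + 1) * (C * m), by positivity,
      by positivity, fun P ρ hP hP0 hρ hc r => ?_⟩
    have hρ0 : 0 ≤ ρ := (abs_nonneg _).trans (hc 0)
    have hdeg : (P - 1).natDegree ≤ d := by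
      refine (natDegree_sub_le _ _).trans ?_
      simp [hP]
    have hdeg0 : (P0 - 1).natDegree ≤ d := by
      refine (natDegree_sub_le _ _).trans ?_
      simp [hP0]
    have hdegs : (P - P0).natDegree ≤ d := by
      refine (natDegree_sub_le _ _).trans ?_
      simp [hP, hP0]
    have hcm : ∀ s, |(P - 1).coeff s| ≤ m + 1 := by
      intro s
      have e1 : (P - 1).coeff s = (P.coeff s - P0.coeff s) + (P0 - 1).coeff s := by
        rw [coeff_sub, coeff_sub]; ring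
      rw [e1]
      refine (abs_add_le _ _).trans ?_
      linarith [hc s, hm s]
    constructor
    · rw [pow_succ]
      exact pe_mul_bd _ _ d hdeg D (m + 1) (fun s => (h1 P ρ hP hP0 hρ hc s).1) hcm r
    · have e2 : (P - 1) ^ (i + 1) - (P0 - 1) ^ (i + 1)
          = (P - 1) ^ i * (P - P0) + ((P - 1) ^ i - (P0 - 1) ^ i) * (P0 - 1) := by ring
      rw [← coeff_sub, e2, coeff_add]
      have e3 := pe_mul_bd ((P - 1) ^ i) (P - P0) d hdegs D ρ
        (fun s => (h1 P ρ hP hP0 hρ hc s).1) (fun s => by rw [coeff_sub]; exact hc s) r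
      have e4 := pe_mul_bd ((P - 1) ^ i - (P0 - 1) ^ i) (P0 - 1) d hdeg0 (C * ρ) m
        (fun s => by rw [coeff_sub]; exact (h1 P ρ hP hP0 hρ hc s).2) hm r
      refine (abs_add_le _ _).trans ?_
      calc |((P - 1) ^ i * (P - P0)).coeff r| + |(((P - 1) ^ i - (P0 - 1) ^ i) * (P0 - 1)).coeff r|
          ≤ (d + 1) * (D * ρ) + (d + 1) * (C * ρ * m) := add_le_add e3 e4
        _ = ((d + 1) * (D * 1) + (d + 1) * (C * m)) * ρ := by ring

theorem bser_lip (γ : ℝ) (k d : ℕ) (P0 : ℝ[X]) : ∃ C : ℝ, 0 < C ∧ ∀ (P : ℝ[X]) (ρ : ℝ),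
    P.natDegree ≤ d → P0.natDegree ≤ d → ρ ≤ 1 → (∀ r, |P.coeff r - P0.coeff r| ≤ ρ) →
      ∀ r, |(bser γ k P).coeff r - (bser γ k P0).coeff r| ≤ C * ρ := by
  choose D C hD hC h using fun i => pe_pow_lip d P0 i
  refine ⟨∑ i ∈ range (k + 1), |Ring.choose γ i| * C i + 1, ?_, fun P ρ hP hP0 hρ hc r => ?_⟩
  · have : 0 ≤ ∑ i ∈ range (k + 1), |Ring.choose γ i| * C i :=
      Finset.sum_nonneg fun i _ => mul_nonneg (abs_nonneg _) (hC i)
    linarith
  · have hρ0 : 0 ≤ ρ := (abs_nonneg _).trans (hc 0)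
    unfold bser
    rw [finsetSum_coeff, finsetSum_coeff, ← Finset.sum_sub_distrib]
    refine (Finset.abs_sum_le_sum_abs _ _).trans ?_
    rw [add_mul, Finset.sum_mul, one_mul]
    refine le_add_of_le_of_nonneg (Finset.sum_le_sum fun i _ => ?_) hρ0
    rw [coeff_C_mul, coeff_C_mul, ← mul_sub, abs_mul, mul_assoc]
    exact mul_le_mul_of_nonneg_left (h i P ρ hP hP0 hρ hc r).2 (abs_nonneg _)

theorem bser_natDegree (γ : ℝ) (k d : ℕ) (P : ℝ[X]) (hP : P.natDegree ≤ d) :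
    (bser γ k P).natDegree ≤ k * d := by
  unfold bser
  refine natDegree_sum_le_of_forall_le _ _ fun i hi => ?_
  refine (natDegree_C_mul_le _ _).trans ?_
  refine (natDegree_pow_le).trans ?_
  have h1 : (P - 1).natDegree ≤ d := by
    refine (natDegree_sub_le _ _).trans ?_
    simp [hP]
  have h2 : i ≤ k := Nat.lt_succ_iff.1 (mem_range.1 hi)
  exact Nat.mul_le_mul h2 h1

theorem bser_eval (γ : ℝ) (k : ℕ) (P : ℝ[X]) (z : ℝ) :
    (bser γ k P).eval z = ∑ i ∈ range (k + 1), Ring.choose γ i * (P.eval z - 1) ^ i := by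
  unfold bser
  rw [eval_finsetSum]
  refine Finset.sum_congr rfl fun i _ => ?_
  simp

/-- truncation error -/
theorem pe_trunc_eval (Q : ℝ[X]) (D e : ℕ) (hQ : Q.natDegree ≤ e) (m : ℝ)
    (hm : ∀ s, |Q.coeff s| ≤ m) (z : ℝ) (hz0 : 0 ≤ z) (hz1 : z ≤ 1) :
    |Q.eval z - (trunc D Q).eval z| ≤ (e + 1) * (m * z ^ (D + 1)) := by
  have hm0 : 0 ≤ m := (abs_nonneg _).trans (hm 0)
  have hd : (Q - trunc D Q).natDegree ≤ e := by
    rw [natDegree_le_iff_coeff_eq_zero]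
    intro r hr
    rw [coeff_sub, trunc_coeff, coeff_eq_zero_of_natDegree_lt (lt_of_le_of_lt hQ hr)]
    simp
  rw [← eval_sub, eval_eq_sum_range' (Nat.lt_succ_of_le hd)]
  refine (Finset.abs_sum_le_sum_abs _ _).trans ?_
  have h1 : ∀ r ∈ range e.succ, |(Q - trunc D Q).coeff r * z ^ r| ≤ m * z ^ (D + 1) := by
    intro r _
    rw [coeff_sub, trunc_coeff]
    split_ifs with hr
    · simp only [sub_self, zero_mul, abs_zero]; positivity
    · rw [sub_zero, abs_mul, abs_of_nonneg (pow_nonneg hz0 r)]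
      exact mul_le_mul (hm r) (pow_le_pow_of_le_one hz0 hz1 (by omega)) (pow_nonneg hz0 r) hm0
  refine (Finset.sum_le_sum h1).trans ?_
  simp

theorem pe_rpow_tendsto (s : ℝ) (hs : 0 < s) :
    Tendsto (fun N : ℕ => (N : ℝ) ^ (-s)) atTop (nhds 0) :=
  (tendsto_rpow_neg_atTop hs).comp tendsto_natCast_atTop_atTop

/-- the total error tends to zero -/
theorem pe_err (A s C : ℝ) (hC : 0 ≤ C) (n : ℕ) (hs : A < s * n) (K : ℝ) (hA : 0 ≤ A) (ε : ℝ)
    (hε : 0 < ε) :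
    ∀ᶠ N : ℕ in atTop, (2 * (N : ℝ)) ^ A * (K * (C * (N : ℝ) ^ (-s)) ^ n) ≤ ε := by
  have h1 : Tendsto (fun N : ℕ => (2 ^ A * K * C ^ n) * (N : ℝ) ^ (-(s * n - A))) atTop
      (nhds ((2 ^ A * K * C ^ n) * 0)) := (pe_rpow_tendsto _ (by linarith)).const_mul _
  rw [mul_zero] at h1
  filter_upwards [h1.eventually (ge_mem_nhds hε), eventually_gt_atTop 0] with N hN hN0
  have hNpos : (0 : ℝ) < N := by exact_mod_cast hN0
  refine le_trans (le_of_eq ?_) hN
  rw [Real.mul_rpow (by norm_num) hNpos.le, mul_pow, ← Real.rpow_natCast ((N : ℝ) ^ (-s)) n,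
    ← Real.rpow_mul hNpos.le]
  have h2 : (N : ℝ) ^ (-(s * n - A)) = (N : ℝ) ^ A * (N : ℝ) ^ (-s * n) := by
    rw [← Real.rpow_add hNpos]; congr 1; ring
  rw [h2]; ring

theorem power_expand (γ cm om mu : ℝ) (d D : ℕ) (P0 : ℝ[X]) (cst L : ℝ) (hγ : 0 < γ)
    (hcm : 0 < cm) (hom : 0 < om) (hmu : 0 < mu) (hmuom : mu ≤ om) (h0 : P0.coeff 0 = 1)
    (hd : P0.natDegree ≤ d) (hD : γ * cm < om * (D + 1)) (hL : 0 ≤ L) (hC : 0 ≤ cst) :
    ∃ C' : ℝ, 0 < C' ∧ ∀ ε : ℝ, 0 < ε → ∀ᶠ N : ℕ in atTop, ∀ a : ℝ, (N : ℝ) ≤ a →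
      a ≤ 2 * N → ∀ P : ℝ[X], P.natDegree ≤ d →
        (∀ r, |P.coeff r - P0.coeff r| ≤ cst * (N : ℝ) ^ (-mu)) →
        ∃ R : ℝ[X], R.natDegree ≤ D ∧
          (∀ r ≤ D, |R.coeff r - (bser γ D P0).coeff r| ≤ C' * (N : ℝ) ^ (-mu)) ∧
          ∀ z : ℝ, 0 ≤ z → z ≤ L * (N : ℝ) ^ (-om) →
            |(a ^ cm * P.eval z) ^ γ - a ^ (γ * cm) * R.eval z| ≤ ε := by
  obtain ⟨K0, hK0⟩ := exists_nat_gt (γ * cm / mu)
  set K1 := max D K0 with hK1
  have hDK1 : D ≤ K1 := le_max_left _ _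
  have hKmu : γ * cm < mu * ((K1 + 1 : ℕ) : ℝ) := by
    have h1 : (K0 : ℝ) ≤ ((K1 + 1 : ℕ) : ℝ) := by
      exact_mod_cast (le_max_right D K0).trans (Nat.le_succ _)
    rw [div_lt_iff₀ hmu] at hK0
    nlinarith
  obtain ⟨C1, hC1, hlip⟩ := bser_lip γ K1 d P0
  obtain ⟨C3, δ, hC3, hδ, htay⟩ := binom_taylor γ K1
  obtain ⟨m0, hm0, hm0c⟩ := pe_coeff_bound P0
  obtain ⟨m1, hm1, hm1c⟩ := pe_coeff_bound (bser γ K1 P0)
  have hγcm : 0 < γ * cm := mul_pos hγ hcm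
  -- constant for `|P z - 1|`
  set C2 : ℝ := cst + d * ((m0 + 1) * L) with hC2
  have hC2nn : 0 ≤ C2 := by positivity
  refine ⟨C1 * cst + 1, by positivity, fun ε hε => ?_⟩
  have ev1 : ∀ᶠ N : ℕ in atTop, cst * (N : ℝ) ^ (-mu) ≤ 1 := by
    have h1 := (pe_rpow_tendsto mu hmu).const_mul cst
    rw [mul_zero] at h1
    exact h1.eventually (ge_mem_nhds one_pos)
  have ev2 : ∀ᶠ N : ℕ in atTop, L * (N : ℝ) ^ (-om) ≤ 1 := by
    have h1 := (pe_rpow_tendsto om hom).const_mul L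
    rw [mul_zero] at h1
    exact h1.eventually (ge_mem_nhds one_pos)
  have ev3 : ∀ᶠ N : ℕ in atTop, C2 * (N : ℝ) ^ (-mu) ≤ min δ (1 / 2) := by
    have h1 := (pe_rpow_tendsto mu hmu).const_mul C2
    rw [mul_zero] at h1
    exact h1.eventually (ge_mem_nhds (lt_min hδ (by norm_num)))
  have ev4 := pe_err (γ * cm) mu C2 hC2nn (K1 + 1) hKmu C3 hγcm.le (ε / 2) (by positivity)
  have ev5 := pe_err (γ * cm) om L hL (D + 1) (by push_cast; linarith)
    (((K1 * d : ℕ) + 1) * (m1 + C1)) hγcm.le (ε / 2) (by positivity)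
  filter_upwards [ev1, ev2, ev3, ev4, ev5, eventually_gt_atTop 0] with N h1 h2 h3 h4 h5 hN0
  intro a ha1 ha2 P hP hPc
  have hNpos : (0 : ℝ) < N := by exact_mod_cast hN0
  have hN1 : (1 : ℝ) ≤ N := by exact_mod_cast hN0
  have hapos : 0 < a := lt_of_lt_of_le hNpos ha1
  refine ⟨trunc D (bser γ K1 P), trunc_natDegree _ _, ?_, ?_⟩
  · intro r hr
    rw [trunc_coeff, if_pos hr, bser_coeff_eq γ P0 h0 hr (hr.trans hDK1)]
    refine (hlip P _ hP hd h1 hPc r).trans ?_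
    have : 0 ≤ (N : ℝ) ^ (-mu) := Real.rpow_nonneg hNpos.le _
    nlinarith
  · intro z hz0 hz1
    have hz1' : z ≤ 1 := hz1.trans h2
    have hom' : (N : ℝ) ^ (-om) ≤ (N : ℝ) ^ (-mu) :=
      Real.rpow_le_rpow_of_exponent_le hN1 (by linarith)
    have hPz : |P.eval z - 1| ≤ C2 * (N : ℝ) ^ (-mu) := by
      have e1 : P.eval z - 1 = (P - 1).eval z := by simp
      have hdeg : (P - 1).natDegree ≤ d := by
        refine (natDegree_sub_le _ _).trans ?_
        simp [hP]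
      rw [e1, eval_eq_sum_range' (Nat.lt_succ_of_le hdeg), Finset.sum_range_succ']
      refine (abs_add_le _ _).trans ?_
      have e2 : |(P - 1).coeff 0 * z ^ 0| ≤ cst * (N : ℝ) ^ (-mu) := by
        rw [pow_zero, mul_one, coeff_sub, coeff_one_zero, ← h0]
        exact hPc 0
      have e3 : |∑ r ∈ range d, (P - 1).coeff (r + 1) * z ^ (r + 1)|
          ≤ d * ((m0 + 1) * L) * (N : ℝ) ^ (-mu) := by
        refine (Finset.abs_sum_le_sum_abs _ _).trans ?_
        have e4 : ∀ r ∈ range d, |(P - 1).coeff (r + 1) * z ^ (r + 1)|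
            ≤ (m0 + 1) * (L * (N : ℝ) ^ (-mu)) := by
          intro r _
          rw [abs_mul, abs_of_nonneg (pow_nonneg hz0 (r + 1)), coeff_sub, coeff_one,
            if_neg (by omega), sub_zero]
          refine mul_le_mul ?_ ?_ (pow_nonneg hz0 _) (by positivity)
          · have e5 := hPc (r + 1)
            have e6 := hm0c (r + 1)
            have e7 : P.coeff (r + 1) = (P.coeff (r + 1) - P0.coeff (r + 1))
              + P0.coeff (r + 1) := by ring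
            rw [e7]
            refine (abs_add_le _ _).trans ?_
            linarith
          · calc z ^ (r + 1) ≤ z := pow_le_of_le_one hz0 hz1' (by omega)
              _ ≤ L * (N : ℝ) ^ (-om) := hz1
              _ ≤ L * (N : ℝ) ^ (-mu) := mul_le_mul_of_nonneg_left hom' hL
        refine (Finset.sum_le_sum e4).trans (le_of_eq ?_)
        rw [sum_const, card_range, nsmul_eq_mul]
        ring
      rw [hC2, add_mul]
      linarith
    have hPz1 : |P.eval z - 1| ≤ δ := hPz.trans (h3.trans (min_le_left _ _))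
    have hPz2 : |P.eval z - 1| ≤ 1 / 2 := hPz.trans (h3.trans (min_le_right _ _))
    have hPpos : 0 ≤ P.eval z := by linarith [(abs_le.1 hPz2).1]
    have g1 := htay _ hPz1
    rw [← bser_eval] at g1
    have g2 : |P.eval z ^ γ - (bser γ K1 P).eval z| ≤ C3 * (C2 * (N : ℝ) ^ (-mu)) ^ (K1 + 1) :=
      g1.trans (mul_le_mul_of_nonneg_left (pow_le_pow_left₀ (abs_nonneg _) hPz _) hC3.le)
    have g3 : |(bser γ K1 P).eval z - (trunc D (bser γ K1 P)).eval z|
        ≤ ((K1 * d : ℕ) + 1) * ((m1 + C1) * z ^ (D + 1)) := by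
      refine pe_trunc_eval _ D (K1 * d) (bser_natDegree γ K1 d P hP) (m1 + C1) ?_ z hz0 hz1'
      intro s
      have e1 := hlip P _ hP hd h1 hPc s
      have e2 := hm1c s
      have e3 : (bser γ K1 P).coeff s = ((bser γ K1 P).coeff s - (bser γ K1 P0).coeff s)
        + (bser γ K1 P0).coeff s := by ring
      rw [e3]
      refine (abs_add_le _ _).trans ?_
      have e4 : C1 * (cst * (N : ℝ) ^ (-mu)) ≤ C1 * 1 := mul_le_mul_of_nonneg_left h1 hC1.le
      linarith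
    have g4 : z ^ (D + 1) ≤ (L * (N : ℝ) ^ (-om)) ^ (D + 1) := pow_le_pow_left₀ hz0 hz1 _
    have g5 : (a ^ cm * P.eval z) ^ γ = a ^ (γ * cm) * P.eval z ^ γ := by
      rw [Real.mul_rpow (Real.rpow_nonneg hapos.le _) hPpos, ← Real.rpow_mul hapos.le, mul_comm cm]
    have g6 : a ^ (γ * cm) ≤ (2 * (N : ℝ)) ^ (γ * cm) :=
      Real.rpow_le_rpow hapos.le ha2 hγcm.le
    have g7 : 0 ≤ a ^ (γ * cm) := Real.rpow_nonneg hapos.le _
    rw [g5, ← mul_sub, abs_mul, abs_of_nonneg g7]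
    have g8 : |P.eval z ^ γ - (trunc D (bser γ K1 P)).eval z|
        ≤ C3 * (C2 * (N : ℝ) ^ (-mu)) ^ (K1 + 1)
          + ((K1 * d : ℕ) + 1) * (m1 + C1) * (L * (N : ℝ) ^ (-om)) ^ (D + 1) := by
      have e1 : P.eval z ^ γ - (trunc D (bser γ K1 P)).eval z
          = (P.eval z ^ γ - (bser γ K1 P).eval z)
            + ((bser γ K1 P).eval z - (trunc D (bser γ K1 P)).eval z) := by ring
      rw [e1]
      refine (abs_add_le _ _).trans (add_le_add g2 (g3.trans ?_))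
      rw [mul_assoc]
      gcongr
    calc a ^ (γ * cm) * |P.eval z ^ γ - (trunc D (bser γ K1 P)).eval z|
        ≤ (2 * (N : ℝ)) ^ (γ * cm) * (C3 * (C2 * (N : ℝ) ^ (-mu)) ^ (K1 + 1)
          + ((K1 * d : ℕ) + 1) * (m1 + C1) * (L * (N : ℝ) ^ (-om)) ^ (D + 1)) :=
          mul_le_mul g6 g8 (abs_nonneg _) (g7.trans g6)
      _ ≤ ε := by rw [mul_add]; linarith

end Pool.Agent.Work.MP_215640_nt
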