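import Pool.Agent.Work.MP_215640_nt.Basic

/-!
MODULE WEYL. Weyl's theorem for one real polynomial, top coefficient only.
-/

set_option autoImplicit false

namespace Pool.Agent.Work.MP_215640_nt

open Finset Polynomial

/-- shifting a window changes a bounded sum by at most `2 r` -/
theorem weyl_shift (z : ℕ → ℂ) (hz : ∀ v, ‖z v‖ ≤ 1) (V r : ℕ) :
    ‖∑ v ∈ range V, z v - ∑ v ∈ range V, z (v + r)‖ ≤ 2 * r := by
  induction r with
  | zero => simp
  | succ r ih =>
    have h1 : ∑ v ∈ range V, z (v + (r + 1)) = ∑ v ∈ range V, z (v + r) + z (V + r) - z r := by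
      have h2 := Finset.sum_range_succ (fun v => z (v + r)) V
      have h3 := Finset.sum_range_succ' (fun v => z (v + r)) V
      have h4 : ∀ v, z (v + 1 + r) = z (v + (r + 1)) := fun v => by congr 1; ring
      simp only [h4, zero_add] at h3
      rw [h3] at h2
      rw [← h2]; ring
    have h5 : ∑ v ∈ range V, z v - ∑ v ∈ range V, z (v + (r + 1))
        = (∑ v ∈ range V, z v - ∑ v ∈ range V, z (v + r)) + (z r - z (V + r)) := by
      rw [h1]; ring
    rw [h5]
    refine (norm_add_le _ _).trans ?_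
    have h6 : ‖z r - z (V + r)‖ ≤ 2 := by
      refine (norm_sub_le _ _).trans ?_
      have := hz r
      have := hz (V + r)
      linarith
    push_cast
    linarith

/-- van der Corput's inequality -/
theorem weyl_vdc (z : ℕ → ℂ) (hz : ∀ v, ‖z v‖ ≤ 1) (R V : ℕ) (hR : 1 ≤ R) (δ : ℝ) (hδ : 0 ≤ δ)
    (h : ∀ r < R, ∀ r' < R, r' < r →
      ‖∑ v ∈ range V, z (v + r) * (starRingEnd ℂ) (z (v + r'))‖ ≤ δ * V) :
    ‖∑ v ∈ range V, z v‖ ≤ 2 * R + V * Real.sqrt (1 / R + δ) := by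
  have hR0 : (0 : ℝ) < R := by exact_mod_cast hR
  have hall : ∀ r ∈ range R, ∀ r' ∈ range R,
      ‖∑ v ∈ range V, z (v + r) * (starRingEnd ℂ) (z (v + r'))‖
        ≤ (if r = r' then (V : ℝ) else 0) + δ * V := by
    intro r hr r' hr'
    rw [mem_range] at hr hr'
    rcases lt_trichotomy r r' with hlt | heq | hgt
    · rw [if_neg hlt.ne, zero_add]
      have h1 := h r' hr' r hr hlt
      have h2 : (starRingEnd ℂ) (∑ v ∈ range V, z (v + r') * (starRingEnd ℂ) (z (v + r)))
          = ∑ v ∈ range V, z (v + r) * (starRingEnd ℂ) (z (v + r')) := by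
        rw [map_sum]
        refine Finset.sum_congr rfl fun v _ => ?_
        rw [map_mul, Complex.conj_conj, mul_comm]
      rw [← h2, RCLike.norm_conj]
      exact h1
    · subst heq
      rw [if_pos rfl]
      have h3 : ‖∑ v ∈ range V, z (v + r) * (starRingEnd ℂ) (z (v + r))‖ ≤ ∑ v ∈ range V, (1 : ℝ) := by
        refine norm_sum_le_of_le _ fun v _ => ?_
        rw [norm_mul, RCLike.norm_conj]
        have := hz (v + r)
        nlinarith [norm_nonneg (z (v + r))]
      simp only [sum_const, card_range, nsmul_eq_mul, mul_one] at h3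
      have : 0 ≤ δ * V := by positivity
      linarith
    · rw [if_neg hgt.ne', zero_add]
      exact h r hr r' hr' hgt
  have hA : ∑ v ∈ range V, ‖∑ r ∈ range R, z (v + r)‖ ^ 2 ≤ R * V + R ^ 2 * (δ * V) := by
    have h4 : ((∑ v ∈ range V, ‖∑ r ∈ range R, z (v + r)‖ ^ 2 : ℝ) : ℂ)
        = ∑ r ∈ range R, ∑ r' ∈ range R, ∑ v ∈ range V,
            z (v + r) * (starRingEnd ℂ) (z (v + r')) := by
      push_cast
      have h5 : ∀ v, ((‖∑ r ∈ range R, z (v + r)‖ : ℂ)) ^ 2
          = ∑ r ∈ range R, ∑ r' ∈ range R, z (v + r) * (starRingEnd ℂ) (z (v + r')) := by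
        intro v
        rw [← Complex.mul_conj', map_sum, Finset.sum_mul_sum]
      simp_rw [h5]
      rw [Finset.sum_comm]
      refine Finset.sum_congr rfl fun r _ => ?_
      rw [Finset.sum_comm]
    have h6 : (∑ v ∈ range V, ‖∑ r ∈ range R, z (v + r)‖ ^ 2 : ℝ)
        = ‖((∑ v ∈ range V, ‖∑ r ∈ range R, z (v + r)‖ ^ 2 : ℝ) : ℂ)‖ := by
      rw [Complex.norm_real, Real.norm_of_nonneg]
      positivity
    rw [h6, h4]
    calc ‖∑ r ∈ range R, ∑ r' ∈ range R, ∑ v ∈ range V,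
            z (v + r) * (starRingEnd ℂ) (z (v + r'))‖
        ≤ ∑ r ∈ range R, ∑ r' ∈ range R, ((if r = r' then (V : ℝ) else 0) + δ * V) :=
          norm_sum_le_of_le _ fun r hr => norm_sum_le_of_le _ fun r' hr' => hall r hr r' hr'
      _ = R * V + R ^ 2 * (δ * V) := by
          simp only [Finset.sum_add_distrib, Finset.sum_ite_eq, sum_const, card_range,
            nsmul_eq_mul]
          rw [Finset.sum_congr rfl (g := fun _ => (V : ℝ)) (fun r hr => if_pos hr)]
          simp only [sum_const, card_range, nsmul_eq_mul]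
          ring
  have hB : (∑ v ∈ range V, ‖∑ r ∈ range R, z (v + r)‖) ^ 2
      ≤ V * (R * V + R ^ 2 * (δ * V)) := by
    have h7 := sq_sum_le_card_mul_sum_sq (s := range V) (f := fun v => ‖∑ r ∈ range R, z (v + r)‖)
    rw [card_range] at h7
    exact h7.trans (mul_le_mul_of_nonneg_left hA (Nat.cast_nonneg V))
  have hC : ∑ v ∈ range V, ‖∑ r ∈ range R, z (v + r)‖ ≤ R * (V * Real.sqrt (1 / R + δ)) := by
    refine abs_le_of_sq_le_sq' (hB.trans (le_of_eq ?_)) (by positivity) |>.2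
    rw [mul_pow, mul_pow, Real.sq_sqrt (by positivity)]
    field_simp
  have hD : ‖∑ r ∈ range R, ∑ v ∈ range V, z (v + r)‖ ≤ R * (V * Real.sqrt (1 / R + δ)) := by
    rw [Finset.sum_comm]
    exact (norm_sum_le _ _).trans hC
  have hE : ‖(R : ℂ) * ∑ v ∈ range V, z v‖
      ≤ R * (2 * R) + R * (V * Real.sqrt (1 / R + δ)) := by
    have h8 : (R : ℂ) * ∑ v ∈ range V, z v
        = ∑ r ∈ range R, (∑ v ∈ range V, z v - ∑ v ∈ range V, z (v + r))
          + ∑ r ∈ range R, ∑ v ∈ range V, z (v + r) := by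
      rw [← Finset.sum_add_distrib]
      simp
    rw [h8]
    refine (norm_add_le _ _).trans (add_le_add ?_ hD)
    have h9 : ‖∑ r ∈ range R, (∑ v ∈ range V, z v - ∑ v ∈ range V, z (v + r))‖
        ≤ ∑ r ∈ range R, (2 * (R : ℝ)) := by
      refine norm_sum_le_of_le _ fun r hr => ?_
      refine (weyl_shift z hz V r).trans ?_
      have : (r : ℝ) ≤ R := by exact_mod_cast (mem_range.1 hr).le
      linarith
    simpa using h9
  rw [norm_mul, Complex.norm_natCast, ← mul_add] at hE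
  exact le_of_mul_le_mul_left hE hR0

/-- the differenced polynomial -/
theorem weyl_diff (M : ℕ) (P : ℝ[X]) (hP : P.natDegree ≤ M + 1) (r h : ℕ) :
    ∃ Q : ℝ[X], Q.natDegree ≤ M ∧ Q.coeff M = (((M + 1) * h : ℕ) : ℝ) * P.coeff (M + 1) ∧
      ∀ v : ℝ, Q.eval v = P.eval (v + ((r + h : ℕ) : ℝ)) - P.eval (v + (r : ℝ)) := by
  have hc1 : ∀ s : ℝ, (taylor s P).coeff (M + 1) = P.coeff (M + 1) := by
    intro s
    rw [taylor_coeff]
    have h1 : hasseDeriv (M + 1) P = C (P.coeff (M + 1)) := by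
      ext n
      rw [hasseDeriv_coeff, coeff_C]
      split_ifs with hn
      · subst hn; simp
      · rw [coeff_eq_zero_of_natDegree_lt (by omega), mul_zero]
    rw [h1, eval_C]
  have hc2 : ∀ s : ℝ, (taylor s P).coeff M = P.coeff M + (M + 1 : ℕ) * P.coeff (M + 1) * s := by
    intro s
    rw [taylor_coeff]
    have h1 : hasseDeriv M P = C (P.coeff M) + C ((M + 1 : ℕ) * P.coeff (M + 1)) * X := by
      ext n
      rw [hasseDeriv_coeff, coeff_add, coeff_C, coeff_C_mul, coeff_X]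
      rcases n with _ | _ | n
      · simp
      · rw [zero_add, if_neg (by norm_num), if_pos rfl, add_comm 1 M]
        simp
      · rw [coeff_eq_zero_of_natDegree_lt (by omega)]
        simp
    rw [h1]; simp
  refine ⟨taylor ((r + h : ℕ) : ℝ) P - taylor (r : ℝ) P, ?_, ?_, ?_⟩
  · rw [natDegree_le_iff_coeff_eq_zero]
    intro n hn
    rw [coeff_sub]
    rcases Nat.eq_or_lt_of_le (Nat.succ_le_of_lt hn) with heq | hlt
    · rw [← heq, Nat.succ_eq_add_one, hc1, hc1, sub_self]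
    · have hlt' : M + 1 < n := hlt
      rw [coeff_eq_zero_of_natDegree_lt (by rw [natDegree_taylor]; omega),
        coeff_eq_zero_of_natDegree_lt (by rw [natDegree_taylor]; omega), sub_zero]
  · rw [coeff_sub, hc2, hc2]
    push_cast
    ring
  · intro v
    rw [eval_sub, taylor_eval, taylor_eval]

theorem weyl (M : ℕ) (hM : 1 ≤ M) : ∀ ε : ℝ, 0 < ε → ∃ B : ℕ, 1 ≤ B ∧ ∀ η : ℝ, 0 < η →
    ∃ V0 : ℕ, ∀ V ≥ V0, ∀ P : ℝ[X], P.natDegree ≤ M → Gen B η (P.coeff M) →
      ‖∑ v ∈ range V, ee (P.eval (v : ℝ))‖ ≤ ε * V := by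
  induction M, hM using Nat.le_induction with
  | base =>
    intro ε hε
    refine ⟨1, le_rfl, fun η hη => ?_⟩
    obtain ⟨V0, hV0⟩ := exists_nat_gt (1 / (2 * η) / ε)
    refine ⟨V0, fun V hV P hP hG => ?_⟩
    have hb := hG 1 le_rfl le_rfl
    rw [Nat.cast_one, one_mul] at hb
    have hPe : ∀ v : ℕ, ee (P.eval (v : ℝ)) = ee (P.coeff 0) * ee (P.coeff 1) ^ v := by
      intro v
      rw [← ee_nat_mul, ← ee_add, eval_eq_sum_range' (Nat.lt_succ_of_le hP)]
      simp [Finset.sum_range_succ, mul_comm]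
    simp_rw [hPe]
    rw [← Finset.mul_sum, norm_mul, norm_ee, one_mul]
    have h1 := norm_one_sub_ee (P.coeff 1)
    have h2 : 0 < ‖1 - ee (P.coeff 1)‖ := by linarith
    have h3 : (∑ v ∈ range V, ee (P.coeff 1) ^ v) * (1 - ee (P.coeff 1))
        = 1 - ee (P.coeff 1) ^ V := geom_sum_mul_neg _ _
    have h4 : ‖∑ v ∈ range V, ee (P.coeff 1) ^ v‖ * ‖1 - ee (P.coeff 1)‖ ≤ 2 := by
      rw [← norm_mul, h3]
      refine (norm_sub_le _ _).trans ?_
      rw [norm_one, norm_pow, norm_ee, one_pow]; norm_num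
    have h5 : ‖∑ v ∈ range V, ee (P.coeff 1) ^ v‖ * (4 * η) ≤ 2 := by
      refine le_trans (mul_le_mul_of_nonneg_left ?_ (norm_nonneg _)) h4
      linarith
    have h6 : ‖∑ v ∈ range V, ee (P.coeff 1) ^ v‖ ≤ 1 / (2 * η) := by
      rw [le_div_iff₀ (by positivity)]
      linarith
    refine h6.trans ?_
    rw [div_lt_iff₀ hε] at hV0
    have h7 : (V0 : ℝ) ≤ V := by exact_mod_cast hV
    nlinarith
  | succ M hM ih =>
    intro ε hε
    obtain ⟨R, hR⟩ := exists_nat_gt (8 / ε ^ 2)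
    have hR0 : (0 : ℝ) < R := lt_trans (by positivity) hR
    have hR1 : 1 ≤ R := by exact_mod_cast hR0
    obtain ⟨B, hB1, hB⟩ := ih (ε ^ 2 / 8) (by positivity)
    refine ⟨B * ((M + 1) * R), Nat.one_le_iff_ne_zero.2 (by positivity), fun η hη => ?_⟩
    obtain ⟨V0, hV0⟩ := hB η hη
    obtain ⟨V1, hV1⟩ := exists_nat_gt (4 * R / ε)
    refine ⟨max V0 V1, fun V hV P hP hG => ?_⟩
    have hVV0 : V ≥ V0 := le_trans (le_max_left _ _) hV
    have hVV1 : V ≥ V1 := le_trans (le_max_right _ _) hV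
    have h1 := weyl_vdc (fun v => ee (P.eval (v : ℝ))) (fun v => (norm_ee _).le) R V hR1
      (ε ^ 2 / 8) (by positivity) ?_
    · have h2 : Real.sqrt (1 / R + ε ^ 2 / 8) ≤ ε / 2 := by
        rw [Real.sqrt_le_left (by positivity)]
        have h3 : 1 / (R : ℝ) ≤ ε ^ 2 / 8 := by
          rw [div_le_div_iff₀ hR0 (by norm_num)]
          rw [div_lt_iff₀ (by positivity)] at hR
          linarith
        nlinarith
      have h4 : 4 * (R : ℝ) ≤ ε * V := by
        rw [div_lt_iff₀ hε] at hV1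
        have : (V1 : ℝ) ≤ V := by exact_mod_cast hVV1
        nlinarith
      have h5 : (V : ℝ) * Real.sqrt (1 / R + ε ^ 2 / 8) ≤ V * (ε / 2) :=
        mul_le_mul_of_nonneg_left h2 (Nat.cast_nonneg V)
      linarith
    · intro r hr r' hr' hlt
      obtain ⟨h, rfl⟩ := Nat.exists_eq_add_of_lt hlt
      obtain ⟨Q, hQ1, hQ2, hQ3⟩ := weyl_diff M P hP r' (h + 1)
      have h6 : ∀ v : ℕ, ee (P.eval (((v + (r' + h + 1) : ℕ)) : ℝ))
          * (starRingEnd ℂ) (ee (P.eval ((v + r' : ℕ) : ℝ))) = ee (Q.eval (v : ℝ)) := by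
        intro v
        have e1 : (((v + (r' + h + 1) : ℕ)) : ℝ) = (v : ℝ) + ((r' + (h + 1) : ℕ) : ℝ) := by
          push_cast; ring
        have e2 : ((v + r' : ℕ) : ℝ) = (v : ℝ) + (r' : ℝ) := by push_cast; ring
        rw [← ee_neg, ← ee_add, hQ3, e1, e2, sub_eq_add_neg]
      simp only [h6]
      refine hV0 V hVV0 Q hQ1 ?_
      rw [hQ2]
      refine Gen.nat_mul (q := (M + 1) * (h + 1)) (hG.mono ?_ le_rfl)
        (Nat.one_le_iff_ne_zero.2 (by positivity))
      exact Nat.mul_le_mul_left _ (Nat.mul_le_mul_left _ (by omega))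

end Pool.Agent.Work.MP_215640_nt
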