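import Pool.Agent.Work.MP_215640_nt.Weyl

/-!
MODULE QLEM. Simultaneous recurrence and genericity.
-/

set_option autoImplicit false

namespace Pool.Agent.Work.MP_215640_nt

open Finset Polynomial

/-- Dirichlet sum -/
private noncomputable def Dn (n : ℕ) (t : ℝ) : ℂ := ∑ j ∈ range n, ee ((j : ℝ) * t)

private theorem Dn_mul (n : ℕ) (t : ℝ) : Dn n t * (1 - ee t) = 1 - ee (n * t) := by
  unfold Dn
  have h : ∀ j : ℕ, ee ((j : ℝ) * t) = ee t ^ j := fun j => ee_nat_mul j t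
  simp only [h]
  exact geom_sum_mul_neg _ _

private theorem Dn_norm_le (n : ℕ) (t : ℝ) : ‖Dn n t‖ * dI t ≤ 1 / 2 := by
  have h1 : ‖Dn n t‖ * ‖1 - ee t‖ = ‖1 - ee (n * t)‖ := by rw [← norm_mul, Dn_mul]
  have h2 : ‖1 - ee (n * t)‖ ≤ 2 := by
    calc ‖1 - ee (n * t)‖ ≤ ‖(1 : ℂ)‖ + ‖ee (n * t)‖ := norm_sub_le _ _
      _ = 2 := by rw [norm_ee]; norm_num
  have h3 := mul_le_mul_of_nonneg_left (norm_one_sub_ee t) (norm_nonneg (Dn n t))
  nlinarith

private theorem dI_ge_of_close (x : ℝ) (m : ℤ) (h : |x - m| ≤ 1 / 2) : |x - m| ≤ dI x := by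
  obtain ⟨w, hw⟩ := exists_int_dI x
  rcases eq_or_ne w m with rfl | hne
  · exact hw.le
  · have h1 : (1 : ℝ) ≤ |(w : ℝ) - m| := by
      have : (1 : ℤ) ≤ |w - m| := Int.one_le_abs (sub_ne_zero.mpr hne)
      exact_mod_cast this
    have h2 : |(w : ℝ) - m| ≤ |x - w| + |x - m| := by
      have : (w : ℝ) - m = (x - m) - (x - w) := by ring
      rw [this]
      calc |(x - m) - (x - w)| ≤ |x - m| + |x - w| := abs_sub _ _
        _ = _ := by ring
    linarith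

private theorem Dn_int (n : ℕ) (z : ℤ) : Dn n z = n := by
  unfold Dn
  have h : ∀ j : ℕ, ee ((j : ℝ) * z) = 1 := fun j => by
    have := ee_int ((j : ℤ) * z)
    push_cast at this
    exact this
  simp [h]

private theorem Dn_lower (n : ℕ) (t : ℝ) (h : 2 * n * dI t ≤ 1) :
    2 * (n : ℝ) ≤ Real.pi * ‖Dn n t‖ := by
  rcases eq_or_lt_of_le (dI_nonneg t) with h0 | h0
  · obtain ⟨z, hz⟩ := exists_int_dI t
    have ht : t = z := by
      rw [← h0] at hz
      linarith [abs_eq_zero.mp hz]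
    rw [ht, Dn_int]
    have : ‖(n : ℂ)‖ = n := by simp
    rw [this]
    have hpi := Real.pi_gt_three
    have hn : (0 : ℝ) ≤ n := Nat.cast_nonneg n
    nlinarith
  · have h1 : ‖Dn n t‖ * ‖1 - ee t‖ = ‖1 - ee (n * t)‖ := by rw [← norm_mul, Dn_mul]
    have h2 := mul_le_mul_of_nonneg_left (norm_one_sub_ee_le t) (norm_nonneg (Dn n t))
    have h3 := norm_one_sub_ee (n * t)
    have h4 : n * dI t ≤ dI (n * t) := by
      obtain ⟨z, hz⟩ := exists_int_dI t
      have h5 : |(n : ℝ) * t - ((n * z : ℤ) : ℝ)| = n * dI t := by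
        push_cast
        rw [← hz, ← mul_sub, abs_mul, Nat.abs_cast]
      have h6 := dI_ge_of_close ((n : ℝ) * t) (n * z) (by rw [h5]; linarith)
      rw [h5] at h6
      exact h6
    have h7 : 4 * (n * dI t) ≤ ‖Dn n t‖ * (2 * Real.pi * dI t) := by linarith
    have h8 : (2 * (n : ℝ)) * dI t ≤ (Real.pi * ‖Dn n t‖) * dI t := by nlinarith
    exact le_of_mul_le_mul_right h8 h0

private theorem Dn_sq (n : ℕ) (t : ℝ) :
    ((‖Dn n t‖ ^ 2 : ℝ) : ℂ) = ∑ p ∈ range n ×ˢ range n, ee ((((p.1 : ℤ) - (p.2 : ℤ) : ℤ) : ℝ) * t) := by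
  have h1 : ((‖Dn n t‖ ^ 2 : ℝ) : ℂ) = Dn n t * (starRingEnd ℂ) (Dn n t) := by
    rw [Complex.mul_conj, Complex.normSq_eq_norm_sq]
  rw [h1, Finset.sum_product]
  unfold Dn
  rw [map_sum, Finset.sum_mul_sum]
  refine Finset.sum_congr rfl fun i _ => Finset.sum_congr rfl fun j _ => ?_
  rw [← ee_neg, ← ee_add]
  congr 1
  push_cast
  ring

/-- the function to be averaged -/
private noncomputable def psi (B' K : ℕ) (t : ℝ) : ℝ :=
  1 - Real.pi ^ 2 / 4 / (K : ℝ) ^ 2 * ∑ l ∈ Icc 1 B', ‖Dn K (l * t)‖ ^ 2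

private theorem psi_le_one (B' K : ℕ) (t : ℝ) : psi B' K t ≤ 1 := by
  unfold psi
  have : 0 ≤ Real.pi ^ 2 / 4 / (K : ℝ) ^ 2 * ∑ l ∈ Icc 1 B', ‖Dn K (l * t)‖ ^ 2 := by positivity
  linarith

private theorem psi_nonpos (B' : ℕ) (hB : 1 ≤ B') (t : ℝ) (h : ¬ Gen B' (1 / (10 * (B' : ℝ))) t) :
    psi B' (5 * B') t ≤ 0 := by
  unfold Gen at h
  push Not at h
  obtain ⟨l, hl1, hl2, hl3⟩ := h
  have hBpos : (0 : ℝ) < B' := by exact_mod_cast hB
  have h1 : 2 * ((5 * B' : ℕ) : ℝ) * dI (l * t) ≤ 1 := by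
    push_cast
    have : (10 * (B' : ℝ)) * dI (l * t) ≤ (10 * (B' : ℝ)) * (1 / (10 * (B' : ℝ))) :=
      mul_le_mul_of_nonneg_left hl3.le (by positivity)
    have h2 : (10 * (B' : ℝ)) * (1 / (10 * (B' : ℝ))) = 1 := by field_simp
    linarith
  have h2 := Dn_lower (5 * B') (l * t) h1
  have h3 : ‖Dn (5 * B') (l * t)‖ ^ 2 ≤ ∑ l ∈ Icc 1 B', ‖Dn (5 * B') (l * t)‖ ^ 2 :=
    Finset.single_le_sum (f := fun l : ℕ => ‖Dn (5 * B') ((l : ℝ) * t)‖ ^ 2)
      (fun i _ => by positivity) (Finset.mem_Icc.mpr ⟨hl1, hl2⟩)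
  unfold psi
  have hK : (0 : ℝ) < ((5 * B' : ℕ) : ℝ) := by push_cast; positivity
  have h4 : (2 * ((5 * B' : ℕ) : ℝ)) ^ 2 ≤ (Real.pi * ‖Dn (5 * B') (l * t)‖) ^ 2 :=
    pow_le_pow_left₀ (by positivity) h2 2
  have h5 : 1 ≤ Real.pi ^ 2 / 4 / ((5 * B' : ℕ) : ℝ) ^ 2 * ‖Dn (5 * B') (l * t)‖ ^ 2 := by
    rw [div_div, div_mul_eq_mul_div, le_div_iff₀ (by positivity)]
    nlinarith
  have h6 : Real.pi ^ 2 / 4 / ((5 * B' : ℕ) : ℝ) ^ 2 * ‖Dn (5 * B') (l * t)‖ ^ 2 ≤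
      Real.pi ^ 2 / 4 / ((5 * B' : ℕ) : ℝ) ^ 2 * ∑ l ∈ Icc 1 B', ‖Dn (5 * B') (l * t)‖ ^ 2 :=
    mul_le_mul_of_nonneg_left h3 (by positivity)
  linarith

/-- the exponential sum -/
private noncomputable def Ss (M r : ℕ) (β Λ : ℝ) (Q : ℕ) (a b : ℤ) : ℂ :=
  ∑ q ∈ range Q, ee ((a : ℝ) * (β * (q : ℝ) ^ r) + (b : ℝ) * (Λ * (q : ℝ) ^ M))

private theorem psi_sum (B' K : ℕ) (t : ℝ) :
    ((∑ l ∈ Icc 1 B', ‖Dn K ((l : ℝ) * t)‖ ^ 2 : ℝ) : ℂ) =
      ∑ s ∈ Icc 1 B' ×ˢ (range K ×ˢ range K),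
        ee ((((s.1 : ℤ) * ((s.2.1 : ℤ) - (s.2.2 : ℤ)) : ℤ) : ℝ) * t) := by
  rw [Finset.sum_product]
  push_cast [-Complex.ofReal_pow]
  refine Finset.sum_congr rfl fun l _ => ?_
  have := Dn_sq K ((l : ℝ) * t)
  push_cast at this ⊢
  rw [this]
  refine Finset.sum_congr rfl fun p _ => ?_
  congr 1
  ring

private noncomputable def GG (M r : ℕ) (β Λ : ℝ) (B' K H : ℕ) (q : ℕ) : ℝ :=
  ‖Dn H (β * (q : ℝ) ^ r)‖ ^ 2 * psi B' K (Λ * (q : ℝ) ^ M)

private theorem GG_sum (M r : ℕ) (β Λ : ℝ) (B' K H Q : ℕ) :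
    ((∑ q ∈ range Q, GG M r β Λ B' K H q : ℝ) : ℂ) =
      ∑ p ∈ range H ×ˢ range H, Ss M r β Λ Q ((p.1 : ℤ) - (p.2 : ℤ)) 0 -
      ((Real.pi ^ 2 / 4 / (K : ℝ) ^ 2 : ℝ) : ℂ) * ∑ p ∈ range H ×ˢ range H,
        ∑ s ∈ Icc 1 B' ×ˢ (range K ×ˢ range K),
          Ss M r β Λ Q ((p.1 : ℤ) - (p.2 : ℤ)) ((s.1 : ℤ) * ((s.2.1 : ℤ) - (s.2.2 : ℤ))) := by
  have h1 : ∀ q ∈ range Q, ((GG M r β Λ B' K H q : ℝ) : ℂ) =
      ∑ p ∈ range H ×ˢ range H,
        ee (((((p.1 : ℤ) - (p.2 : ℤ) : ℤ)) : ℝ) * (β * (q : ℝ) ^ r) +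
          ((0 : ℤ) : ℝ) * (Λ * (q : ℝ) ^ M)) -
      ((Real.pi ^ 2 / 4 / (K : ℝ) ^ 2 : ℝ) : ℂ) * ∑ p ∈ range H ×ˢ range H,
        ∑ s ∈ Icc 1 B' ×ˢ (range K ×ˢ range K),
          ee (((((p.1 : ℤ) - (p.2 : ℤ) : ℤ)) : ℝ) * (β * (q : ℝ) ^ r) +
            ((((s.1 : ℤ) * ((s.2.1 : ℤ) - (s.2.2 : ℤ)) : ℤ)) : ℝ) * (Λ * (q : ℝ) ^ M)) := by
    intro q _
    unfold GG psi
    rw [Complex.ofReal_mul, Dn_sq, Complex.ofReal_sub, Complex.ofReal_mul, psi_sum]
    rw [mul_sub, Complex.ofReal_one, mul_one]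
    congr 1
    · refine Finset.sum_congr rfl fun p _ => ?_
      congr 1
      push_cast
      ring
    · rw [mul_left_comm, Finset.sum_mul]
      congr 1
      refine Finset.sum_congr rfl fun p _ => ?_
      rw [Finset.mul_sum]
      refine Finset.sum_congr rfl fun s _ => ?_
      rw [← ee_add]
  rw [Complex.ofReal_sum, Finset.sum_congr rfl h1, Finset.sum_sub_distrib]
  congr 1
  · rw [Finset.sum_comm]
    rfl
  · rw [← Finset.mul_sum, Finset.sum_comm]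
    congr 1
    refine Finset.sum_congr rfl fun p _ => ?_
    rw [Finset.sum_comm]
    rfl

private theorem sum_diag (n : ℕ) (x : ℝ) :
    ∑ p ∈ range n ×ˢ range n, (if (p.1 : ℤ) - (p.2 : ℤ) = 0 then x else 0) = n * x := by
  rw [Finset.sum_product]
  have : ∀ i ∈ range n, ∑ j ∈ range n, (if (i : ℤ) - (j : ℤ) = 0 then x else 0) = x := by
    intro i hi
    rw [Finset.sum_eq_single i]
    · simp
    · intro b _ hb
      rw [if_neg]
      intro h
      apply hb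
      have : (i : ℤ) = b := by linarith
      exact_mod_cast this.symm
    · intro h
      exact absurd hi h
  rw [Finset.sum_congr rfl this]
  simp

private theorem GG_lower (M r : ℕ) (β Λ : ℝ) (B' K H Q : ℕ) (hK : 1 ≤ K) (ε1 : ℝ) (hε1 : 0 ≤ ε1)
    (hS : ∀ a b : ℤ, |a| < H → |b| ≤ B' * K → (a ≠ 0 ∨ b ≠ 0) →
      ‖Ss M r β Λ Q a b‖ ≤ ε1 * Q) :
    (H : ℝ) * Q * (1 - Real.pi ^ 2 / 4 * B' / K) -
      ε1 * Q * (H : ℝ) ^ 2 * (1 + Real.pi ^ 2 / 4 * B') ≤ ∑ q ∈ range Q, GG M r β Λ B' K H q := by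
  have hKpos : (0 : ℝ) < K := by exact_mod_cast hK
  have hre : ∀ a b : ℤ, |a| < H → |b| ≤ B' * K →
      |(Ss M r β Λ Q a b).re - (if a = 0 ∧ b = 0 then (Q : ℝ) else 0)| ≤ ε1 * Q := by
    intro a b ha hb
    by_cases h : a = 0 ∧ b = 0
    · rw [if_pos h, h.1, h.2]
      have : Ss M r β Λ Q 0 0 = Q := by
        unfold Ss
        simp [ee_zero]
      rw [this]
      simp
      positivity
    · rw [if_neg h, sub_zero]
      have h' : a ≠ 0 ∨ b ≠ 0 := by tauto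
      exact (Complex.abs_re_le_norm _).trans (hS a b ha hb h')
  have hp : ∀ p ∈ range H ×ˢ range H, |(p.1 : ℤ) - (p.2 : ℤ)| < H := by
    intro p hp
    rw [Finset.mem_product, Finset.mem_range, Finset.mem_range] at hp
    rw [abs_lt]
    constructor <;> omega
  have hs : ∀ s ∈ Icc 1 B' ×ˢ (range K ×ˢ range K),
      |(s.1 : ℤ) * ((s.2.1 : ℤ) - (s.2.2 : ℤ))| ≤ B' * K := by
    intro s hs
    rw [Finset.mem_product, Finset.mem_product, Finset.mem_range, Finset.mem_range,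
      Finset.mem_Icc] at hs
    rw [abs_mul]
    have h1 : |(s.1 : ℤ)| ≤ B' := by
      rw [abs_le]
      constructor <;> omega
    have h2 : |(s.2.1 : ℤ) - (s.2.2 : ℤ)| ≤ K := by
      rw [abs_le]
      constructor <;> omega
    exact mul_le_mul h1 h2 (abs_nonneg _) (by positivity)
  have hmain := congrArg Complex.re (GG_sum M r β Λ B' K H Q)
  rw [Complex.ofReal_re, Complex.sub_re, Complex.re_ofReal_mul, Complex.re_sum,
    Complex.re_sum] at hmain
  rw [hmain]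
  have hA : (H : ℝ) * Q - ε1 * Q * (H : ℝ) ^ 2 ≤
      ∑ p ∈ range H ×ˢ range H, (Ss M r β Λ Q ((p.1 : ℤ) - (p.2 : ℤ)) 0).re := by
    have h1 : ∑ p ∈ range H ×ˢ range H,
        ((if (p.1 : ℤ) - (p.2 : ℤ) = 0 then (Q : ℝ) else 0) - ε1 * Q) ≤
        ∑ p ∈ range H ×ˢ range H, (Ss M r β Λ Q ((p.1 : ℤ) - (p.2 : ℤ)) 0).re := by
      refine Finset.sum_le_sum fun p hp' => ?_
      have := (abs_le.mp (hre _ 0 (hp p hp') (by simp; positivity))).1
      simp only [and_true] at this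
      linarith
    rw [Finset.sum_sub_distrib, sum_diag, Finset.sum_const, Finset.card_product, Finset.card_range,
      nsmul_eq_mul] at h1
    push_cast at h1
    nlinarith
  have hB : ∑ p ∈ range H ×ˢ range H, (∑ s ∈ Icc 1 B' ×ˢ (range K ×ˢ range K),
      Ss M r β Λ Q ((p.1 : ℤ) - (p.2 : ℤ)) ((s.1 : ℤ) * ((s.2.1 : ℤ) - (s.2.2 : ℤ)))).re ≤
      (H : ℝ) * (B' * K) * Q + ε1 * Q * (H : ℝ) ^ 2 * (B' * (K : ℝ) ^ 2) := by
    have h1 : ∀ p ∈ range H ×ˢ range H, (∑ s ∈ Icc 1 B' ×ˢ (range K ×ˢ range K),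
      Ss M r β Λ Q ((p.1 : ℤ) - (p.2 : ℤ)) ((s.1 : ℤ) * ((s.2.1 : ℤ) - (s.2.2 : ℤ)))).re ≤
        (if (p.1 : ℤ) - (p.2 : ℤ) = 0 then ((B' * K : ℝ) * Q) else 0) +
          (B' * (K : ℝ) ^ 2) * (ε1 * Q) := by
      intro p hp'
      rw [Complex.re_sum]
      have h2 : ∑ s ∈ Icc 1 B' ×ˢ (range K ×ˢ range K),
          (Ss M r β Λ Q ((p.1 : ℤ) - (p.2 : ℤ)) ((s.1 : ℤ) * ((s.2.1 : ℤ) - (s.2.2 : ℤ)))).re ≤
          ∑ s ∈ Icc 1 B' ×ˢ (range K ×ˢ range K),
            ((if (p.1 : ℤ) - (p.2 : ℤ) = 0 then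
              (if (s.2.1 : ℤ) - (s.2.2 : ℤ) = 0 then (Q : ℝ) else 0) else 0) + ε1 * Q) := by
        refine Finset.sum_le_sum fun s hs' => ?_
        have h3 := (abs_le.mp (hre _ _ (hp p hp') (hs s hs'))).2
        have h4 : (s.1 : ℤ) ≠ 0 := by
          rw [Finset.mem_product, Finset.mem_Icc] at hs'
          omega
        have h5 : ((p.1 : ℤ) - (p.2 : ℤ) = 0 ∧ (s.1 : ℤ) * ((s.2.1 : ℤ) - (s.2.2 : ℤ)) = 0) ↔
            ((p.1 : ℤ) - (p.2 : ℤ) = 0 ∧ (s.2.1 : ℤ) - (s.2.2 : ℤ) = 0) := by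
          rw [mul_eq_zero]
          tauto
        rw [if_congr h5 rfl rfl, ite_and] at h3
        linarith
      refine h2.trans ?_
      rw [Finset.sum_add_distrib, Finset.sum_const, Finset.card_product, Finset.card_product,
        Finset.card_range, Nat.card_Icc, nsmul_eq_mul]
      push_cast
      refine add_le_add ?_ (le_of_eq ?_)
      · split_ifs with h0
        · rw [Finset.sum_product]
          simp only [sum_diag]
          simp
          nlinarith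
        · simp
      · ring
    refine (Finset.sum_le_sum h1).trans ?_
    rw [Finset.sum_add_distrib, sum_diag, Finset.sum_const, Finset.card_product, Finset.card_range,
      nsmul_eq_mul]
    push_cast
    nlinarith
  have hc : 0 ≤ Real.pi ^ 2 / 4 / (K : ℝ) ^ 2 := by positivity
  have hC := mul_le_mul_of_nonneg_left hB hc
  have hD : Real.pi ^ 2 / 4 / (K : ℝ) ^ 2 * ((H : ℝ) * (B' * K) * Q + ε1 * Q * (H : ℝ) ^ 2 * (B' * (K : ℝ) ^ 2)) =
      (H : ℝ) * Q * (Real.pi ^ 2 / 4 * B' / K) + ε1 * Q * (H : ℝ) ^ 2 * (Real.pi ^ 2 / 4 * B') := by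
    field_simp
  rw [hD] at hC
  nlinarith

private theorem Gen.neg' {B : ℕ} {η t : ℝ} (h : Gen B η t) : Gen B η (-t) := by
  intro l h1 h2
  have := h l h1 h2
  rwa [mul_neg, dI_neg]

private theorem Gen.int_mul' {B n : ℕ} {η t : ℝ} (h : Gen (B * n) η t) {b : ℤ} (hb : b ≠ 0)
    (hbn : |b| ≤ n) : Gen B η ((b : ℝ) * t) := by
  have h1 : Gen B η ((b.natAbs : ℝ) * t) := by
    refine Gen.nat_mul (Gen.mono h ?_ le_rfl) ?_
    · exact Nat.mul_le_mul_left _ (by zify; exact hbn)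
    · exact Int.natAbs_pos.mpr hb
  rcases Int.natAbs_eq b with h2 | h2
  · rw [h2]
    simpa using h1
  · have h3 : (b : ℝ) * t = -((b.natAbs : ℝ) * t) := by
      have : (b : ℝ) = -(b.natAbs : ℝ) := by
        conv_lhs => rw [h2]
        rw [Int.cast_neg, Int.cast_natCast]
      rw [this, neg_mul]
    rw [h3]
    exact Gen.neg' h1

/-- polynomial for the sums -/
private theorem poly_eval (M r : ℕ) (x y : ℝ) (q : ℕ) :
    (Polynomial.monomial r x + Polynomial.monomial M y : ℝ[X]).eval (q : ℝ) =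
      x * (q : ℝ) ^ r + y * (q : ℝ) ^ M := by
  simp [Polynomial.eval_monomial]

private theorem poly_natDegree (M r : ℕ) (hrM : r ≤ M) (x y : ℝ) :
    (Polynomial.monomial r x + Polynomial.monomial M y : ℝ[X]).natDegree ≤ M := by
  refine (Polynomial.natDegree_add_le _ _).trans (max_le ?_ ?_)
  · exact (Polynomial.natDegree_monomial_le _).trans hrM
  · exact Polynomial.natDegree_monomial_le _

theorem qlem (M r : ℕ) (hr : 1 ≤ r) (hrM : r < M) : ∀ ε : ℝ, 0 < ε → ∀ B' : ℕ, 1 ≤ B' →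
    ∃ B : ℕ, 1 ≤ B ∧ ∀ η : ℝ, 0 < η → ∃ Q : ℕ, ∀ β Λ : ℝ, Gen B η Λ →
      ∃ q : ℕ, 1 ≤ q ∧ q ≤ Q ∧ dI (β * (q : ℝ) ^ r) ≤ ε ∧
        Gen B' (1 / (10 * (B' : ℝ))) (Λ * (q : ℝ) ^ M) := by
  intro ε hε B' hB'
  -- parameters
  obtain ⟨H, hH⟩ := exists_nat_ge (1 / ε ^ 2 + 1)
  have hH1 : 1 ≤ H := by
    have : (1 : ℝ) ≤ H := le_trans (by have : 0 ≤ 1 / ε ^ 2 := by positivity
                                       linarith) hH
    exact_mod_cast this
  have hHpos : (0 : ℝ) < H := by exact_mod_cast hH1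
  have hB'pos : (0 : ℝ) < B' := by exact_mod_cast hB'
  set K : ℕ := 5 * B' with hKdef
  have hK1 : 1 ≤ K := by omega
  have hKr : (K : ℝ) = 5 * B' := by rw [hKdef]; push_cast; ring
  set ε1 : ℝ := 1 / (8 * (H * (1 + Real.pi ^ 2 / 4 * B'))) with hε1def
  have hε1 : 0 < ε1 := by positivity
  have hε1' : ε1 * (H * (1 + Real.pi ^ 2 / 4 * B')) = 1 / 8 := by
    rw [hε1def]
    field_simp
  have hpi : Real.pi ^ 2 / 4 * B' / K ≤ 1 / 2 := by
    rw [hKr]
    have h1 : Real.pi ^ 2 / 4 * B' / (5 * B') = Real.pi ^ 2 / 20 := by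
      field_simp
      norm_num
    rw [h1]
    have h2 := Real.pi_lt_d2
    have h3 := Real.pi_pos
    nlinarith
  obtain ⟨BM, hBM1, hBM⟩ := weyl M (by omega) ε1 hε1
  obtain ⟨Br, hBr1, hBr⟩ := weyl r hr ε1 hε1
  set C1 : ℕ := Br * H with hC1def
  have hC11 : 1 ≤ C1 := Nat.mul_pos hBr1 hH1
  refine ⟨BM * (B' * K) * C1 ^ M, Nat.mul_pos (Nat.mul_pos hBM1 (Nat.mul_pos hB' hK1))
    (pow_pos hC11 M), ?_⟩
  intro η hη
  obtain ⟨VM, hVM⟩ := hBM η hη
  set S : ℕ := max VM 1 with hSdef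
  have hS1 : 1 ≤ S := le_max_right _ _
  have hSpos : (0 : ℝ) < S := by exact_mod_cast hS1
  have hC1pos : (0 : ℝ) < C1 := by exact_mod_cast hC11
  set η1 : ℝ := ε / ((C1 : ℝ) ^ (r - 1) * (S : ℝ) ^ r) with hη1def
  have hη1 : 0 < η1 := by positivity
  obtain ⟨Vr, hVr⟩ := hBr η1 hη1
  set Q0 : ℕ := max VM (max Vr 1) with hQ0def
  refine ⟨max Q0 (C1 * S), ?_⟩
  intro β Λ hΛ
  by_cases hcase : Gen C1 η1 β
  · -- case (ii)
    by_contra hcon
    push Not at hcon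
    have hQ01 : 1 ≤ Q0 := (le_max_right _ _).trans (le_max_right _ _)
    have hQ0pos : (0 : ℝ) < Q0 := by exact_mod_cast hQ01
    have hlow := GG_lower M r β Λ B' K H Q0 hK1 ε1 hε1.le (by
      intro a b ha hb hab
      by_cases hb0 : b = 0
      · subst hb0
        have ha0 : a ≠ 0 := by tauto
        have h1 : Gen Br η1 ((a : ℝ) * β) := Gen.int_mul' hcase ha0 ha.le
        have h2 := hVr Q0 ((le_max_left _ _).trans (le_max_right _ _))
          (Polynomial.monomial r ((a : ℝ) * β)) (Polynomial.natDegree_monomial_le _)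
          (by simpa using h1)
        unfold Ss
        convert h2 using 4 with q hq
        simp [Polynomial.eval_monomial]
        ring
      · have h1 : Gen BM η ((b : ℝ) * Λ) := by
          refine Gen.int_mul' (n := B' * K) (Gen.mono hΛ ?_ le_rfl) hb0 (by push_cast; exact hb)
          exact Nat.le_mul_of_pos_right _ (pow_pos hC11 M)
        have h2 := hVM Q0 (le_max_left _ _)
          (Polynomial.monomial r ((a : ℝ) * β) + Polynomial.monomial M ((b : ℝ) * Λ))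
          (poly_natDegree M r hrM.le _ _) (by
            rw [Polynomial.coeff_add, Polynomial.coeff_monomial, Polynomial.coeff_monomial,
              if_neg (by omega), if_pos rfl, zero_add]
            exact h1)
        unfold Ss
        convert h2 using 4 with q hq
        rw [poly_eval]
        ring)
    have hup : ∀ q ∈ range Q0, GG M r β Λ B' K H q ≤ H / 4 := by
      intro q hq
      rw [Finset.mem_range] at hq
      unfold GG
      by_cases hG : Gen B' (1 / (10 * (B' : ℝ))) (Λ * (q : ℝ) ^ M)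
      · have hq1 : 1 ≤ q := by
          by_contra h0
          have h0' : q = 0 := by omega
          rw [h0'] at hG
          have h1 := hG 1 le_rfl hB'
          have h2 : ((1 : ℕ) : ℝ) * (Λ * ((0 : ℕ) : ℝ) ^ M) = 0 := by
            rw [Nat.cast_zero, zero_pow (by omega)]
            ring
          rw [h2] at h1
          have h3 := dI_le_abs 0
          rw [abs_zero] at h3
          have h4 : 0 < 1 / (10 * (B' : ℝ)) := by positivity
          linarith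
        have h1 : ε < dI (β * (q : ℝ) ^ r) := by
          by_contra h2
          exact hcon q hq1 (hq.le.trans (le_max_left _ _)) (not_lt.mp h2) hG
        have h2 := Dn_norm_le H (β * (q : ℝ) ^ r)
        have h3 : ‖Dn H (β * (q : ℝ) ^ r)‖ * ε ≤ 1 / 2 :=
          (mul_le_mul_of_nonneg_left h1.le (norm_nonneg _)).trans h2
        have h4 : ‖Dn H (β * (q : ℝ) ^ r)‖ ^ 2 * ε ^ 2 ≤ 1 / 4 := by
          have := pow_le_pow_left₀ (by positivity) h3 2
          rw [mul_pow] at this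
          linarith
        have h5 : 1 ≤ (H : ℝ) * ε ^ 2 := by
          have : 1 / ε ^ 2 ≤ H := by linarith
          rwa [div_le_iff₀ (by positivity)] at this
        have h6 : ‖Dn H (β * (q : ℝ) ^ r)‖ ^ 2 ≤ H / 4 := by
          have h7 : 0 ≤ ‖Dn H (β * (q : ℝ) ^ r)‖ ^ 2 := by positivity
          have h8 : ‖Dn H (β * (q : ℝ) ^ r)‖ ^ 2 * ε ^ 2 ≤ (H / 4) * ε ^ 2 := by
            linarith
          exact le_of_mul_le_mul_right h8 (by positivity)
        calc ‖Dn H (β * (q : ℝ) ^ r)‖ ^ 2 * psi B' K (Λ * (q : ℝ) ^ M)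
            ≤ ‖Dn H (β * (q : ℝ) ^ r)‖ ^ 2 * 1 :=
              mul_le_mul_of_nonneg_left (psi_le_one _ _ _) (by positivity)
          _ ≤ H / 4 := by rw [mul_one]; exact h6
      · have h1 := psi_nonpos B' hB' _ hG
        have h2 : ‖Dn H (β * (q : ℝ) ^ r)‖ ^ 2 * psi B' K (Λ * (q : ℝ) ^ M) ≤ 0 :=
          mul_nonpos_of_nonneg_of_nonpos (by positivity) h1
        have : (0 : ℝ) ≤ H / 4 := by positivity
        linarith
    have hsum := Finset.sum_le_sum hup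
    rw [Finset.sum_const, Finset.card_range, nsmul_eq_mul] at hsum
    have h1 : (H : ℝ) * Q0 * (1 - Real.pi ^ 2 / 4 * B' / K) ≥ H * Q0 * (1 / 2) :=
      mul_le_mul_of_nonneg_left (by linarith) (by positivity)
    have h2 : ε1 * Q0 * (H : ℝ) ^ 2 * (1 + Real.pi ^ 2 / 4 * B') = H * Q0 * (1 / 8) := by
      rw [← hε1']
      ring
    have h3 : (H : ℝ) * Q0 * (1 / 2) - H * Q0 * (1 / 8) ≤ Q0 * (H / 4) := by linarith
    have h4 : 0 < (H : ℝ) * Q0 := by positivity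
    nlinarith
  · -- case (i)
    unfold Gen at hcase
    push Not at hcase
    obtain ⟨l, hl1, hl2, hl3⟩ := hcase
    have hlow := GG_lower M r 0 (Λ * (l : ℝ) ^ M) B' K 1 S hK1 ε1 hε1.le (by
      intro a b ha hb hab
      have ha0 : a = 0 := by
        have : |a| = 0 := by
          have h1 := abs_nonneg a
          have h2 : ((1 : ℕ) : ℤ) = 1 := rfl
          omega
        exact abs_eq_zero.mp this
      have hb0 : b ≠ 0 := by tauto
      have h1 : Gen BM η ((b : ℝ) * (Λ * (l : ℝ) ^ M)) := by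
        have h2 : Gen (BM * (B' * K)) η (((l ^ M : ℕ) : ℝ) * Λ) := by
          refine Gen.nat_mul (Gen.mono hΛ ?_ le_rfl) (Nat.one_le_pow _ _ hl1)
          exact Nat.mul_le_mul_left _ (Nat.pow_le_pow_left hl2 M)
        have h3 := Gen.int_mul' (n := B' * K) h2 hb0 (by push_cast; exact hb)
        have h4 : (b : ℝ) * (Λ * (l : ℝ) ^ M) = (b : ℝ) * (((l ^ M : ℕ) : ℝ) * Λ) := by
          push_cast
          ring
        rw [h4]
        exact h3
      have h2 := hVM S (le_max_left _ _)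
        (Polynomial.monomial M ((b : ℝ) * (Λ * (l : ℝ) ^ M)))
        (Polynomial.natDegree_monomial_le _) (by simpa using h1)
      unfold Ss
      convert h2 using 4 with q hq
      simp [Polynomial.eval_monomial]
      ring)
    have hex : ∃ s ∈ range S, 0 < GG M r 0 (Λ * (l : ℝ) ^ M) B' K 1 s := by
      by_contra hno
      push Not at hno
      have h1 := Finset.sum_nonpos hno
      have h2 : ((1 : ℕ) : ℝ) * S * (1 - Real.pi ^ 2 / 4 * B' / K) ≥ 1 * S * (1 / 2) := by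
        push_cast
        exact mul_le_mul_of_nonneg_left (by linarith) (by positivity)
      have h3 : ε1 * S * ((1 : ℕ) : ℝ) ^ 2 * (1 + Real.pi ^ 2 / 4 * B') ≤ S * (1 / 8) := by
        rw [← hε1']
        push_cast
        have h4 : (1 : ℝ) ≤ H := by exact_mod_cast hH1
        have h5 : 0 ≤ ε1 * (1 + Real.pi ^ 2 / 4 * B') * S := by positivity
        nlinarith
      nlinarith
    obtain ⟨s, hs, hspos⟩ := hex
    rw [Finset.mem_range] at hs
    unfold GG at hspos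
    have hpsi : 0 < psi B' K (Λ * (l : ℝ) ^ M * (s : ℝ) ^ M) := by
      by_contra h
      have := mul_nonpos_of_nonneg_of_nonpos
        (show (0 : ℝ) ≤ ‖Dn 1 (0 * (s : ℝ) ^ r)‖ ^ 2 by positivity) (not_lt.mp h)
      linarith
    have hGen : Gen B' (1 / (10 * (B' : ℝ))) (Λ * (l : ℝ) ^ M * (s : ℝ) ^ M) := by
      by_contra h
      have := psi_nonpos B' hB' _ h
      linarith
    have hs1 : 1 ≤ s := by
      by_contra h0
      have h0' : s = 0 := by omega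
      rw [h0'] at hGen
      have h1 := hGen 1 le_rfl hB'
      have h2 : ((1 : ℕ) : ℝ) * (Λ * (l : ℝ) ^ M * ((0 : ℕ) : ℝ) ^ M) = 0 := by
        rw [Nat.cast_zero, zero_pow (by omega)]
        ring
      rw [h2] at h1
      have h3 := dI_le_abs 0
      rw [abs_zero] at h3
      have h4 : 0 < 1 / (10 * (B' : ℝ)) := by positivity
      linarith
    refine ⟨l * s, Nat.mul_pos hl1 hs1, ?_, ?_, ?_⟩
    · exact (Nat.mul_le_mul hl2 hs.le).trans (le_max_right _ _)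
    · have h1 : β * ((l * s : ℕ) : ℝ) ^ r = ((l ^ (r - 1) * s ^ r : ℕ) : ℝ) * (l * β) := by
        push_cast
        obtain ⟨r', rfl⟩ : ∃ r', r = r' + 1 := ⟨r - 1, by omega⟩
        rw [Nat.add_sub_cancel]
        ring
      rw [h1]
      refine (dI_nat_mul_le _ _).trans ?_
      have h2 : ((l ^ (r - 1) * s ^ r : ℕ) : ℝ) ≤ (C1 : ℝ) ^ (r - 1) * (S : ℝ) ^ r := by
        push_cast
        have hl2' : (l : ℝ) ≤ C1 := by exact_mod_cast hl2
        have hs' : (s : ℝ) ≤ S := by exact_mod_cast hs.le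
        gcongr
      calc ((l ^ (r - 1) * s ^ r : ℕ) : ℝ) * dI (l * β)
          ≤ ((C1 : ℝ) ^ (r - 1) * (S : ℝ) ^ r) * η1 :=
            mul_le_mul h2 hl3.le (dI_nonneg _) (by positivity)
        _ = ε := by rw [hη1def]; field_simp
    · have h1 : Λ * ((l * s : ℕ) : ℝ) ^ M = Λ * (l : ℝ) ^ M * (s : ℝ) ^ M := by
        push_cast
        ring
      rw [h1]
      exact hGen

end Pool.Agent.Work.MP_215640_nt
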