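import Pool.Agent.Work.MP_215640_nt.QLem

/-!
MODULE SPLIT.

`chunk`: split `[0, V)` into the residue classes `ρ` mod `q` (each has `≥ V1` elements since
`q V1 ≤ V`) and each class (in order) into blocks of `V1` consecutive elements, the last one
of `< 2 V1` elements; add up the estimates for the blocks.

`split`: induction on `d`. `d = 0`: `P` is constant (`κ = P.eval 0`, all differences are 0); use
`qlem M 1` with `β = 0` to get `q ≤ Q` with `Gen B' (1/(10 B')) (Λ q^M)`, `V1 = max V' 1`,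
`V0 = Q V1`, `chunk`.
`d → d + 1`: the induction hypothesis with `(ε/2, V', B')` gives `B1` and, for `η1 = 1/(10 B1)`
(take `B1 ≥ 1`), `V1` (take `V1 ≥ 1`). `qlem M (d+1)` with `ε' = ε / (2 (2 V1)^(d+1))` and `B1`
gives `B`, and for given `η` a `Q`; `V0 = Q V1`. Given `Λ, P`: take `q` from `qlem` for
`β = P.coeff (d+1)`; on a chunk `(s, ℓ)`, `ℓ < 2 V1`: `P(s + q v) = β q^(d+1) v^(d+1) + P1(v)` with
`P1.natDegree ≤ d` (`P1 = P.comp (C s + C q * X) - monomial (d+1) (β q^(d+1))`), and the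
first term is within `ε/2` of an integer (`dI (n t) ≤ n dI t`). Apply the induction hypothesis to
`P1`, `Λ q^M`, `g (s + q ·)`, `h (s + q ·)`, length `ℓ ≥ V1`; sub-progressions
`s + q (s' + q' v) = (s + q s') + (q q') v`, and `Λ q^M q'^M = Λ (q q')^M`.
-/

set_option autoImplicit false

namespace Pool.Agent.Work.MP_215640_nt

open Finset Polynomial

private theorem spl_block (q V1 V : ℕ) (hV1 : 1 ≤ V1) (g h : ℕ → ℝ) (ε0 : ℝ)
    (H : ∀ s ℓ : ℕ, V1 ≤ ℓ → ℓ < 2 * V1 → s + q * (ℓ - 1) < V →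
      |∑ y ∈ range ℓ, g (s + q * y)| ≤ ε0 * ℓ + ∑ y ∈ range ℓ, h (s + q * y)) (L : ℕ) :
    ∀ s : ℕ, V1 ≤ L → s + q * (L - 1) < V →
      |∑ y ∈ range L, g (s + q * y)| ≤ ε0 * L + ∑ y ∈ range L, h (s + q * y) := by
  induction L using Nat.strong_induction_on with
  | _ L ih =>
    intro s hL hs
    by_cases h2 : L < 2 * V1
    · exact H s L hL h2 hs
    · push Not at h2
      obtain ⟨L', rfl⟩ := Nat.exists_eq_add_of_le (show V1 ≤ L by omega)
      have hsplit : ∀ f : ℕ → ℝ, ∑ y ∈ range (V1 + L'), f (s + q * y) =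
          ∑ y ∈ range V1, f (s + q * y) + ∑ y ∈ range L', f (s + q * V1 + q * y) := by
        intro f
        rw [sum_range_add]
        congr 1
        refine sum_congr rfl fun y _ => ?_
        congr 1
        ring
      rw [hsplit g, hsplit h]
      have h3 := H s V1 (le_refl _) (by omega) (by
        have : q * (V1 - 1) ≤ q * (V1 + L' - 1) := Nat.mul_le_mul_left q (by omega)
        omega)
      have h4 := ih L' (by omega) (s + q * V1) (by omega) (by
        have : q * V1 + q * (L' - 1) = q * (V1 + L' - 1) := by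
          rw [← mul_add]
          congr 1
          omega
        omega)
      calc |∑ y ∈ range V1, g (s + q * y) + ∑ y ∈ range L', g (s + q * V1 + q * y)|
          ≤ |∑ y ∈ range V1, g (s + q * y)| + |∑ y ∈ range L', g (s + q * V1 + q * y)| :=
            abs_add_le _ _
        _ ≤ (ε0 * V1 + ∑ y ∈ range V1, h (s + q * y)) +
            (ε0 * L' + ∑ y ∈ range L', h (s + q * V1 + q * y)) := add_le_add h3 h4
        _ = _ := by push_cast; ring

private theorem spl_mem (q V ρ : ℕ) (hq : 1 ≤ q) (hρ : ρ < q) (hqV : q ≤ V) (y : ℕ) :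
    y < (V - 1 - ρ) / q + 1 ↔ ρ + q * y < V := by
  rw [Nat.lt_succ_iff, Nat.le_div_iff_mul_le (by omega)]
  have : y * q = q * y := mul_comm _ _
  omega

private theorem spl_res (q V : ℕ) (hq : 1 ≤ q) (hqV : q ≤ V) (f : ℕ → ℝ) :
    ∑ v ∈ range V, f v = ∑ ρ ∈ range q, ∑ y ∈ range ((V - 1 - ρ) / q + 1), f (ρ + q * y) := by
  have h1 : ∑ v ∈ range V, f v = ∑ ρ ∈ range q, ∑ v ∈ (range V).filter (fun v => v % q = ρ), f v := by
    rw [sum_fiberwise_of_maps_to]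
    intro v _
    exact mem_range.2 (Nat.mod_lt _ (by omega))
  rw [h1]
  refine sum_congr rfl fun ρ hρ => ?_
  rw [mem_range] at hρ
  symm
  refine sum_bij' (fun y _ => ρ + q * y) (fun v _ => v / q) ?_ ?_ ?_ ?_ ?_
  · intro y hy
    rw [mem_range, spl_mem q V ρ hq hρ hqV] at hy
    rw [mem_filter, mem_range]
    refine ⟨hy, ?_⟩
    rw [Nat.add_mul_mod_self_left, Nat.mod_eq_of_lt hρ]
  · intro v hv
    rw [mem_filter, mem_range] at hv
    rw [mem_range, spl_mem q V ρ hq hρ hqV]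
    have := Nat.mod_add_div v q
    rw [hv.2] at this
    omega
  · intro y _
    rw [Nat.add_mul_div_left _ _ (by omega), Nat.div_eq_of_lt hρ, zero_add]
  · intro v hv
    rw [mem_filter, mem_range] at hv
    have := Nat.mod_add_div v q
    rw [hv.2] at this
    exact this
  · intro y _
    rfl

theorem chunk (q V1 V : ℕ) (hq : 1 ≤ q) (hV1 : 1 ≤ V1) (hV : q * V1 ≤ V) (g h : ℕ → ℝ) (ε0 : ℝ)
    (H : ∀ s ℓ : ℕ, V1 ≤ ℓ → ℓ < 2 * V1 → s + q * (ℓ - 1) < V →
      |∑ y ∈ range ℓ, g (s + q * y)| ≤ ε0 * ℓ + ∑ y ∈ range ℓ, h (s + q * y)) :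
    |∑ v ∈ range V, g v| ≤ ε0 * V + ∑ v ∈ range V, h v := by
  have hqV : q ≤ V := (Nat.le_mul_of_pos_right q hV1).trans hV
  have hone := spl_res q V hq hqV (fun _ => (1 : ℝ))
  simp only [sum_const, card_range, nsmul_eq_mul, mul_one] at hone
  rw [spl_res q V hq hqV g, spl_res q V hq hqV h, hone]
  calc |∑ ρ ∈ range q, ∑ y ∈ range ((V - 1 - ρ) / q + 1), g (ρ + q * y)|
      ≤ ∑ ρ ∈ range q, |∑ y ∈ range ((V - 1 - ρ) / q + 1), g (ρ + q * y)| :=
        abs_sum_le_sum_abs _ _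
    _ ≤ ∑ ρ ∈ range q, (ε0 * (((V - 1 - ρ) / q + 1 : ℕ) : ℝ) +
        ∑ y ∈ range ((V - 1 - ρ) / q + 1), h (ρ + q * y)) := by
        refine sum_le_sum fun ρ hρ => ?_
        rw [mem_range] at hρ
        refine spl_block q V1 V hV1 g h ε0 H _ ρ ?_ ?_
        · have h5 : V1 - 1 < (V - 1 - ρ) / q + 1 := by
            rw [spl_mem q V ρ hq hρ hqV]
            have h6 : q * (V1 - 1) + q = q * V1 := by
              rw [← Nat.mul_succ]; congr 1; omega
            omega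
          omega
        · rw [Nat.add_sub_cancel, ← spl_mem q V ρ hq hρ hqV]
          omega
    _ = _ := by rw [sum_add_distrib, ← mul_sum]

private theorem spl_coeff (P : ℝ[X]) (d : ℕ) (hP : P.natDegree ≤ d + 1) (s q : ℝ) :
    (P.comp (C s + C q * X) - monomial (d + 1) (P.coeff (d + 1) * q ^ (d + 1))).natDegree ≤ d := by
  have hL : (C s + C q * X : ℝ[X]).natDegree ≤ 1 := by
    rw [add_comm]; exact natDegree_linear_le
  have hLi : ∀ i, ((C s + C q * X : ℝ[X]) ^ i).natDegree ≤ i := by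
    intro i
    have := natDegree_pow_le_of_le i hL
    simpa using this
  have hLc : ((C s + C q * X : ℝ[X]) ^ (d + 1)).coeff (d + 1) = q ^ (d + 1) := by
    have := coeff_pow_of_natDegree_le (m := d + 1) hL
    rw [mul_one] at this
    rw [this]
    simp
  have hcomp : P.comp (C s + C q * X) =
      ∑ i ∈ range (d + 2), C (P.coeff i) * (C s + C q * X) ^ i :=
    eval₂_eq_sum_range' C (by omega) _
  rw [natDegree_le_iff_coeff_eq_zero]
  intro r hr
  rw [coeff_sub, coeff_monomial, hcomp, finsetSum_coeff, sum_range_succ]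
  have h1 : ∑ i ∈ range (d + 1), (C (P.coeff i) * (C s + C q * X) ^ i).coeff r = 0 := by
    refine sum_eq_zero fun i hi => ?_
    rw [mem_range] at hi
    have h0 : ((C s + C q * X : ℝ[X]) ^ i).coeff r = 0 :=
      coeff_eq_zero_of_natDegree_lt (by have := hLi i; omega)
    rw [coeff_C_mul, h0, mul_zero]
  rw [h1, zero_add, coeff_C_mul]
  by_cases h2 : d + 1 = r
  · rw [if_pos h2, ← h2, hLc, sub_self]
  · have h0 : ((C s + C q * X : ℝ[X]) ^ (d + 1)).coeff r = 0 :=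
      coeff_eq_zero_of_natDegree_lt (by have := hLi (d + 1); omega)
    rw [if_neg h2, h0, mul_zero, sub_zero]

theorem split (M : ℕ) (hM : 2 ≤ M) (d : ℕ) (hd : d < M) : ∀ ε : ℝ, 0 < ε → ∀ V' : ℕ,
    ∀ B' : ℕ, 1 ≤ B' → ∃ B : ℕ, 1 ≤ B ∧ ∀ η : ℝ, 0 < η → ∃ V0 : ℕ, ∀ Λ : ℝ, Gen B η Λ →
      ∀ P : ℝ[X], P.natDegree ≤ d → ∀ V ≥ V0, ∀ (g h : ℕ → ℝ) (ε0 : ℝ),
        (∀ s q ℓ : ℕ, 1 ≤ q → V' ≤ ℓ → 1 ≤ ℓ → s + q * (ℓ - 1) < V →
          Gen B' (1 / (10 * (B' : ℝ))) (Λ * (q : ℝ) ^ M) →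
          (∃ κ : ℝ, ∀ v < ℓ, dI (P.eval ((s : ℝ) + q * v) - κ) ≤ ε) →
          |∑ v ∈ range ℓ, g (s + q * v)| ≤ ε0 * ℓ + ∑ v ∈ range ℓ, h (s + q * v)) →
        |∑ v ∈ range V, g v| ≤ ε0 * V + ∑ v ∈ range V, h v := by
  induction d with
  | zero =>
    intro ε hε V' B' hB'
    obtain ⟨B, hB, hBQ⟩ := qlem M 1 (le_refl 1) (by omega) ε hε B' hB'
    refine ⟨B, hB, fun η hη => ?_⟩
    obtain ⟨Q, hQ⟩ := hBQ η hη
    refine ⟨Q * max V' 1, fun Λ hΛ P hP V hV g h ε0 hyp => ?_⟩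
    obtain ⟨q, hq1, hqQ, -, hgen⟩ := hQ 0 Λ hΛ
    refine chunk q (max V' 1) V hq1 (le_max_right _ _)
      ((Nat.mul_le_mul_right _ hqQ).trans hV) g h ε0 ?_
    intro s ℓ hℓ _ hs
    refine hyp s q ℓ hq1 ((le_max_left _ _).trans hℓ) ((le_max_right _ _).trans hℓ) hs hgen
      ⟨P.coeff 0, fun v _ => ?_⟩
    have hPc : P = C (P.coeff 0) := eq_C_of_natDegree_le_zero hP
    rw [hPc, eval_C, coeff_C_zero, sub_self]
    have : dI 0 = 0 := by simp [dI]
    rw [this]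
    exact hε.le
  | succ d ih =>
    intro ε hε V' B' hB'
    obtain ⟨B1, hB1, hIH⟩ := ih (by omega) (ε / 2) (by positivity) V' B' hB'
    have hB1pos : (0 : ℝ) < B1 := by exact_mod_cast hB1
    obtain ⟨V1', hV1'⟩ := hIH (1 / (10 * (B1 : ℝ))) (by positivity)
    set V1 := max V1' 1 with hV1def
    have hV1one : 1 ≤ V1 := le_max_right _ _
    have hV1pos : (0 : ℝ) < V1 := by exact_mod_cast hV1one
    obtain ⟨B, hB, hBQ⟩ := qlem M (d + 1) (by omega) hd (ε / (2 * (2 * (V1 : ℝ)) ^ (d + 1)))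
      (by positivity) B1 hB1
    refine ⟨B, hB, fun η hη => ?_⟩
    obtain ⟨Q, hQ⟩ := hBQ η hη
    refine ⟨Q * V1, fun Λ hΛ P hP V hV g h ε0 hyp => ?_⟩
    obtain ⟨q, hq1, hqQ, hqβ, hgen⟩ := hQ (P.coeff (d + 1)) Λ hΛ
    refine chunk q V1 V hq1 hV1one ((Nat.mul_le_mul_right _ hqQ).trans hV) g h ε0 ?_
    intro s ℓ hℓ1 hℓ2 hs
    refine hV1' (Λ * (q : ℝ) ^ M) hgen
      (P.comp (C (s : ℝ) + C (q : ℝ) * X) -
        monomial (d + 1) (P.coeff (d + 1) * (q : ℝ) ^ (d + 1)))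
      (spl_coeff P d hP s q) ℓ ((le_max_left _ _).trans hℓ1)
      (fun y => g (s + q * y)) (fun y => h (s + q * y)) ε0 ?_
    intro s' q' ℓ' hq' hV'ℓ' hℓ'1 hs' hgen' hκ
    obtain ⟨κ, hκ⟩ := hκ
    have hsum : ∀ f : ℕ → ℝ, ∑ v ∈ range ℓ', f (s + q * (s' + q' * v)) =
        ∑ v ∈ range ℓ', f ((s + q * s') + (q * q') * v) := by
      intro f
      refine sum_congr rfl fun v _ => ?_
      congr 1
      ring
    change |∑ v ∈ range ℓ', g (s + q * (s' + q' * v))| ≤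
      ε0 * ℓ' + ∑ v ∈ range ℓ', h (s + q * (s' + q' * v))
    rw [hsum g, hsum h]
    refine hyp (s + q * s') (q * q') ℓ' (Nat.mul_pos hq1 hq') hV'ℓ' hℓ'1 ?_ ?_ ⟨κ, ?_⟩
    · have h1 : q * (s' + q' * (ℓ' - 1)) ≤ q * (ℓ - 1) := Nat.mul_le_mul_left q (by omega)
      have h2 : q * s' + q * q' * (ℓ' - 1) = q * (s' + q' * (ℓ' - 1)) := by ring
      omega
    · have h1 : Λ * ((q * q' : ℕ) : ℝ) ^ M = Λ * (q : ℝ) ^ M * (q' : ℝ) ^ M := by
        push_cast; rw [mul_pow]; ring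
      rw [h1]
      exact hgen'
    · intro v hv
      have hk := hκ v hv
      have hn : s' + q' * v < 2 * V1 := by
        have h1 : q' * v ≤ q' * (ℓ' - 1) := Nat.mul_le_mul_left q' (by omega)
        omega
      have heval : P.eval (((s + q * s' : ℕ) : ℝ) + ((q * q' : ℕ) : ℝ) * v) - κ =
          ((P.comp (C (s : ℝ) + C (q : ℝ) * X) -
            monomial (d + 1) (P.coeff (d + 1) * (q : ℝ) ^ (d + 1))).eval ((s' : ℝ) + q' * v) - κ) +
          (((s' + q' * v) ^ (d + 1) : ℕ) : ℝ) * (P.coeff (d + 1) * (q : ℝ) ^ (d + 1)) := by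
        rw [eval_sub, eval_comp, eval_monomial]
        simp only [eval_add, eval_C, eval_mul, eval_X]
        push_cast
        have : (s : ℝ) + q * s' + q * q' * v = s + q * (s' + q' * v) := by ring
        rw [this]
        ring
      rw [heval]
      refine (dI_add_le _ _).trans ?_
      have h3 := dI_nat_mul_le ((s' + q' * v) ^ (d + 1)) (P.coeff (d + 1) * (q : ℝ) ^ (d + 1))
      have h4 : ((((s' + q' * v) ^ (d + 1) : ℕ) : ℝ)) ≤ (2 * (V1 : ℝ)) ^ (d + 1) := by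
        push_cast
        apply pow_le_pow_left₀ (by positivity)
        exact_mod_cast hn.le
      have h5 : ((((s' + q' * v) ^ (d + 1) : ℕ) : ℝ)) *
          dI (P.coeff (d + 1) * (q : ℝ) ^ (d + 1)) ≤
          (2 * (V1 : ℝ)) ^ (d + 1) * (ε / (2 * (2 * (V1 : ℝ)) ^ (d + 1))) :=
        mul_le_mul h4 hqβ (dI_nonneg _) (by positivity)
      have h6 : (2 * (V1 : ℝ)) ^ (d + 1) * (ε / (2 * (2 * (V1 : ℝ)) ^ (d + 1))) = ε / 2 := by
        field_simp
      linarith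

end Pool.Agent.Work.MP_215640_nt
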