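import Pool.Agent.Work.MP_215640_nt.RecurBase
import Pool.Agent.Work.MP_215640_nt.Split
import Pool.Agent.Work.MP_215640_nt.Freeze

/-!
MODULE RECUR. Remove the hypothesis that the lower levels are tame.
-/

set_option autoImplicit false

namespace Pool.Agent.Work.MP_215640_nt

open Finset Polynomial Filter

/-- the claim with tame levels only in `D` -/
private def RecD (w : ℕ → Bool) (K i : ℕ) (om mu : ℝ) (M : ℕ) (π : ℕ → Bool) (α β : ℝ)
    (D : Finset ℕ) : Prop :=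
  ∀ ε : ℝ, 0 < ε → ∃ B : ℕ, 1 ≤ B ∧ ∀ η : ℝ, 0 < η → ∃ V0 : ℕ, ∀ L : ℕ, ∀ cst : ℝ, 0 ≤ cst →
      ∀ᶠ N : ℕ in atTop, ∀ a u q V : ℕ, N ≤ a → a < 2 * N → 1 ≤ q → Even q → V0 ≤ V →
        (∀ v < V, u + q * v ≤ L) → Gen B η (lam w i om M N a * (q : ℝ) ^ M) →
        (∀ j ∈ D, Tame w (dg w om) mu cst N (Tz om N) a u q V j) →
        |∑ v ∈ range V, gf w π (insert 0 (Sm w K i)) i α β (a + Tz om N * (u + q * v))|
          ≤ ε * V + ∑ v ∈ range V, near w (Sm w K i) ε (a + Tz om N * (u + q * v))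

private theorem rc_near_nonneg (w : ℕ → Bool) (S : Finset ℕ) (ε : ℝ) (n : ℕ) :
    0 ≤ near w S ε n := by
  unfold near
  split_ifs <;> norm_num

private theorem rc_abs_gf_le (w : ℕ → Bool) (π : ℕ → Bool) (J : Finset ℕ) (i : ℕ) (α β : ℝ) (n : ℕ)
    (h0 : 0 ≤ α) (h1 : α ≤ β) (h2 : β ≤ 1) : |gf w π J i α β n| ≤ 1 := by
  unfold gf arc
  split_ifs
  · rw [abs_le]; constructor <;> linarith
  · rw [abs_le]; constructor <;> linarith
  · simp

private theorem rc_mem_Sm {w : ℕ → Bool} {K i j : ℕ} :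
    j ∈ Sm w K i ↔ (1 ≤ j ∧ j ≤ K) ∧ cc w j < cc w i := by
  unfold Sm
  simp

private theorem rc_tame_sub {w : ℕ → Bool} {d : ℕ → ℕ} {mu cst cst' : ℝ} {N T a u q V j : ℕ}
    (s q' l : ℕ) (hcst : cst ≤ cst') (hsub : ∀ v < l, s + q' * v < V)
    (h : Tame w d mu cst N T a u q V j) :
    Tame w d mu cst' N T a (u + q * s) (q * q') l j := by
  obtain ⟨⟨b, hb⟩, P, hPd, hPc, hPe⟩ := h
  refine ⟨⟨b, ?_⟩, P, hPd, ?_, ?_⟩
  · intro v hv
    have := hb (s + q' * v) (hsub v hv)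
    rw [← this]
    congr 2
    ring
  · intro r
    refine (hPc r).trans ?_
    exact mul_le_mul_of_nonneg_right hcst (by positivity)
  · intro v hv
    have := hPe (s + q' * v) (hsub v hv)
    have e1 : a + T * (u + q * s + q * q' * v) = a + T * (u + q * (s + q' * v)) := by ring
    rw [e1, this]
    congr 2
    push_cast
    ring

private theorem rc_base {w : ℕ → Bool} {K i : ℕ} {om mu : ℝ} {M : ℕ} (h : IsCtx w K i om mu M)
    (π : ℕ → Bool) (α β : ℝ) (h0 : 0 ≤ α) (h1 : α ≤ β) (h2 : β ≤ 1) :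
    RecD w K i om mu M π α β (Sm w K i) := by
  intro ε hε
  obtain ⟨B, hB, H⟩ := recur_base h π α β h0 h1 h2 ε hε
  refine ⟨B, hB, fun η hη => ?_⟩
  obtain ⟨V0, HV⟩ := H η hη
  refine ⟨V0, fun L cst hcst => ?_⟩
  filter_upwards [HV L cst hcst] with N hN a u q V c1 c2 c3 c4 c5 c6 c7 c8
  refine (hN a u q V c1 c2 c3 c4 c5 c6 c7 c8).trans ?_
  exact le_add_of_nonneg_right (sum_nonneg fun v _ => rc_near_nonneg _ _ _ _)

private theorem rc_Tz {om : ℝ} (h1 : om < 1) : ∀ᶠ N : ℕ in atTop,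
    1 ≤ N ∧ 1 ≤ Tz om N ∧ (N : ℝ) ^ (1 - om) / 2 ≤ Tz om N := by
  have h2 : Tendsto (fun N : ℕ => (N : ℝ) ^ (1 - om)) atTop atTop :=
    (tendsto_rpow_atTop (by linarith)).comp tendsto_natCast_atTop_atTop
  filter_upwards [h2.eventually_ge_atTop 2, eventually_ge_atTop 1] with N hN hN1
  have h3 : (N : ℝ) ^ (1 - om) - 1 < Tz om N := by
    unfold Tz
    exact Nat.sub_one_lt_floor _
  have h4 : (1 : ℝ) ≤ Tz om N := by linarith
  refine ⟨hN1, by exact_mod_cast h4, by linarith⟩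

/-- size of the errors of the frozen coefficients -/
private theorem rc_size {w : ℕ → Bool} {om mu : ℝ} {j N a r d : ℕ} (hN : 1 ≤ N) (ha : N ≤ a)
    (ha2 : a < 2 * N) (hom : 0 < om) (hT : (N : ℝ) ^ (1 - om) / 2 ≤ Tz om N) (hr : r ≤ d)
    (hmu : mu ≤ cc w j - om * d) :
    ((a : ℝ) ^ cc w j)⁻¹ * ((a : ℝ) / Tz om N) ^ r ≤ 4 ^ d * (N : ℝ) ^ (-mu) := by
  have hNr : (1 : ℝ) ≤ N := by exact_mod_cast hN
  have hN0 : (0 : ℝ) < N := by linarith
  have har : (N : ℝ) ≤ a := by exact_mod_cast ha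
  have ha2r : (a : ℝ) ≤ 2 * N := by exact_mod_cast ha2.le
  have hX : 0 < (N : ℝ) ^ (1 - om) := Real.rpow_pos_of_pos hN0 _
  have hT0 : (0 : ℝ) < Tz om N := by linarith
  have h1 : (a : ℝ) / Tz om N ≤ 4 * (N : ℝ) ^ om := by
    rw [div_le_iff₀ hT0]
    have h2 : (N : ℝ) ^ om * (N : ℝ) ^ (1 - om) = N := by
      rw [← Real.rpow_add hN0]; simp
    have h3 : 0 < (N : ℝ) ^ om := Real.rpow_pos_of_pos hN0 _
    nlinarith
  have h4 : (1 : ℝ) ≤ 4 * (N : ℝ) ^ om := by
    have : (1 : ℝ) ≤ (N : ℝ) ^ om := Real.one_le_rpow hNr hom.le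
    linarith
  have h5 : ((a : ℝ) / Tz om N) ^ r ≤ (4 * (N : ℝ) ^ om) ^ d :=
    (pow_le_pow_left₀ (by positivity) h1 r).trans (pow_le_pow_right₀ h4 hr)
  have h6 : ((a : ℝ) ^ cc w j)⁻¹ ≤ (N : ℝ) ^ (-cc w j) := by
    rw [Real.rpow_neg hN0.le]
    apply inv_anti₀ (Real.rpow_pos_of_pos hN0 _)
    exact Real.rpow_le_rpow hN0.le har (cc_pos w j).le
  calc ((a : ℝ) ^ cc w j)⁻¹ * ((a : ℝ) / Tz om N) ^ r
      ≤ (N : ℝ) ^ (-cc w j) * (4 * (N : ℝ) ^ om) ^ d :=
        mul_le_mul h6 h5 (by positivity) (by positivity)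
    _ = 4 ^ d * (N : ℝ) ^ (-cc w j + om * d) := by
        rw [mul_pow, Real.rpow_add hN0, Real.rpow_mul hN0.le, Real.rpow_natCast]; ring
    _ ≤ 4 ^ d * (N : ℝ) ^ (-mu) := by
        apply mul_le_mul_of_nonneg_left _ (by positivity)
        apply Real.rpow_le_rpow_of_exponent_le hNr
        linarith

private theorem rc_step {w : ℕ → Bool} {K i : ℕ} {om mu : ℝ} {M : ℕ} (h : IsCtx w K i om mu M)
    (π : ℕ → Bool) (α β : ℝ) (h0 : 0 ≤ α) (h1 : α ≤ β) (h2 : β ≤ 1) (D : Finset ℕ) (j : ℕ)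
    (hjS : j ∈ Sm w K i) (hlow : ∀ l ∈ Sm w K i, cc w l < cc w j → l ∈ D)
    (IH : RecD w K i om mu M π α β (insert j D)) : RecD w K i om mu M π α β D := by
  intro ε hε
  obtain ⟨⟨hj1, hjK⟩, hjc⟩ := rc_mem_Sm.mp hjS
  obtain ⟨B', hB', H'⟩ := IH ε hε
  have hB'r : (0 : ℝ) < 10 * (B' : ℝ) := by
    have : (0 : ℝ) < B' := by exact_mod_cast hB'
    positivity
  obtain ⟨V', HV'⟩ := H' (1 / (10 * (B' : ℝ))) (by positivity)
  obtain ⟨hdM, hmuj⟩ := h.lower j hj1 hjK hjc
  set d : ℕ := dg w om j with hd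
  -- the small constant
  obtain ⟨ε1, hε1, hε1M, hε1ε⟩ : ∃ ε1 : ℝ, 0 < ε1 ∧ 2 ^ (M + 3) * ε1 < 1 ∧ 2 * ε1 ≤ ε := by
    refine ⟨min (ε / 2) (1 / 2 ^ (M + 4)), lt_min (by positivity) (by positivity), ?_, ?_⟩
    · calc (2 : ℝ) ^ (M + 3) * min (ε / 2) (1 / 2 ^ (M + 4))
          ≤ 2 ^ (M + 3) * (1 / 2 ^ (M + 4)) :=
            mul_le_mul_of_nonneg_left (min_le_right _ _) (by positivity)
        _ = 1 / 2 := by rw [pow_succ (2 : ℝ) (M + 3)]; field_simp
        _ < 1 := by norm_num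
    · calc 2 * min (ε / 2) (1 / 2 ^ (M + 4)) ≤ 2 * (ε / 2) :=
            mul_le_mul_of_nonneg_left (min_le_left _ _) (by norm_num)
        _ = ε := by ring
  have hε1d : 2 ^ (d + 3) * ε1 < 1 := by
    refine lt_of_le_of_lt ?_ hε1M
    apply mul_le_mul_of_nonneg_right _ hε1.le
    exact pow_le_pow_right₀ (by norm_num) (by omega)
  obtain ⟨C1, hC1, HF⟩ := freeze d
  obtain ⟨B, hB, HB⟩ := split M h.two_le_M d hdM (ε1 / 8) (by positivity) (max V' (M + 1)) B' hB'
  refine ⟨B, hB, fun η hη => ?_⟩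
  obtain ⟨V0, HV0⟩ := HB η hη
  refine ⟨max V0 1, fun L cst hcst => ?_⟩
  obtain ⟨C', hC', HL⟩ := level_expand h j hj1 hjK cst hcst L
  set cst' : ℝ := max cst (C' + C1 * ((L : ℝ) + 1) ^ d * 4 ^ d) with hcst'
  have hcc' : cst ≤ cst' := le_max_left _ _
  have hcc'2 : C' + C1 * ((L : ℝ) + 1) ^ d * 4 ^ d ≤ cst' := le_max_right _ _
  filter_upwards [HV' L cst' (hcst.trans hcc'), HL (ε1 / 2) (by positivity), rc_Tz h.om_lt] with
    N hN1 hN2 hN3 a u q V c1 c2 c3 c4 c5 c6 c7 c8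
  obtain ⟨hNpos, hT1, hT2⟩ := hN3
  have hV1 : 1 ≤ V := (le_max_right _ _).trans c5
  have haR : (0 : ℝ) < a := by exact_mod_cast (lt_of_lt_of_le hNpos c1)
  -- the parent is tame
  have hpar : pr w j = 0 ∨ Tame w (dg w om) mu cst N (Tz om N) a u q V (pr w j) := by
    by_cases hp0 : pr w j = 0
    · exact Or.inl hp0
    · right
      apply c8
      have hc := pr_spec w j hj1 hp0
      have hlt := pr_lt w j (by omega)
      exact hlow _ (rc_mem_Sm.mpr ⟨⟨by omega, by omega⟩, hc.trans hjc⟩) hc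
  obtain ⟨R, hRd, hRc, hRe⟩ := hN2 a u q V c1 c2 c6 hpar
  set A : ℝ := (a : ℝ) ^ cc w j with hA
  have hApos : 0 < A := Real.rpow_pos_of_pos haR _
  set T : ℕ := Tz om N with hT
  set P : ℝ[X] := C (A / 2) * R.comp (C ((T : ℝ) * q / a) * X + C ((T : ℝ) * u / a)) with hP
  have hPdeg : P.natDegree ≤ d := by
    rw [hP]
    apply (Polynomial.natDegree_C_mul_le _ _).trans
    apply Polynomial.natDegree_comp_le.trans
    have : (C ((T : ℝ) * q / a) * X + C ((T : ℝ) * u / a)).natDegree ≤ 1 :=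
      Polynomial.natDegree_linear_le
    calc R.natDegree * _ ≤ d * 1 := Nat.mul_le_mul hRd this
      _ = d := by ring
  have hPev : ∀ x : ℝ, P.eval x = A / 2 * R.eval ((T : ℝ) * ((u : ℝ) + q * x) / a) := by
    intro x
    rw [hP]
    simp only [eval_mul, eval_C, eval_comp, eval_add, eval_X]
    congr 2
    ring
  refine HV0 _ c7 P hPdeg V ((le_max_left _ _).trans c5)
    (fun v => gf w π (insert 0 (Sm w K i)) i α β (a + T * (u + q * v)))
    (fun v => near w (Sm w K i) ε (a + T * (u + q * v))) ε ?_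
  intro s q' l hq' hVl hl hsl hgen hκ
  obtain ⟨κ, hκ⟩ := hκ
  have hsub : ∀ v < l, s + q' * v < V := by
    intro v hv
    refine lt_of_le_of_lt ?_ hsl
    exact Nat.add_le_add_left (Nat.mul_le_mul_left _ (by omega)) _
  -- the values are close to `2 κ` mod 2
  have hclose : ∀ v < l, ∃ g : ℤ, |xx w j (a + T * (u + q * (s + q' * v))) - 2 * κ - 2 * g| ≤ ε1 := by
    intro v hv
    obtain ⟨g, hg⟩ := exists_int_dI (P.eval ((s : ℝ) + q' * v) - κ)
    refine ⟨g, ?_⟩
    have hk := hκ v hv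
    rw [← hg, hPev] at hk
    have hR := hRe (s + q' * v) (hsub v hv)
    push_cast at hR
    have hk' := abs_le.mp hk
    have hR' := abs_le.mp hR
    rw [abs_le]
    constructor <;> linarith [hk'.1, hk'.2, hR'.1, hR'.2]
  have hidx : ∀ v : ℕ, a + T * (u + q * (s + q' * v)) = a + T * (u + q * s + q * q' * v) := by
    intro v; ring
  by_cases hcase : dI (2 * κ) ≤ ε1
  · -- all values are near an integer
    have hnear : ∀ v < l, near w (Sm w K i) ε (a + T * (u + q * (s + q' * v))) = 1 := by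
      intro v hv
      unfold near
      rw [if_pos]
      refine ⟨j, hjS, ?_⟩
      obtain ⟨g, hg⟩ := hclose v hv
      have e1 := dI_sub_le (xx w j (a + T * (u + q * (s + q' * v)))) (2 * κ + ((2 * g : ℤ) : ℝ))
      rw [dI_add_int] at e1
      have e2 : |xx w j (a + T * (u + q * (s + q' * v))) - (2 * κ + ((2 * g : ℤ) : ℝ))| ≤ ε1 := by
        refine le_trans (le_of_eq ?_) hg
        congr 1
        push_cast
        ring
      linarith
    calc |∑ v ∈ range l, gf w π (insert 0 (Sm w K i)) i α β (a + T * (u + q * (s + q' * v)))|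
        ≤ ∑ v ∈ range l, |gf w π (insert 0 (Sm w K i)) i α β (a + T * (u + q * (s + q' * v)))| :=
          abs_sum_le_sum_abs _ _
      _ ≤ ∑ v ∈ range l, near w (Sm w K i) ε (a + T * (u + q * (s + q' * v))) := by
          apply sum_le_sum
          intro v hv
          rw [hnear v (mem_range.mp hv)]
          exact rc_abs_gf_le w π _ i α β _ h0 h1 h2
      _ ≤ _ := le_add_of_nonneg_left (by positivity)
  · push Not at hcase
    have hl1 : d + 1 ≤ l := by
      have := (le_max_right V' (M + 1)).trans hVl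
      omega
    have husL : u + q * s ≤ L := by
      have := c6 (s + q' * 0) (hsub 0 (by omega))
      simpa using this
    obtain ⟨⟨b, hb⟩, P1, hP1d, hP1e, hP1c⟩ := HF l T (q * q') (u + q * s) L (a : ℝ) A R
      (fun v => xx w j (a + T * (u + q * (s + q' * v)))) (2 * κ) ε1 hl1 hT1
      (Nat.mul_pos c3 hq') husL haR hApos hRd hε1.le hε1d (fun v _ => xx_nonneg _ _ _)
      (by
        intro v hv
        have hR := hRe (s + q' * v) (hsub v hv)
        refine le_trans (le_of_eq ?_) (hR.trans (by linarith))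
        congr 4
        push_cast
        ring)
      hclose hcase
    have htame : Tame w (dg w om) mu cst' N T a (u + q * s) (q * q') l j := by
      refine ⟨⟨b, ?_⟩, P1, hP1d, ?_, ?_⟩
      · intro v hv
        have := hb v hv
        rw [← hidx v]
        exact this
      · intro r
        by_cases hr : r ≤ d
        · have e1 := hP1c r hr
          have e2 := hRc r
          have e3 := rc_size (w := w) (om := om) (mu := mu) (j := j) (N := N) (a := a) (r := r)
            (d := d) hNpos c1 c2 h.om_pos hT2 hr hmuj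
          have e4 : C1 * ((L : ℝ) + 1) ^ d * A⁻¹ * ((a : ℝ) / T) ^ r ≤
              C1 * ((L : ℝ) + 1) ^ d * (4 ^ d * (N : ℝ) ^ (-mu)) := by
            rw [mul_assoc (C1 * ((L : ℝ) + 1) ^ d)]
            exact mul_le_mul_of_nonneg_left e3 (by positivity)
          calc |P1.coeff r - (Pst w (dg w om) j).coeff r|
              ≤ |P1.coeff r - R.coeff r| + |R.coeff r - (Pst w (dg w om) j).coeff r| :=
                abs_sub_le _ _ _
            _ ≤ C1 * ((L : ℝ) + 1) ^ d * (4 ^ d * (N : ℝ) ^ (-mu)) + C' * (N : ℝ) ^ (-mu) :=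
                add_le_add (e1.trans e4) e2
            _ = (C' + C1 * ((L : ℝ) + 1) ^ d * 4 ^ d) * (N : ℝ) ^ (-mu) := by ring
            _ ≤ cst' * (N : ℝ) ^ (-mu) := mul_le_mul_of_nonneg_right hcc'2 (by positivity)
        · have e1 : P1.coeff r = 0 :=
            Polynomial.coeff_eq_zero_of_natDegree_lt (lt_of_le_of_lt hP1d (not_le.mp hr))
          have e2 : (Pst w (dg w om) j).coeff r = 0 :=
            Polynomial.coeff_eq_zero_of_natDegree_lt
              (lt_of_le_of_lt (Pst_natDegree w (dg w om) hj1) (not_le.mp hr))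
          rw [e1, e2, sub_zero, abs_zero]
          have : 0 ≤ cst' := hcst.trans hcc'
          positivity
      · intro v hv
        have := hP1e v hv
        rw [← hidx v]
        exact this
    have hfin := hN1 a (u + q * s) (q * q') l c1 c2 (Nat.mul_pos c3 hq') (c4.mul_right q')
      ((le_max_left _ _).trans hVl) (by
        intro v hv
        have := c6 (s + q' * v) (hsub v hv)
        calc u + q * s + q * q' * v = u + q * (s + q' * v) := by ring
          _ ≤ L := this)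
      (by
        have : lam w i om M N a * ((q * q' : ℕ) : ℝ) ^ M = lam w i om M N a * (q : ℝ) ^ M * (q' : ℝ) ^ M := by
          push_cast
          rw [mul_pow]; ring
        rw [this]
        exact hgen)
      (by
        intro j' hj'
        rcases mem_insert.mp hj' with rfl | hj'
        · exact htame
        · exact rc_tame_sub s q' l hcc' hsub (c8 j' hj'))
    simp only [hidx]
    exact hfin

private theorem rc_all {w : ℕ → Bool} {K i : ℕ} {om mu : ℝ} {M : ℕ} (h : IsCtx w K i om mu M)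
    (π : ℕ → Bool) (α β : ℝ) (h0 : 0 ≤ α) (h1 : α ≤ β) (h2 : β ≤ 1) (k : ℕ) :
    ∀ D : Finset ℕ, D ⊆ Sm w K i → (∀ j ∈ D, ∀ l ∈ Sm w K i, cc w l < cc w j → l ∈ D) →
      (Sm w K i \ D).card = k → RecD w K i om mu M π α β D := by
  induction k with
  | zero =>
    intro D hD _ hc
    have hsd : Sm w K i \ D = ∅ := card_eq_zero.mp hc
    have hDS : D = Sm w K i := Subset.antisymm hD (sdiff_eq_empty_iff_subset.mp hsd)
    rw [hDS]
    exact rc_base h π α β h0 h1 h2
  | succ k ih =>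
    intro D hD hcl hc
    have hne : (Sm w K i \ D).Nonempty := by
      rw [← card_pos, hc]; omega
    obtain ⟨j, hj, hmin⟩ := exists_min_image (Sm w K i \ D) (fun j => cc w j) hne
    obtain ⟨hjS, hjD⟩ := mem_sdiff.mp hj
    have hlow : ∀ l ∈ Sm w K i, cc w l < cc w j → l ∈ D := by
      intro l hl hlt
      by_contra hlD
      exact absurd (hmin l (mem_sdiff.mpr ⟨hl, hlD⟩)) (not_le.mpr hlt)
    apply rc_step h π α β h0 h1 h2 D j hjS hlow
    apply ih (insert j D) (insert_subset hjS hD)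
    · intro x hx l hl hlt
      rcases mem_insert.mp hx with rfl | hx
      · exact mem_insert_of_mem (hlow l hl hlt)
      · exact mem_insert_of_mem (hcl x hx l hl hlt)
    · rw [sdiff_insert, card_erase_of_mem hj, hc]; rfl

theorem recur {w : ℕ → Bool} {K i : ℕ} {om mu : ℝ} {M : ℕ} (h : IsCtx w K i om mu M)
    (π : ℕ → Bool) (α β : ℝ) (h0 : 0 ≤ α) (h1 : α ≤ β) (h2 : β ≤ 1) :
    ∀ ε : ℝ, 0 < ε → ∃ B : ℕ, 1 ≤ B ∧ ∀ η : ℝ, 0 < η → ∃ V0 : ℕ, ∀ L : ℕ,
      ∀ᶠ N : ℕ in atTop, ∀ a u q V : ℕ, N ≤ a → a < 2 * N → 1 ≤ q → Even q → V0 ≤ V →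
        (∀ v < V, u + q * v ≤ L) → Gen B η (lam w i om M N a * (q : ℝ) ^ M) →
        |∑ v ∈ range V, gf w π (insert 0 (Sm w K i)) i α β (a + Tz om N * (u + q * v))|
          ≤ ε * V + ∑ v ∈ range V, near w (Sm w K i) ε (a + Tz om N * (u + q * v)) := by
  intro ε hε
  obtain ⟨B, hB, H⟩ := rc_all h π α β h0 h1 h2 (Sm w K i \ ∅).card ∅ (empty_subset _)
    (by intro j hj; simp at hj) rfl ε hε
  refine ⟨B, hB, fun η hη => ?_⟩
  obtain ⟨V0, HV⟩ := H η hη
  refine ⟨V0, fun L => ?_⟩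
  filter_upwards [HV L 0 le_rfl] with N hN a u q V c1 c2 c3 c4 c5 c6 c7
  exact hN a u q V c1 c2 c3 c4 c5 c6 c7 (by intro j hj; simp at hj)

end Pool.Agent.Work.MP_215640_nt
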